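import Pool.Agent.Y889.PN.Engine
import Pool.Agent.H646.Cheb

/-!
The primes `p_n + 2 P(n)`.
-/

set_option autoImplicit false

namespace Pool.Agent.Y889.PN

open Finset

/-- the `n`-th prime, `p_1 = 2` -/
noncomputable def pr (n : ℕ) : ℕ := Nat.nth Nat.Prime (n - 1)

/-- the number of `1 ≤ n ≤ N` for which `p_n + 2 f(n)` is prime -/
noncomputable def hits (f : ℕ → ℕ) (N : ℕ) : ℕ := ((Icc 1 N).filter (fun n => (pr n + 2 * f n).Prime)).card

lemma pr_le : ∃ C₀ : ℝ, 1 ≤ C₀ ∧ ∀ n : ℕ, 2 ≤ n → (pr n : ℝ) ≤ C₀ * (n : ℝ) ^ 2 := by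
  obtain ⟨C₀, h1, h2⟩ := Pool.Agent.H646.ChebM.P_le
  refine ⟨C₀, h1, fun n hn => ?_⟩
  have h3 : (pr n : ℝ) ≤ (Pool.Agent.H646.P n : ℝ) := by
    have : pr n ≤ Nat.nth Nat.Prime n := by
      unfold pr
      exact Nat.nth_monotone Nat.infinite_setOfPred_prime (by omega)
    exact_mod_cast this
  refine h3.trans ((h2 n hn).trans ?_)
  have hn0 : (2 : ℝ) ≤ n := by exact_mod_cast hn
  have h4 : Real.log n ≤ n := (Real.log_le_sub_one_of_pos (by linarith)).trans (by linarith)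
  rw [sq]
  gcongr

/-- `p_n + 2 h` is coprime to `2n` when `n` divides `h` -/
lemma pr_coprime (n h : ℕ) (hn : 2 ≤ n) (hd : n ∣ h) : (pr n + 2 * h).Coprime (2 * n) := by
  have hp : (pr n).Prime := Nat.prime_nth_prime _
  have hlt : n < pr n := by
    unfold pr
    have := Nat.add_two_le_nth_prime (n - 1)
    omega
  have h2 : pr n ≠ 2 := by omega
  have hodd : ¬ 2 ∣ pr n := fun h => h2 ((Nat.prime_dvd_prime_iff_eq Nat.prime_two hp).1 h).symm
  apply Nat.Coprime.mul_right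
  · have h3 : (2 : ℕ).Coprime (pr n + 2 * h) := by
      rw [Nat.Prime.coprime_iff_not_dvd Nat.prime_two]
      intro h4
      exact hodd ((Nat.dvd_add_left (dvd_mul_right 2 h)).1 h4)
    exact h3.symm
  · obtain ⟨t, rfl⟩ := hd
    have e : pr n + 2 * (n * t) = pr n + n * (2 * t) := by ring
    rw [e, Nat.coprime_add_mul_left_left, hp.coprime_iff_not_dvd]
    intro h4
    have := Nat.le_of_dvd (by omega) h4
    omega

/-- **Almost all pairs.** -/
theorem pairs (K : ℕ) : ∃ B : ℕ, ∀ ε : ℝ, 0 < ε → ∃ C δ : ℝ, 0 < δ ∧ ∃ A₀ : ℕ, ∀ A : ℕ, A₀ ≤ A →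
    ∀ N : ℕ, C * Real.log A ≤ N → (N : ℝ) ^ 2 * Real.log A ^ B ≤ A →
    ∀ D : ℕ, (A : ℝ) * N ≤ D * Real.log A ^ K → (D : ℝ) ≤ A * N * Real.log A ^ K →
    ∀ h : ℕ → ℕ, (∀ n, 1 ≤ n → n ≤ N → n ∣ h n ∧ (h n : ℝ) ≤ A * N ^ 2 * Real.log A ^ K) →
      (((Icc 1 A ×ˢ Icc 1 D).filter (fun p =>
        (hits (fun n => p.1 * n ^ 2 + p.2 * n + h n) N : ℝ) < δ * (N / Real.log A))).card : ℝ) ≤
        ε * (A * D) := by
  obtain ⟨B, hB⟩ := engine (K + 1)
  obtain ⟨C₀, hC1, hC2⟩ := pr_le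
  refine ⟨B, fun ε hε => ?_⟩
  obtain ⟨C, δ, hδ, A₀, hA₀⟩ := hB ε hε
  obtain ⟨A₁, hA₁⟩ := Filter.eventually_atTop.1
    ((Real.tendsto_log_atTop.comp (tendsto_natCast_atTop_atTop (R := ℝ))).eventually
      (Filter.eventually_ge_atTop (C₀ + 2)))
  refine ⟨C, δ, hδ, max A₀ (max A₁ 1), fun A hA N hN1 hN2 D hD1 hD2 h hh => ?_⟩
  have hl : C₀ + 2 ≤ Real.log A := hA₁ A (le_trans (le_trans (le_max_left _ _) (le_max_right _ _)) hA)
  have hA1 : 1 ≤ A := le_trans (le_trans (le_max_right _ _) (le_max_right _ _)) hA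
  have hA1' : (1 : ℝ) ≤ A := by exact_mod_cast hA1
  set ℓ := Real.log A with hℓ
  have hℓ1 : 1 ≤ ℓ := by linarith
  have hℓ0 : 0 < ℓ := by linarith
  have hpow : ℓ ^ K ≤ ℓ ^ (K + 1) := pow_le_pow_right₀ hℓ1 (by omega)
  have h1 := hA₀ A ((le_max_left _ _).trans hA) N hN1 hN2 D
    (hD1.trans (mul_le_mul_of_nonneg_left hpow (by positivity)))
    (hD2.trans (mul_le_mul_of_nonneg_left hpow (by positivity)))
    (fun n => pr n + 2 * h n) (fun n hn hnN => by
      obtain ⟨g1, g2⟩ := hh n (by omega) hnN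
      refine ⟨pr_coprime n (h n) hn g1, ?_⟩
      have g3 := hC2 n hn
      have hnN' : (n : ℝ) ≤ N := by exact_mod_cast hnN
      have g4 : (n : ℝ) ^ 2 ≤ (N : ℝ) ^ 2 := pow_le_pow_left₀ (by positivity) hnN' 2
      have g5 : 1 ≤ ℓ ^ K := one_le_pow₀ hℓ1
      push_cast
      calc (pr n : ℝ) + 2 * h n ≤ C₀ * (n : ℝ) ^ 2 + 2 * (A * N ^ 2 * ℓ ^ K) := by linarith
        _ ≤ C₀ * (N : ℝ) ^ 2 + 2 * (A * N ^ 2 * ℓ ^ K) := by
            have := mul_le_mul_of_nonneg_left g4 (show 0 ≤ C₀ by linarith)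
            linarith
        _ ≤ C₀ * (A * N ^ 2 * ℓ ^ K) + 2 * (A * N ^ 2 * ℓ ^ K) := by
            have g6 : (N : ℝ) ^ 2 ≤ A * N ^ 2 * ℓ ^ K := by
              calc (N : ℝ) ^ 2 = 1 * (N : ℝ) ^ 2 * 1 := by ring
                _ ≤ A * N ^ 2 * ℓ ^ K := by gcongr
            have := mul_le_mul_of_nonneg_left g6 (show 0 ≤ C₀ by linarith)
            linarith
        _ = (C₀ + 2) * (A * N ^ 2 * ℓ ^ K) := by ring
        _ ≤ ℓ * (A * N ^ 2 * ℓ ^ K) := mul_le_mul_of_nonneg_right hl (by positivity)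
        _ = A * N ^ 2 * ℓ ^ (K + 1) := by ring)
  have e : ∀ a c : ℕ, cntP (fun n => pr n + 2 * h n) N a c = hits (fun n => a * n ^ 2 + c * n + h n) N := by
    intro a c
    unfold cntP hits
    congr 1
    apply filter_congr
    intro n _
    have e1 : pr n + 2 * h n + 2 * (a * n ^ 2 + c * n) = pr n + 2 * (a * n ^ 2 + c * n + h n) := by ring
    rw [e1]
  simp only [e] at h1
  exact h1

/-- the polynomial `v_0 x + v_1 x^2 + ... + v_(d-1) x^d` -/
def pval {d : ℕ} (v : Fin d → ℕ) (n : ℕ) : ℕ := ∑ i : Fin d, v i * n ^ ((i : ℕ) + 1)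

/-- the polynomials with coefficients in `[1, H]` and fewer than `t` prime values up to `N` -/
noncomputable def badP (d H N : ℕ) (t : ℝ) : Finset (Fin d → ℕ) :=
  (Fintype.piFinset (fun _ : Fin d => Icc 1 H)).filter (fun v => (hits (pval v) N : ℝ) < t)

lemma pval_split {e : ℕ} (v : Fin (e + 2) → ℕ) (n : ℕ) :
    pval v n = v 1 * n ^ 2 + v 0 * n + ∑ i : Fin e, v i.succ.succ * n ^ ((i : ℕ) + 3) := by
  unfold pval
  rw [Fin.sum_univ_succ, Fin.sum_univ_succ]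
  have e1 : ∀ i : Fin e, v i.succ.succ * n ^ ((i.succ.succ : Fin (e + 2)) : ℕ) * n =
      v i.succ.succ * n ^ ((i : ℕ) + 3) := by
    intro i
    simp only [Fin.val_succ]
    ring
  have e2 : ∑ i : Fin e, v i.succ.succ * n ^ (((i.succ.succ : Fin (e + 2)) : ℕ) + 1) =
      ∑ i : Fin e, v i.succ.succ * n ^ ((i : ℕ) + 3) := by
    apply sum_congr rfl
    intro i _
    rw [← e1 i]
    ring
  rw [e2]
  have e3 : (Fin.succ (0 : Fin (e + 1))) = (1 : Fin (e + 2)) := rfl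
  rw [e3]
  simp only [Fin.val_zero, Fin.val_one]
  ring

/-- **Almost all polynomials.** -/
theorem polys (d κ : ℕ) (hd : 2 ≤ d) (ε : ℝ) (hε : 0 < ε) : ∃ C δ : ℝ, 0 < δ ∧ ∃ H₀ : ℕ, ∀ H : ℕ, H₀ ≤ H →
    ∀ N : ℕ, C * Real.log H ≤ N → (N : ℝ) ≤ Real.log H ^ κ →
      ((badP d H N (δ * (N / Real.log H))).card : ℝ) ≤ ε * (H : ℝ) ^ d := by
  classical
  obtain ⟨e, rfl⟩ : ∃ e, d = e + 2 := ⟨d - 2, by omega⟩
  obtain ⟨K, hK⟩ : ∃ K, K = κ * (e + 3) + 1 := ⟨_, rfl⟩
  obtain ⟨B, hB⟩ := pairs K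
  obtain ⟨C, δ, hδ, A₀, hA₀⟩ := hB ε hε
  have hev : ∀ᶠ X : ℕ in Filter.atTop, (e + 1 : ℝ) ≤ Real.log X ∧ (Real.log X) ^ (2 * κ + B) ≤ X ∧ 3 ≤ X := by
    have h1 := (Real.tendsto_log_atTop.comp (tendsto_natCast_atTop_atTop (R := ℝ))).eventually
      (Filter.eventually_ge_atTop (e + 1 : ℝ))
    have h3 := (tendsto_natCast_atTop_atTop (R := ℝ)).eventually
      ((isLittleO_log_rpow_rpow_atTop (2 * κ + B : ℝ) (show (0:ℝ) < 1 by norm_num)).bound
        (show (0:ℝ) < 1 by norm_num))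
    filter_upwards [h1, h3, Filter.eventually_ge_atTop 3] with X g1 g3 g5
    have hX3 : (3 : ℝ) ≤ X := by exact_mod_cast g5
    have hlog : 0 ≤ Real.log X := Real.log_nonneg (by linarith)
    refine ⟨g1, ?_, g5⟩
    rw [Real.norm_of_nonneg (Real.rpow_nonneg hlog _), Real.norm_of_nonneg (Real.rpow_nonneg (by linarith) _),
      Real.rpow_one, one_mul] at g3
    have e1 : (2 * (κ : ℝ) + B) = ((2 * κ + B : ℕ) : ℝ) := by push_cast; ring
    rwa [e1, Real.rpow_natCast] at g3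
  obtain ⟨A₁, hA₁⟩ := Filter.eventually_atTop.1 hev
  refine ⟨C, δ, hδ, max A₀ A₁, fun H hH N hN1 hN2 => ?_⟩
  obtain ⟨a1, a2, a3⟩ := hA₁ H ((le_max_right _ _).trans hH)
  set ℓ := Real.log H with hℓ
  have hℓ1 : 1 ≤ ℓ := by
    have : (0 : ℝ) ≤ e := Nat.cast_nonneg e
    linarith
  have hℓ0 : 0 < ℓ := by linarith
  have hH0 : (0 : ℝ) < H := by exact_mod_cast (by omega : 0 < H)
  have hκK : ℓ ^ κ ≤ ℓ ^ K := pow_le_pow_right₀ hℓ1 (by rw [hK]; nlinarith)
  have hlK1 : 1 ≤ ℓ ^ K := one_le_pow₀ hℓ1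
  have hlκ1 : 1 ≤ ℓ ^ κ := one_le_pow₀ hℓ1
  -- the fibres
  have hfib : ∀ u ∈ Fintype.piFinset (fun _ : Fin e => Icc 1 H),
      (((badP (e + 2) H N (δ * (N / ℓ))).filter (fun v => (fun i : Fin e => v i.succ.succ) = u)).card : ℝ) ≤
        ε * (H * H) := by
    intro u hu
    rw [Fintype.mem_piFinset] at hu
    have hN2' : (N : ℝ) ^ 2 * ℓ ^ B ≤ H := by
      calc (N : ℝ) ^ 2 * ℓ ^ B ≤ (ℓ ^ κ) ^ 2 * ℓ ^ B := by gcongr
        _ = ℓ ^ (2 * κ + B) := by ring
        _ ≤ H := a2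
    rcases Nat.eq_zero_or_pos N with hN0 | hN0
    · -- no polynomial is bad
      have h1 : (badP (e + 2) H N (δ * (N / ℓ))).filter (fun v => (fun i : Fin e => v i.succ.succ) = u) = ∅ := by
        apply filter_eq_empty_iff.2
        intro v hv
        exfalso
        unfold badP at hv
        rw [mem_filter, hN0] at hv
        have := hv.2
        simp only [Nat.cast_zero, zero_div, mul_zero] at this
        exact absurd this (not_lt.2 (Nat.cast_nonneg _))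
      rw [h1, card_empty, Nat.cast_zero]
      positivity
    have hN1r : (1 : ℝ) ≤ N := by exact_mod_cast hN0
    have h1 := hA₀ H ((le_max_left _ _).trans hH) N hN1 hN2' H
      (mul_le_mul_of_nonneg_left (hN2.trans hκK) hH0.le)
      (by
        calc (H : ℝ) = H * 1 * 1 := by ring
          _ ≤ H * N * ℓ ^ K := by gcongr)
      (fun n => ∑ i : Fin e, u i * n ^ ((i : ℕ) + 3)) (fun n hn hnN => by
        refine ⟨?_, ?_⟩
        · apply dvd_sum
          intro i _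
          exact (dvd_pow_self n (by omega)).mul_left _
        · push_cast
          have hnN' : (n : ℝ) ≤ N := by exact_mod_cast hnN
          have g1 : ∀ i ∈ (univ : Finset (Fin e)), (u i : ℝ) * (n : ℝ) ^ ((i : ℕ) + 3) ≤ H * (N ^ 2 * (ℓ ^ κ) ^ (e + 3)) := by
            intro i _
            have g2 : (u i : ℝ) ≤ H := by exact_mod_cast (mem_Icc.1 (hu i)).2
            have g3 : (n : ℝ) ^ ((i : ℕ) + 3) ≤ N ^ 2 * (ℓ ^ κ) ^ (e + 3) := by
              calc (n : ℝ) ^ ((i : ℕ) + 3) ≤ (N : ℝ) ^ ((i : ℕ) + 3) := by gcongr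
                _ = (N : ℝ) ^ 2 * (N : ℝ) ^ ((i : ℕ) + 1) := by ring
                _ ≤ (N : ℝ) ^ 2 * (ℓ ^ κ) ^ ((i : ℕ) + 1) := by gcongr
                _ ≤ (N : ℝ) ^ 2 * (ℓ ^ κ) ^ (e + 3) := by
                    apply mul_le_mul_of_nonneg_left _ (by positivity)
                    exact pow_le_pow_right₀ hlκ1 (by have := i.2; omega)
            exact mul_le_mul g2 g3 (by positivity) hH0.le
          refine (sum_le_sum g1).trans ?_
          rw [sum_const, card_univ, Fintype.card_fin, nsmul_eq_mul]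
          calc (e : ℝ) * (H * (N ^ 2 * (ℓ ^ κ) ^ (e + 3))) = e * (H * N ^ 2 * (ℓ ^ κ) ^ (e + 3)) := by ring
            _ ≤ ℓ * (H * N ^ 2 * (ℓ ^ κ) ^ (e + 3)) := by
                apply mul_le_mul_of_nonneg_right _ (by positivity)
                linarith
            _ = H * N ^ 2 * ℓ ^ K := by rw [hK]; ring)
    refine le_trans ?_ h1
    have h2 : ((badP (e + 2) H N (δ * (N / ℓ))).filter (fun v => (fun i : Fin e => v i.succ.succ) = u)).card ≤
        ((Icc 1 H ×ˢ Icc 1 H).filter (fun p => (hits (fun n => p.1 * n ^ 2 + p.2 * n +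
          ∑ i : Fin e, u i * n ^ ((i : ℕ) + 3)) N : ℝ) < δ * (N / ℓ))).card := by
      apply card_le_card_of_injOn (fun v => (v 1, v 0))
      · intro v hv
        have hv1 := mem_filter.1 (mem_coe.1 hv)
        have hv2 := hv1.1
        unfold badP at hv2
        rw [mem_filter, Fintype.mem_piFinset] at hv2
        refine mem_coe.2 (mem_filter.2 ⟨mem_product.2 ⟨hv2.1 1, hv2.1 0⟩, ?_⟩)
        have e1 : pval v = (fun n => v 1 * n ^ 2 + v 0 * n + ∑ i : Fin e, u i * n ^ ((i : ℕ) + 3)) := by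
          funext n
          rw [pval_split, ← hv1.2]
        rw [e1] at hv2
        exact hv2.2
      · intro v hv v' hv' h
        have hv1 := (mem_filter.1 (mem_coe.1 hv)).2
        have hv2 := (mem_filter.1 (mem_coe.1 hv')).2
        have h3 : v 1 = v' 1 := congrArg Prod.fst h
        have h4 : v 0 = v' 0 := congrArg Prod.snd h
        funext i
        refine Fin.cases h4 (fun j => ?_) i
        refine Fin.cases h3 (fun l => ?_) j
        have h5 := congrFun (hv1.trans hv2.symm) l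
        exact h5
    exact_mod_cast h2
  have hmaps : ∀ v ∈ badP (e + 2) H N (δ * (N / ℓ)), (fun i : Fin e => v i.succ.succ) ∈
      Fintype.piFinset (fun _ : Fin e => Icc 1 H) := by
    intro v hv
    unfold badP at hv
    rw [mem_filter, Fintype.mem_piFinset] at hv
    rw [Fintype.mem_piFinset]
    intro i
    exact hv.1 _
  rw [card_eq_sum_card_fiberwise hmaps]
  push_cast
  refine (sum_le_sum hfib).trans (le_of_eq ?_)
  rw [sum_const, Fintype.card_piFinset, nsmul_eq_mul]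
  simp only [Nat.card_Icc, Nat.add_sub_cancel, prod_const, card_univ, Fintype.card_fin]
  push_cast
  ring

end Pool.Agent.Y889.PN
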