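import Pool.Agent.H343R2.EH.Psi
import Pool.Agent.H343R2.EH.Primes
import Pool.Agent.H373R2.T7.LamMaj
import Pool.Agent.W93.LV2

/-!
The Bombieri-Vinogradov theorem with the maximum over the classes and over the heights.
-/

set_option autoImplicit false

namespace Pool.Agent.Y889.PN

open Finset
open H343E (Fam psiAP psi1 psiAP_le card_mod)

/-- `ψ(Y; k, a)` -/
noncomputable def PS (Y k a : ℕ) : ℝ :=
  ∑ n ∈ (Icc 1 Y).filter (fun n => n ≡ a [MOD k]), ArithmeticFunction.vonMangoldt n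

lemma psiAP_nat (Y k a : ℕ) : psiAP (Y : ℝ) k a = PS Y k a := by
  unfold psiAP PS
  rw [Nat.floor_natCast]

lemma psi1_nat (Y : ℕ) : psi1 (Y : ℝ) = PS Y 1 0 := by
  unfold psi1 PS
  rw [Nat.floor_natCast]
  apply sum_congr _ (fun _ _ => rfl)
  ext n
  simp [Nat.modEq_one]

lemma PS_nonneg (Y k a : ℕ) : 0 ≤ PS Y k a :=
  sum_nonneg fun _ _ => ArithmeticFunction.vonMangoldt_nonneg

lemma PS_mod (Y k a : ℕ) : PS Y k (a % k) = PS Y k a := by
  unfold PS
  apply sum_congr _ (fun _ _ => rfl)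
  ext n
  simp only [mem_filter, Nat.ModEq, Nat.mod_mod]

lemma PS_zero (k a : ℕ) : PS 0 k a = 0 := by
  unfold PS
  simp

lemma PS_mono (Y Z k a : ℕ) (h : Y ≤ Z) : PS Y k a ≤ PS Z k a := by
  unfold PS
  apply sum_le_sum_of_subset_of_nonneg
  · exact filter_subset_filter _ (Icc_subset_Icc_right h)
  · intro i _ _
    exact ArithmeticFunction.vonMangoldt_nonneg

lemma PS_le (Y k a : ℕ) (hk : 1 ≤ k) : PS Y k a ≤ (Y / k + 1) * Real.log Y := by
  rw [← psiAP_nat]
  exact psiAP_le Y k a hk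

/-- few elements of a class in a short interval -/
lemma PS_short (Y Z k a X : ℕ) (hk : 1 ≤ k) (h : Y ≤ Z) (hZ : Z ≤ X) :
    PS Z k a - PS Y k a ≤ (((Z - Y : ℕ) : ℝ) / k + 1) * Real.log X := by
  have h0 : PS Z k a - PS Y k a =
      ∑ n ∈ (Ioc Y Z).filter (fun n => n ≡ a [MOD k]), ArithmeticFunction.vonMangoldt n := by
    unfold PS
    have e : (Icc 1 Z).filter (fun n => n ≡ a [MOD k]) =
        (Icc 1 Y).filter (fun n => n ≡ a [MOD k]) ∪ (Ioc Y Z).filter (fun n => n ≡ a [MOD k]) := by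
      ext n
      simp only [mem_union, mem_filter, mem_Icc, mem_Ioc]
      constructor
      · rintro ⟨⟨h1, h2⟩, h3⟩
        rcases le_or_gt n Y with h4 | h4
        · exact Or.inl ⟨⟨h1, h4⟩, h3⟩
        · exact Or.inr ⟨⟨h4, h2⟩, h3⟩
      · rintro (⟨⟨h1, h2⟩, h3⟩ | ⟨⟨h1, h2⟩, h3⟩)
        · exact ⟨⟨h1, by omega⟩, h3⟩
        · exact ⟨⟨by omega, h2⟩, h3⟩
    rw [e, sum_union]
    · ring
    · rw [disjoint_left]
      intro n h1 h2
      simp only [mem_filter, mem_Icc, mem_Ioc] at h1 h2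
      omega
  rw [h0]
  have h1 : ∑ n ∈ (Ioc Y Z).filter (fun n => n ≡ a [MOD k]), ArithmeticFunction.vonMangoldt n ≤
      ∑ n ∈ (Ioc Y Z).filter (fun n => n ≡ a [MOD k]), Real.log X := by
    apply sum_le_sum
    intro m hm
    rw [mem_filter, mem_Ioc] at hm
    refine ArithmeticFunction.vonMangoldt_le_log.trans ?_
    exact Real.log_le_log (by exact_mod_cast (by omega : 0 < m)) (by exact_mod_cast (by omega : m ≤ X))
  refine h1.trans ?_
  rw [sum_const, nsmul_eq_mul]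
  apply mul_le_mul_of_nonneg_right _ (Real.log_natCast_nonneg X)
  -- shift the interval
  have h2 : ((Ioc Y Z).filter (fun n => n ≡ a [MOD k])).card ≤
      ((Icc 1 (Z - Y)).filter (fun n => n ≡ a + (k - 1) * Y [MOD k])).card := by
    apply card_le_card_of_injOn (fun n => n - Y)
    · intro n hn
      have hn' := mem_filter.1 (mem_coe.1 hn)
      rw [mem_Ioc] at hn'
      refine mem_coe.2 (mem_filter.2 ⟨mem_Icc.2 ⟨by show 1 ≤ n - Y; omega, by show n - Y ≤ Z - Y; omega⟩, ?_⟩)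
      have h3 : (n - Y) + Y ≡ a + (k - 1) * Y + Y [MOD k] := by
        have e1 : (n - Y) + Y = n := by omega
        have e2 : a + (k - 1) * Y + Y = a + k * Y := by
          obtain ⟨j, rfl⟩ : ∃ j, k = j + 1 := ⟨k - 1, by omega⟩
          simp only [Nat.add_sub_cancel]
          ring
        rw [e1, e2]
        have h4 : a + k * Y ≡ a [MOD k] := by
          unfold Nat.ModEq
          simp
        exact hn'.2.trans h4.symm
      exact Nat.ModEq.add_right_cancel' Y h3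
    · intro n hn m hm h
      have hn' := mem_filter.1 (mem_coe.1 hn)
      have hm' := mem_filter.1 (mem_coe.1 hm)
      rw [mem_Ioc] at hn' hm'
      have h' : n - Y = m - Y := h
      omega
  have h3 := card_mod (Z - Y) k (a + (k - 1) * Y) hk
  exact le_trans (by exact_mod_cast h2) h3

/-- the error term -/
noncomputable def Er (Y k a : ℕ) : ℝ := |PS Y k a - Y / (Nat.totient k : ℝ)|

/-- the pairs (class, height) -/
def PY (X k : ℕ) : Finset (ℕ × ℕ) := ((range k).filter (fun a => a.Coprime k)) ×ˢ range (X + 1)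

lemma PY_nonempty (X k : ℕ) (hk : 1 ≤ k) : (PY X k).Nonempty := by
  rcases Nat.lt_or_ge k 2 with h | h
  · have : k = 1 := by omega
    subst this
    exact ⟨(0, 0), by simp [PY]⟩
  · exact ⟨(1, 0), by simp [PY]; omega⟩

theorem bvmax (U : ℕ) : ∃ B X0 : ℕ, ∀ X : ℕ, X0 ≤ X → ∀ Q : ℕ, (Q : ℝ) ^ 2 * Real.log X ^ B ≤ X →
    ∃ M : ℕ → ℝ, (∀ q, 0 ≤ M q) ∧
      (∀ q, 1 ≤ q → ∀ a : ℕ, a.Coprime q → ∀ y : ℕ, y ≤ X → |PS y q a - y / (Nat.totient q : ℝ)| ≤ M q) ∧
      (∀ q, 1 ≤ q → q ≤ X → M q ≤ 2 * X * Real.log X / (Nat.totient q : ℝ)) ∧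
      ∑ q ∈ Icc 1 Q, M q ≤ X / Real.log X ^ U := by
  classical
  obtain ⟨V, hV⟩ : ∃ V, V = U + 4 := ⟨_, rfl⟩
  obtain ⟨U1, hU1⟩ : ∃ U1, U1 = U + V + 5 := ⟨_, rfl⟩
  obtain ⟨B1, Y1, hbv⟩ := H343E.unsmoothed U1
  obtain ⟨N1, hsw⟩ := Pool.Agent.H373R2.T7.lam_ap 0 U1
  have hev : ∀ᶠ X : ℕ in Filter.atTop, (2 : ℝ) ^ (U1 + 10) ≤ Real.log X ∧
      (Real.log X) ^ (2 * V + 2) ≤ X ∧ 3 ≤ X ∧ N1 ≤ X ∧ Y1 ^ 2 ≤ X ∧ Y1 ≤ Real.log X := by
    have h1 := (Real.tendsto_log_atTop.comp (tendsto_natCast_atTop_atTop (R := ℝ))).eventually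
      (Filter.eventually_ge_atTop ((2:ℝ) ^ (U1 + 10)))
    have h2 := (Real.tendsto_log_atTop.comp (tendsto_natCast_atTop_atTop (R := ℝ))).eventually
      (Filter.eventually_ge_atTop Y1)
    have h3 := (tendsto_natCast_atTop_atTop (R := ℝ)).eventually
      ((isLittleO_log_rpow_rpow_atTop (2 * V + 2 : ℝ) (show (0:ℝ) < 1 by norm_num)).bound
        (show (0:ℝ) < 1 by norm_num))
    have h4 := (tendsto_natCast_atTop_atTop (R := ℝ)).eventually (Filter.eventually_ge_atTop (Y1 ^ 2))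
    filter_upwards [h1, h2, h3, h4, Filter.eventually_ge_atTop 3, Filter.eventually_ge_atTop N1]
      with X g1 g2 g3 g4 g5 g6
    have hX3 : (3 : ℝ) ≤ X := by exact_mod_cast g5
    have hlog : 0 ≤ Real.log X := Real.log_nonneg (by linarith)
    refine ⟨g1, ?_, g5, g6, g4, g2⟩
    rw [Real.norm_of_nonneg (Real.rpow_nonneg hlog _), Real.norm_of_nonneg (Real.rpow_nonneg (by linarith) _),
      Real.rpow_one, one_mul] at g3
    have e : (2 * (V : ℝ) + 2) = ((2 * V + 2 : ℕ) : ℝ) := by push_cast; ring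
    rwa [e, Real.rpow_natCast] at g3
  obtain ⟨X0, hX0⟩ := Filter.eventually_atTop.1 hev
  refine ⟨B1 + 2 * V + 4, X0, fun X hX Q hQ => ?_⟩
  obtain ⟨c1, c2, c3, c4, c5, c6⟩ := hX0 X hX
  set ℓ := Real.log X with hℓ
  have hU10 : (1024 : ℝ) ≤ (2 : ℝ) ^ (U1 + 10) := by
    calc (1024 : ℝ) = 2 ^ 10 := by norm_num
      _ ≤ _ := pow_le_pow_right₀ (by norm_num) (by omega)
  have hℓ1024 : (1024 : ℝ) ≤ ℓ := hU10.trans c1
  have hℓU1 : (2 : ℝ) ^ U1 ≤ ℓ := le_trans (pow_le_pow_right₀ (by norm_num) (by omega)) c1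
  have hℓ0 : 0 < ℓ := by linarith
  have hℓ1 : 1 ≤ ℓ := by linarith
  have hp0 : ∀ n : ℕ, 0 < ℓ ^ n := fun n => by positivity
  have hp1 : ∀ n : ℕ, 1 ≤ ℓ ^ n := fun n => one_le_pow₀ hℓ1
  have hmono : ∀ m n : ℕ, m ≤ n → ℓ ^ m ≤ ℓ ^ n := fun m n h => pow_le_pow_right₀ hℓ1 h
  have hX3 : (3 : ℝ) ≤ X := by exact_mod_cast c3
  have hXpos : (0 : ℝ) < X := by linarith
  -- the step
  obtain ⟨H0, hH0⟩ : ∃ H0 : ℕ, H0 = ⌊(X : ℝ) / ℓ ^ V⌋₊ := ⟨_, rfl⟩
  have hq0 : ℓ ^ (V + 2) ≤ X / ℓ ^ V := by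
    rw [le_div_iff₀ (hp0 V), ← pow_add]
    calc ℓ ^ (V + 2 + V) = ℓ ^ (2 * V + 2) := by ring_nf
      _ ≤ X := c2
  have hq1 : (1024 : ℝ) ≤ X / ℓ ^ V := by
    refine le_trans (hℓ1024.trans ?_) hq0
    exact le_self_pow₀ hℓ1 (by omega)
  have hH0le : (H0 : ℝ) ≤ X / ℓ ^ V := by
    rw [hH0]
    exact Nat.floor_le (by positivity)
  have hH0ge : X / (2 * ℓ ^ V) ≤ H0 := by
    have h1 : X / ℓ ^ V - 1 ≤ H0 := by
      rw [hH0]
      linarith [(Nat.lt_floor_add_one ((X : ℝ) / ℓ ^ V))]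
    have h2 : X / (2 * ℓ ^ V) = (X / ℓ ^ V) / 2 := by
      rw [mul_comm, ← div_div]
    rw [h2]
    linarith
  have hH0ℓ : ℓ ≤ H0 := by
    have h1 : ℓ ^ (V + 2) / 2 ≤ H0 := by
      refine le_trans ?_ hH0ge
      rw [mul_comm, ← div_div]
      linarith
    have h2 : 2 * ℓ ≤ ℓ ^ (V + 2) := by
      calc 2 * ℓ ≤ ℓ * ℓ := by nlinarith
        _ = ℓ ^ 2 := by ring
        _ ≤ _ := hmono _ _ (by omega)
    linarith
  have hH0pos : 0 < H0 := by
    have : (0 : ℝ) < H0 := by linarith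
    exact_mod_cast this
  have hH0r : (0 : ℝ) < H0 := by exact_mod_cast hH0pos
  have hH0X : (X : ℝ) ≤ (H0 : ℝ) ^ 2 := by
    have h1 : X / (2 * ℓ ^ V) * (X / (2 * ℓ ^ V)) ≤ H0 * H0 :=
      mul_le_mul hH0ge hH0ge (by positivity) hH0r.le
    have h2 : (X : ℝ) ≤ X / (2 * ℓ ^ V) * (X / (2 * ℓ ^ V)) := by
      rw [div_mul_div_comm, le_div_iff₀ (by positivity)]
      apply mul_le_mul_of_nonneg_left _ hXpos.le
      calc 2 * ℓ ^ V * (2 * ℓ ^ V) = 4 * ℓ ^ (2 * V) := by ring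
        _ ≤ ℓ ^ 2 * ℓ ^ (2 * V) := by
            apply mul_le_mul_of_nonneg_right _ (hp0 _).le
            nlinarith
        _ = ℓ ^ (2 * V + 2) := by ring
        _ ≤ X := c2
    calc (X : ℝ) ≤ H0 * H0 := h2.trans h1
      _ = _ := by ring
  obtain ⟨J, hJ⟩ : ∃ J : ℕ, J = X / H0 := ⟨_, rfl⟩
  have hJle : (J : ℝ) + 1 ≤ 3 * ℓ ^ V := by
    have h1 : (J : ℝ) ≤ X / H0 := by
      rw [hJ]
      exact Nat.cast_div_le
    have h2 : (X : ℝ) / H0 ≤ 2 * ℓ ^ V := by
      rw [div_le_iff₀ hH0r]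
      rw [div_le_iff₀ (by positivity)] at hH0ge
      linarith
    have := hp1 V
    linarith
  have hQ1 : (Q : ℝ) ^ 2 * ℓ ^ (B1 + V + 1) ≤ H0 := by
    refine le_trans ?_ hH0ge
    rw [le_div_iff₀ (by positivity)]
    calc (Q : ℝ) ^ 2 * ℓ ^ (B1 + V + 1) * (2 * ℓ ^ V) = (Q : ℝ) ^ 2 * (2 * ℓ ^ (B1 + V + 1 + V)) := by ring
      _ ≤ (Q : ℝ) ^ 2 * (ℓ * ℓ ^ (B1 + V + 1 + V)) := by
          apply mul_le_mul_of_nonneg_left _ (by positivity)
          apply mul_le_mul_of_nonneg_right _ (hp0 _).le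
          linarith
      _ = (Q : ℝ) ^ 2 * ℓ ^ (B1 + 2 * V + 2) := by ring
      _ ≤ (Q : ℝ) ^ 2 * ℓ ^ (B1 + 2 * V + 4) := by
          apply mul_le_mul_of_nonneg_left (hmono _ _ (by omega)) (by positivity)
      _ ≤ X := hQ
  have hQQ : (Q : ℝ) ≤ (Q : ℝ) ^ 2 := by
    rcases Nat.eq_zero_or_pos Q with h | h
    · rw [h]; norm_num
    · have : (1 : ℝ) ≤ Q := by exact_mod_cast h
      nlinarith
  have hQX : Q ≤ X := by
    have h1 : (Q : ℝ) ≤ X := by
      calc (Q : ℝ) ≤ (Q : ℝ) ^ 2 * 1 := by linarith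
        _ ≤ (Q : ℝ) ^ 2 * ℓ ^ (B1 + 2 * V + 4) := mul_le_mul_of_nonneg_left (hp1 _) (by positivity)
        _ ≤ X := hQ
    exact_mod_cast h1
  -- the extremal pairs
  have hch : ∀ q, ∃ p : ℕ × ℕ, (1 ≤ q → p ∈ PY X q ∧ ∀ p' ∈ PY X q, Er p'.2 q p'.1 ≤ Er p.2 q p.1) := by
    intro q
    by_cases hq : 1 ≤ q
    · obtain ⟨p, hp, hp2⟩ := exists_max_image (PY X q) (fun p => Er p.2 q p.1) (PY_nonempty X q hq)
      exact ⟨p, fun _ => ⟨hp, hp2⟩⟩
    · exact ⟨(0, 0), fun h => absurd h hq⟩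
  choose P hP using hch
  have hPmem : ∀ q, 1 ≤ q → (P q).1 < q ∧ (P q).1.Coprime q ∧ (P q).2 ≤ X := by
    intro q hq
    have h := (hP q hq).1
    unfold PY at h
    rw [mem_product, mem_filter, mem_range, mem_range] at h
    exact ⟨h.1.1, h.1.2, by omega⟩
  refine ⟨fun q => if 1 ≤ q then Er (P q).2 q (P q).1 else 0, fun q => ?_, fun q hq a ha y hy => ?_,
    fun q hq hqX => ?_, ?_⟩
  · dsimp only
    split_ifs
    · exact abs_nonneg _
    · exact le_rfl
  · dsimp only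
    rw [if_pos hq]
    have h1 : (a % q, y) ∈ PY X q := by
      unfold PY
      rw [mem_product, mem_filter, mem_range, mem_range]
      refine ⟨⟨Nat.mod_lt _ (by omega), ?_⟩, by show y < X + 1; omega⟩
      have h6 := Nat.gcd_rec q a
      show (a % q).Coprime q
      rw [Nat.Coprime, ← h6, Nat.gcd_comm]
      exact ha
    have h2 := (hP q hq).2 _ h1
    unfold Er at h2
    dsimp only at h2
    rwa [PS_mod] at h2
  · dsimp only
    rw [if_pos hq]
    obtain ⟨h1, h2, h3⟩ := hPmem q hq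
    have hφ : (0 : ℝ) < Nat.totient q := by exact_mod_cast Nat.totient_pos.2 hq
    have hφq : (Nat.totient q : ℝ) ≤ q := by exact_mod_cast Nat.totient_le q
    have hq0 : (0 : ℝ) < q := by exact_mod_cast hq
    have hqXr : (q : ℝ) ≤ X := by exact_mod_cast hqX
    have h3r : ((P q).2 : ℝ) ≤ X := by exact_mod_cast h3
    have hlog : Real.log ((P q).2 : ℝ) ≤ ℓ := by
      rcases Nat.eq_zero_or_pos (P q).2 with h | h
      · rw [h]; simp; exact hℓ0.le
      · exact Real.log_le_log (by exact_mod_cast h) h3r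
    have ha : PS (P q).2 q (P q).1 ≤ 2 * X * ℓ / (Nat.totient q : ℝ) := by
      refine (PS_le _ _ _ hq).trans ?_
      calc (((P q).2 : ℝ) / q + 1) * Real.log ((P q).2 : ℝ) ≤ (X / q + 1) * ℓ := by
            apply mul_le_mul _ hlog (Real.log_natCast_nonneg _) (by positivity)
            gcongr
        _ ≤ (X / q + X / q) * ℓ := by
            apply mul_le_mul_of_nonneg_right _ hℓ0.le
            have : 1 ≤ (X : ℝ) / q := by rw [le_div_iff₀ hq0]; linarith
            linarith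
        _ = 2 * X * ℓ / q := by ring
        _ ≤ _ := by gcongr
    have hb : ((P q).2 : ℝ) / (Nat.totient q : ℝ) ≤ 2 * X * ℓ / (Nat.totient q : ℝ) := by
      gcongr
      nlinarith
    have hc := PS_nonneg (P q).2 q (P q).1
    have hd : 0 ≤ ((P q).2 : ℝ) / (Nat.totient q : ℝ) := by positivity
    unfold Er
    rw [abs_le]
    constructor <;> linarith
  · -- the sum
    have hφsum : ∑ q ∈ Icc 1 Q, 1 / (Nat.totient q : ℝ) ≤ (1 + ℓ) ^ 2 :=
      Pool.Agent.W93.LV.inv_phi_sum Q X hQX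
    have hφ4 : (1 + ℓ) ^ 2 ≤ 4 * ℓ ^ 2 := by nlinarith
    have hstep : ∀ q ∈ Icc 1 Q, (if 1 ≤ q then Er (P q).2 q (P q).1 else 0) ≤
        Er ((P q).2 / H0 * H0) q (P q).1 + (2 * (H0 : ℝ) * ℓ * (1 / (Nat.totient q : ℝ)) + ℓ) := by
      intro q hq
      rw [mem_Icc] at hq
      rw [if_pos hq.1]
      obtain ⟨h1, h2, h3⟩ := hPmem q hq.1
      have hφ : (0 : ℝ) < Nat.totient q := by exact_mod_cast Nat.totient_pos.2 hq.1
      have hφq : (Nat.totient q : ℝ) ≤ q := by exact_mod_cast Nat.totient_le q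
      have hq0 : (0 : ℝ) < q := by exact_mod_cast hq.1
      obtain ⟨y, hy⟩ : ∃ y, y = (P q).2 := ⟨_, rfl⟩
      obtain ⟨Y, hY⟩ : ∃ Y, Y = y / H0 * H0 := ⟨_, rfl⟩
      rw [← hy, ← hY]
      have hYy : Y ≤ y := by rw [hY]; exact Nat.div_mul_le_self _ _
      have hyY : y - Y ≤ H0 := by
        have := Nat.div_add_mod y H0
        have h4 := Nat.mod_lt y hH0pos
        have h5 : Y = H0 * (y / H0) := by rw [hY, mul_comm]
        omega
      have h6 := PS_short Y y q (P q).1 X hq.1 hYy (by omega)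
      have h7 := PS_mono Y y q (P q).1 hYy
      have h8 : (((y - Y : ℕ) : ℝ) / q + 1) * ℓ ≤ H0 * ℓ * (1 / (Nat.totient q : ℝ)) + ℓ := by
        have e1 : ((y - Y : ℕ) : ℝ) ≤ H0 := by exact_mod_cast hyY
        have e2 : ((y - Y : ℕ) : ℝ) / q ≤ H0 / (Nat.totient q : ℝ) := by
          gcongr
        calc (((y - Y : ℕ) : ℝ) / q + 1) * ℓ ≤ (H0 / (Nat.totient q : ℝ) + 1) * ℓ := by gcongr
          _ = _ := by ring
      have h9 : ((y : ℝ) - Y) / (Nat.totient q : ℝ) ≤ H0 * ℓ * (1 / (Nat.totient q : ℝ)) := by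
        have e1 : (y : ℝ) - Y ≤ H0 := by
          have e2 : ((y - Y : ℕ) : ℝ) ≤ H0 := by exact_mod_cast hyY
          rwa [Nat.cast_sub hYy] at e2
        rw [mul_one_div]
        gcongr
        nlinarith
      have h10 : 0 ≤ ((y : ℝ) - Y) / (Nat.totient q : ℝ) := by
        have e1 : (Y : ℝ) ≤ y := by exact_mod_cast hYy
        apply div_nonneg (by linarith) hφ.le
      have e3 : PS y q (P q).1 - y / (Nat.totient q : ℝ) = (PS Y q (P q).1 - Y / (Nat.totient q : ℝ)) +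
          (PS y q (P q).1 - PS Y q (P q).1) - (((y : ℝ) - Y) / (Nat.totient q : ℝ)) := by
        ring
      unfold Er
      rw [e3]
      have h11 := abs_le.1 (le_refl |PS Y q (P q).1 - Y / (Nat.totient q : ℝ)|)
      rw [abs_le]
      constructor
      · nlinarith [h11.1]
      · nlinarith [h11.2]
    refine (sum_le_sum hstep).trans ?_
    rw [sum_add_distrib]
    -- the main part: one height at a time
    have hheight : ∀ j ∈ range (J + 1), ∑ q ∈ (Icc 1 Q).filter (fun q => (P q).2 / H0 = j),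
        Er ((P q).2 / H0 * H0) q (P q).1 ≤ 5 * X * ℓ ^ 2 / ℓ ^ U1 := by
      intro j _
      have hpos : 0 ≤ 5 * X * ℓ ^ 2 / ℓ ^ U1 := by positivity
      have e0 : ∑ q ∈ (Icc 1 Q).filter (fun q => (P q).2 / H0 = j), Er ((P q).2 / H0 * H0) q (P q).1 =
          ∑ q ∈ (Icc 1 Q).filter (fun q => (P q).2 / H0 = j), Er (j * H0) q (P q).1 := by
        apply sum_congr rfl
        intro q hq
        rw [(mem_filter.1 hq).2]
      rw [e0]
      by_cases hjX : j * H0 ≤ X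
      swap
      · -- empty
        apply le_trans _ hpos
        apply le_of_eq
        apply sum_eq_zero
        intro q hq
        rw [mem_filter, mem_Icc] at hq
        exfalso
        apply hjX
        rw [← hq.2]
        exact (Nat.div_mul_le_self _ _).trans (hPmem q hq.1.1).2.2
      rcases Nat.eq_zero_or_pos j with hj | hj
      · apply le_trans _ hpos
        apply le_of_eq
        apply sum_eq_zero
        intro q _
        rw [hj, zero_mul]
        unfold Er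
        rw [PS_zero]
        simp
      obtain ⟨Y, hY⟩ : ∃ Y, Y = j * H0 := ⟨_, rfl⟩
      rw [← hY] at hjX ⊢
      have hHY : H0 ≤ Y := by rw [hY]; exact Nat.le_mul_of_pos_left _ hj
      have hHYr : (H0 : ℝ) ≤ Y := by exact_mod_cast hHY
      have hYr : (Y : ℝ) ≤ X := by exact_mod_cast hjX
      have hY0 : (0 : ℝ) < Y := by linarith
      have hlY : Real.log Y ≤ ℓ := Real.log_le_log hY0 hYr
      have hlY2 : ℓ / 2 ≤ Real.log Y := by
        have h1 : Real.log X ≤ Real.log ((H0 : ℝ) ^ 2) := Real.log_le_log hXpos hH0X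
        rw [Real.log_pow] at h1
        have h2 := Real.log_le_log hH0r hHYr
        push_cast at h1
        linarith
      have hlY0 : 0 < Real.log Y := by linarith
      have hYB : (Q : ℝ) ^ 2 ≤ Y / Real.log Y ^ B1 := by
        rw [le_div_iff₀ (by positivity)]
        calc (Q : ℝ) ^ 2 * Real.log Y ^ B1 ≤ (Q : ℝ) ^ 2 * ℓ ^ B1 := by gcongr
          _ ≤ (Q : ℝ) ^ 2 * ℓ ^ (B1 + V + 1) := by
              apply mul_le_mul_of_nonneg_left (hmono _ _ (by omega)) (by positivity)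
          _ ≤ H0 := hQ1
          _ ≤ Y := hHYr
      set L : ℕ → Finset ℕ := fun q => if 1 ≤ q ∧ (P q).2 / H0 = j then {(P q).1} else ∅ with hL
      have hFam : Fam 1 L := by
        constructor
        · intro q a ha
          rw [hL] at ha
          dsimp only at ha
          split_ifs at ha with h
          · rw [mem_singleton] at ha
            rw [ha]
            exact ⟨(hPmem q h.1).1, (hPmem q h.1).2.1⟩
          · simp at ha
        · intro q
          rw [hL]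
          dsimp only
          split_ifs <;> simp
      have h1 := hbv (Y : ℝ) (by linarith) 1 le_rfl Q (hQQ.trans hYB) (by rw [one_mul]; exact hYB) L hFam
      rw [one_mul] at h1
      have h2 : ∑ q ∈ (Icc 1 Q).filter (fun q => (P q).2 / H0 = j), Er Y q (P q).1 ≤
          ∑ q ∈ Icc 1 Q, ∑ a ∈ L q, |psiAP (Y : ℝ) q a - psi1 (Y : ℝ) / (Nat.totient q : ℝ)| +
          ∑ q ∈ Icc 1 Q, |PS Y 1 0 - Y| * (1 / (Nat.totient q : ℝ)) := by
        rw [sum_filter, ← sum_add_distrib]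
        apply sum_le_sum
        intro q hq
        rw [mem_Icc] at hq
        have hφ : (0 : ℝ) < Nat.totient q := by exact_mod_cast Nat.totient_pos.2 hq.1
        split_ifs with h
        · have e1 : L q = {(P q).1} := by
            rw [hL]
            dsimp only
            rw [if_pos ⟨hq.1, h⟩]
          rw [e1, sum_singleton, psiAP_nat, psi1_nat]
          unfold Er
          have e2 : PS Y q (P q).1 - Y / (Nat.totient q : ℝ) =
              (PS Y q (P q).1 - PS Y 1 0 / (Nat.totient q : ℝ)) + (PS Y 1 0 - Y) * (1 / (Nat.totient q : ℝ)) := by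
            field_simp
            ring
          rw [e2]
          refine (abs_add_le _ _).trans ?_
          rw [abs_mul, abs_of_nonneg (show 0 ≤ 1 / (Nat.totient q : ℝ) by positivity)]
        · apply add_nonneg
          · exact sum_nonneg fun _ _ => abs_nonneg _
          · positivity
      have h3 : |PS Y 1 0 - Y| ≤ X / ℓ ^ U1 := by
        have := hsw X c4 1 le_rfl (by simp) 0 Y hjX
        simpa [PS] using this
      rw [← mul_sum] at h2
      have h4 : (Y : ℝ) / Real.log Y ^ U1 ≤ X * ℓ / ℓ ^ U1 := by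
        have e1 : ℓ ^ U1 / 2 ^ U1 ≤ Real.log Y ^ U1 := by
          rw [← div_pow]
          exact pow_le_pow_left₀ (by positivity) hlY2 _
        calc (Y : ℝ) / Real.log Y ^ U1 ≤ X / (ℓ ^ U1 / 2 ^ U1) := by gcongr
          _ = X * 2 ^ U1 / ℓ ^ U1 := by rw [div_div_eq_mul_div]
          _ ≤ _ := by gcongr
      calc _ ≤ _ := h2
        _ ≤ X * ℓ / ℓ ^ U1 + X / ℓ ^ U1 * (4 * ℓ ^ 2) := by
            apply add_le_add (h1.trans h4)
            apply mul_le_mul h3 (hφsum.trans hφ4) (sum_nonneg fun _ _ => by positivity) (by positivity)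
        _ = X / ℓ ^ U1 * (ℓ + 4 * ℓ ^ 2) := by ring
        _ ≤ X / ℓ ^ U1 * (5 * ℓ ^ 2) := by
            apply mul_le_mul_of_nonneg_left _ (by positivity)
            nlinarith
        _ = _ := by ring
    have hmain : ∑ q ∈ Icc 1 Q, Er ((P q).2 / H0 * H0) q (P q).1 ≤ (3 * ℓ ^ V) * (5 * X * ℓ ^ 2 / ℓ ^ U1) := by
      have hmaps : ∀ q ∈ Icc 1 Q, (P q).2 / H0 ∈ range (J + 1) := by
        intro q hq
        rw [mem_Icc] at hq
        rw [mem_range, hJ]
        exact Nat.lt_succ_of_le (Nat.div_le_div_right (hPmem q hq.1).2.2)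
      rw [← sum_fiberwise_of_maps_to hmaps]
      refine (sum_le_sum hheight).trans ?_
      rw [sum_const, card_range, nsmul_eq_mul]
      apply mul_le_mul_of_nonneg_right _ (by positivity)
      push_cast
      exact hJle
    have hrest : ∑ q ∈ Icc 1 Q, (2 * (H0 : ℝ) * ℓ * (1 / (Nat.totient q : ℝ)) + ℓ) ≤
        2 * (X / ℓ ^ V) * ℓ * (4 * ℓ ^ 2) + X / ℓ ^ (U + 2) := by
      rw [sum_add_distrib, ← mul_sum, sum_const, Nat.card_Icc, nsmul_eq_mul, Nat.add_sub_cancel]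
      apply add_le_add
      · apply mul_le_mul _ (hφsum.trans hφ4) (sum_nonneg fun _ _ => by positivity) (by positivity)
        gcongr
      · rw [le_div_iff₀ (hp0 _)]
        calc (Q : ℝ) * ℓ * ℓ ^ (U + 2) = Q * ℓ ^ (U + 3) := by ring
          _ ≤ (Q : ℝ) ^ 2 * ℓ ^ (B1 + 2 * V + 4) := by
              apply mul_le_mul hQQ (hmono _ _ (by omega)) (hp0 _).le (by positivity)
          _ ≤ X := hQ
    have hfin : (3 * ℓ ^ V) * (5 * X * ℓ ^ 2 / ℓ ^ U1) + (2 * (X / ℓ ^ V) * ℓ * (4 * ℓ ^ 2) + X / ℓ ^ (U + 2)) ≤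
        X / ℓ ^ U := by
      have e1 : ℓ ^ U1 = ℓ ^ U * ℓ ^ V * ℓ ^ 5 := by rw [hU1]; ring
      have e2 : ℓ ^ V = ℓ ^ U * ℓ ^ 4 := by rw [hV]; ring
      have e3 : (3 * ℓ ^ V) * (5 * X * ℓ ^ 2 / ℓ ^ U1) = X / ℓ ^ U * (15 / ℓ ^ 3) := by
        rw [e1]
        field_simp
        norm_num
      have e4 : 2 * (X / ℓ ^ V) * ℓ * (4 * ℓ ^ 2) = X / ℓ ^ U * (8 / ℓ) := by
        rw [e2]
        field_simp
        norm_num
      have e5 : X / ℓ ^ (U + 2) = X / ℓ ^ U * (1 / ℓ ^ 2) := by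
        rw [pow_add]
        field_simp
      rw [e3, e4, e5, ← mul_add, ← mul_add]
      have h1 : 15 / ℓ ^ 3 ≤ 1 / 4 := by
        rw [div_le_div_iff₀ (hp0 3) (by norm_num)]
        have := le_self_pow₀ hℓ1 (show (3:ℕ) ≠ 0 by norm_num)
        linarith
      have h2 : 8 / ℓ ≤ 1 / 4 := by
        rw [div_le_div_iff₀ hℓ0 (by norm_num)]
        linarith
      have h3 : 1 / ℓ ^ 2 ≤ 1 / 4 := by
        rw [div_le_div_iff₀ (hp0 2) (by norm_num)]
        have := le_self_pow₀ hℓ1 (show (2:ℕ) ≠ 0 by norm_num)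
        linarith
      calc X / ℓ ^ U * (15 / ℓ ^ 3 + (8 / ℓ + 1 / ℓ ^ 2)) ≤ X / ℓ ^ U * 1 := by
            apply mul_le_mul_of_nonneg_left _ (by positivity)
            linarith
        _ = _ := mul_one _
    exact (add_le_add hmain hrest).trans hfin

end Pool.Agent.Y889.PN
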