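import Pool.Agent.Y889.PN.BVMax
import Pool.Agent.H398R2.BA1

/-!
Sums of the error terms over the moduli `2 m l`.
-/

set_option autoImplicit false

namespace Pool.Agent.Y889.PN

open Finset

lemma div_card_mul_le (a b : ℕ) : (a * b).divisors.card ≤ a.divisors.card * b.divisors.card := by
  rw [Nat.divisors_mul, ← card_product]
  exact card_image_le

/-- the moduli `2 m l` -/
theorem sum_M (U : ℕ) : ∃ B X0 : ℕ, ∀ X : ℕ, X0 ≤ X → ∀ N : ℕ, (N : ℝ) ^ 4 * Real.log X ^ B ≤ X →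
    ∃ M : ℕ → ℝ, (∀ q, 0 ≤ M q) ∧
      (∀ q, 1 ≤ q → ∀ a : ℕ, a.Coprime q → ∀ y : ℕ, y ≤ X → |PS y q a - y / (Nat.totient q : ℝ)| ≤ M q) ∧
      ∑ m ∈ Icc 1 N, ∑ l ∈ Icc 1 N, M (2 * m * l) ≤ X / Real.log X ^ U := by
  classical
  obtain ⟨W, hW⟩ : ∃ W, W = U + 11 := ⟨_, rfl⟩
  obtain ⟨B1, X1, hbv⟩ := bvmax (U + W + 1)
  obtain ⟨X2, hX2⟩ := Filter.eventually_atTop.1
    ((Real.tendsto_log_atTop.comp (tendsto_natCast_atTop_atTop (R := ℝ))).eventually
      (Filter.eventually_ge_atTop (1024 : ℝ)))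
  refine ⟨B1 + 1, max X1 (max X2 3), fun X hX N hN => ?_⟩
  have hl : (1024 : ℝ) ≤ Real.log X := hX2 X (le_trans (le_trans (le_max_left _ _) (le_max_right _ _)) hX)
  have hX3 : 3 ≤ X := le_trans (le_trans (le_max_right _ _) (le_max_right _ _)) hX
  set ℓ := Real.log X with hℓ
  have hℓ0 : 0 < ℓ := by linarith
  have hℓ1 : 1 ≤ ℓ := by linarith
  have hp0 : ∀ n : ℕ, 0 < ℓ ^ n := fun n => by positivity
  have hp1 : ∀ n : ℕ, 1 ≤ ℓ ^ n := fun n => one_le_pow₀ hℓ1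
  have hXpos : (0 : ℝ) < X := by
    have : (3 : ℝ) ≤ X := by exact_mod_cast hX3
    linarith
  have hQ : ((2 * N ^ 2 : ℕ) : ℝ) ^ 2 * ℓ ^ B1 ≤ X := by
    calc ((2 * N ^ 2 : ℕ) : ℝ) ^ 2 * ℓ ^ B1 = (N : ℝ) ^ 4 * (4 * ℓ ^ B1) := by push_cast; ring
      _ ≤ (N : ℝ) ^ 4 * (ℓ * ℓ ^ B1) := by
          apply mul_le_mul_of_nonneg_left _ (by positivity)
          apply mul_le_mul_of_nonneg_right _ (hp0 _).le
          linarith
      _ = (N : ℝ) ^ 4 * ℓ ^ (B1 + 1) := by ring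
      _ ≤ X := hN
  obtain ⟨M, hM0, hM1, hM2, hM3⟩ := hbv X ((le_max_left _ _).trans hX) (2 * N ^ 2) hQ
  refine ⟨M, hM0, hM1, ?_⟩
  have hNX : N ≤ X := by
    have h1 : (N : ℝ) ≤ X := by
      rcases Nat.eq_zero_or_pos N with h | h
      · rw [h]; simp
      · have h2 : (1 : ℝ) ≤ N := by exact_mod_cast h
        calc (N : ℝ) ≤ (N : ℝ) ^ 4 * 1 := by rw [mul_one]; exact le_self_pow₀ h2 (by norm_num)
          _ ≤ (N : ℝ) ^ 4 * ℓ ^ (B1 + 1) := mul_le_mul_of_nonneg_left (hp1 _) (by positivity)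
          _ ≤ X := hN
    exact_mod_cast h1
  have h2NX : 2 * N ^ 2 ≤ X := by
    have h1 : ((2 * N ^ 2 : ℕ) : ℝ) ≤ X := by
      rcases Nat.eq_zero_or_pos N with h | h
      · rw [h]; simp
      · have h2 : (1 : ℝ) ≤ ((2 * N ^ 2 : ℕ) : ℝ) := by
          have : 0 < 2 * N ^ 2 := by positivity
          exact_mod_cast this
        calc ((2 * N ^ 2 : ℕ) : ℝ) ≤ ((2 * N ^ 2 : ℕ) : ℝ) ^ 2 * 1 := by
              rw [mul_one]; exact le_self_pow₀ h2 (by norm_num)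
          _ ≤ ((2 * N ^ 2 : ℕ) : ℝ) ^ 2 * ℓ ^ B1 := mul_le_mul_of_nonneg_left (hp1 _) (by positivity)
          _ ≤ X := hQ
    exact_mod_cast h1
  set S := Icc 1 N ×ˢ Icc 1 N with hS
  have hSmem : ∀ p ∈ S, 1 ≤ p.1 ∧ p.1 ≤ N ∧ 1 ≤ p.2 ∧ p.2 ≤ N := by
    intro p hp
    rw [hS, mem_product, mem_Icc, mem_Icc] at hp
    exact ⟨hp.1.1, hp.1.2, hp.2.1, hp.2.2⟩
  have hmaps : ∀ p ∈ S.filter (fun p => ((p.1.divisors.card * p.2.divisors.card : ℕ) : ℝ) ≤ ℓ ^ W),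
      2 * p.1 * p.2 ∈ Icc 1 (2 * N ^ 2) := by
    intro p hp
    obtain ⟨h1, h2, h3, h4⟩ := hSmem p (mem_filter.1 hp).1
    rw [mem_Icc]
    constructor
    · have : 0 < 2 * p.1 * p.2 := by positivity
      omega
    · calc 2 * p.1 * p.2 ≤ 2 * N * N := Nat.mul_le_mul (Nat.mul_le_mul_left 2 h2) h4
        _ = 2 * N ^ 2 := by ring
  have hgood : ∑ p ∈ S.filter (fun p => ((p.1.divisors.card * p.2.divisors.card : ℕ) : ℝ) ≤ ℓ ^ W),
      M (2 * p.1 * p.2) ≤ ℓ ^ W * ∑ q ∈ Icc 1 (2 * N ^ 2), M q := by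
    rw [← sum_fiberwise_of_maps_to hmaps, mul_sum]
    apply sum_le_sum
    intro q _
    have e1 : ∑ p ∈ (S.filter (fun p => ((p.1.divisors.card * p.2.divisors.card : ℕ) : ℝ) ≤ ℓ ^ W)).filter
        (fun p => 2 * p.1 * p.2 = q), M (2 * p.1 * p.2) =
        ∑ p ∈ (S.filter (fun p => ((p.1.divisors.card * p.2.divisors.card : ℕ) : ℝ) ≤ ℓ ^ W)).filter
        (fun p => 2 * p.1 * p.2 = q), M q := by
      apply sum_congr rfl
      intro p hp
      rw [(mem_filter.1 hp).2]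
    rw [e1, sum_const, nsmul_eq_mul]
    apply mul_le_mul_of_nonneg_right _ (hM0 q)
    rcases ((S.filter (fun p => ((p.1.divisors.card * p.2.divisors.card : ℕ) : ℝ) ≤ ℓ ^ W)).filter
        (fun p => 2 * p.1 * p.2 = q)).eq_empty_or_nonempty with he | ⟨p0, hp0'⟩
    · rw [he]
      simp only [card_empty, Nat.cast_zero]
      exact (hp0 W).le
    · have h0 := mem_filter.1 hp0'
      have h00 := mem_filter.1 h0.1
      obtain ⟨g1, g2, g3, g4⟩ := hSmem p0 h00.1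
      have hc : ((S.filter (fun p => ((p.1.divisors.card * p.2.divisors.card : ℕ) : ℝ) ≤ ℓ ^ W)).filter
          (fun p => 2 * p.1 * p.2 = q)).card ≤ (p0.1 * p0.2).divisors.card := by
        apply card_le_card_of_injOn (fun p => p.1)
        · intro p hp
          have h5 := mem_filter.1 (mem_coe.1 hp)
          have h6 : p.1 * p.2 = p0.1 * p0.2 := by
            have h7 : 2 * p.1 * p.2 = 2 * p0.1 * p0.2 := by rw [h5.2, h0.2]
            have h8 : 2 * (p.1 * p.2) = 2 * (p0.1 * p0.2) := by linarith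
            omega
          refine mem_coe.2 (Nat.mem_divisors.2 ⟨⟨p.2, h6.symm⟩, ?_⟩)
          positivity
        · intro p hp p' hp' he
          have h5 := mem_filter.1 (mem_coe.1 hp)
          have h5' := mem_filter.1 (mem_coe.1 hp')
          obtain ⟨k1, k2, k3, k4⟩ := hSmem p (mem_filter.1 h5.1).1
          have he' : p.1 = p'.1 := he
          have h7 : 2 * p.1 * p.2 = 2 * p.1 * p'.2 := by
            rw [h5.2]
            rw [he', h5'.2]
          have h8 : p.2 = p'.2 := Nat.eq_of_mul_eq_mul_left (by positivity) h7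
          exact Prod.ext he' h8
      have h9 : (((p0.1 * p0.2).divisors.card : ℕ) : ℝ) ≤ ℓ ^ W :=
        le_trans (by exact_mod_cast div_card_mul_le p0.1 p0.2) h00.2
      exact le_trans (by exact_mod_cast hc) h9
  have hbad : ∑ p ∈ S.filter (fun p => ¬ ((p.1.divisors.card * p.2.divisors.card : ℕ) : ℝ) ≤ ℓ ^ W),
      M (2 * p.1 * p.2) ≤ 2 * X * ℓ / ℓ ^ W * ((1 + Real.log N) ^ 4) ^ 2 := by
    have h1 : ∀ p ∈ S.filter (fun p => ¬ ((p.1.divisors.card * p.2.divisors.card : ℕ) : ℝ) ≤ ℓ ^ W),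
        M (2 * p.1 * p.2) ≤ 2 * X * ℓ / ℓ ^ W *
          (((p.1.divisors.card : ℝ) ^ 2 / p.1) * ((p.2.divisors.card : ℝ) ^ 2 / p.2)) := by
      intro p hp
      have hp' := mem_filter.1 hp
      obtain ⟨g1, g2, g3, g4⟩ := hSmem p hp'.1
      have hpos : 0 < 2 * p.1 * p.2 := by positivity
      have hle : 2 * p.1 * p.2 ≤ X := by
        refine le_trans ?_ h2NX
        calc 2 * p.1 * p.2 ≤ 2 * N * N := Nat.mul_le_mul (Nat.mul_le_mul_left 2 g2) g4
          _ = 2 * N ^ 2 := by ring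
      have h2 := hM2 (2 * p.1 * p.2) hpos hle
      have h3 := Pool.Agent.W93.LV.inv_phi_le (2 * p.1 * p.2) hpos
      have h4 : ((2 * p.1 * p.2).divisors.card : ℝ) ≤ 2 * (p.1.divisors.card * p.2.divisors.card) := by
        have h5 := div_card_mul_le 2 (p.1 * p.2)
        have h6 := div_card_mul_le p.1 p.2
        have h7 : (Nat.divisors 2).card = 2 := by decide
        rw [h7] at h5
        have h8 : 2 * p.1 * p.2 = 2 * (p.1 * p.2) := by ring
        rw [h8]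
        have h9 : (2 * (p.1 * p.2)).divisors.card ≤ 2 * (p.1.divisors.card * p.2.divisors.card) :=
          h5.trans (Nat.mul_le_mul_left 2 h6)
        exact_mod_cast h9
      have hT : 1 ≤ ((p.1.divisors.card : ℝ) * p.2.divisors.card) / ℓ ^ W := by
        rw [le_div_iff₀ (hp0 W), one_mul]
        have := hp'.2
        push_cast at this
        exact (not_le.1 this).le
      have hp1r : (0 : ℝ) < p.1 := by exact_mod_cast g1
      have hp2r : (0 : ℝ) < p.2 := by exact_mod_cast g3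
      set t1 : ℝ := (p.1.divisors.card : ℝ) with ht1
      set t2 : ℝ := (p.2.divisors.card : ℝ) with ht2
      have ht1' : 0 ≤ t1 := Nat.cast_nonneg _
      have ht2' : 0 ≤ t2 := Nat.cast_nonneg _
      calc M (2 * p.1 * p.2) ≤ 2 * X * ℓ * (1 / (Nat.totient (2 * p.1 * p.2) : ℝ)) := by
            rw [mul_one_div]; exact h2
        _ ≤ 2 * X * ℓ * (((2 * p.1 * p.2).divisors.card : ℝ) / ((2 * p.1 * p.2 : ℕ) : ℝ)) := by gcongr
        _ ≤ 2 * X * ℓ * ((2 * (t1 * t2)) / ((2 * p.1 * p.2 : ℕ) : ℝ)) := by gcongr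
        _ = 2 * X * ℓ * ((t1 * t2) / (p.1 * p.2)) * 1 := by
            push_cast
            field_simp
        _ ≤ 2 * X * ℓ * ((t1 * t2) / (p.1 * p.2)) * ((t1 * t2) / ℓ ^ W) := by
            apply mul_le_mul_of_nonneg_left hT (by positivity)
        _ = _ := by
            field_simp
    refine (sum_le_sum h1).trans ?_
    rw [← mul_sum]
    apply mul_le_mul_of_nonneg_left _ (by positivity)
    have h2 : ∑ p ∈ S.filter (fun p => ¬ ((p.1.divisors.card * p.2.divisors.card : ℕ) : ℝ) ≤ ℓ ^ W),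
        (((p.1.divisors.card : ℝ) ^ 2 / p.1) * ((p.2.divisors.card : ℝ) ^ 2 / p.2)) ≤
        ∑ p ∈ S, (((p.1.divisors.card : ℝ) ^ 2 / p.1) * ((p.2.divisors.card : ℝ) ^ 2 / p.2)) :=
      sum_le_sum_of_subset_of_nonneg (filter_subset _ _) (fun _ _ _ => by positivity)
    refine h2.trans ?_
    rw [hS, sum_product]
    have h3 : ∑ x ∈ Icc 1 N, ∑ y ∈ Icc 1 N, (((x.divisors.card : ℝ) ^ 2 / x) * ((y.divisors.card : ℝ) ^ 2 / y)) =
        (∑ x ∈ Icc 1 N, (x.divisors.card : ℝ) ^ 2 / x) ^ 2 := by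
      rw [sq, sum_mul_sum]
    rw [h3]
    apply pow_le_pow_left₀ (sum_nonneg fun _ _ => by positivity)
    have h4 := Pool.Agent.H398R2.BV.sum_card_pow_div 2 N
    norm_num at h4
    exact h4
  have hlogN : 1 + Real.log N ≤ 2 * ℓ := by
    have h1 : Real.log N ≤ ℓ := by
      rcases Nat.eq_zero_or_pos N with h | h
      · rw [h]; simp; exact hℓ0.le
      · exact Real.log_le_log (by exact_mod_cast h) (by exact_mod_cast hNX)
    linarith
  have hlogN0 : 0 ≤ 1 + Real.log N := by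
    have := Real.log_natCast_nonneg N
    linarith
  have hsplit : ∑ m ∈ Icc 1 N, ∑ l ∈ Icc 1 N, M (2 * m * l) =
      ∑ p ∈ S.filter (fun p => ((p.1.divisors.card * p.2.divisors.card : ℕ) : ℝ) ≤ ℓ ^ W), M (2 * p.1 * p.2) +
      ∑ p ∈ S.filter (fun p => ¬ ((p.1.divisors.card * p.2.divisors.card : ℕ) : ℝ) ≤ ℓ ^ W), M (2 * p.1 * p.2) := by
    rw [sum_filter_add_sum_filter_not, hS, sum_product]
  rw [hsplit]
  have hA : ℓ ^ W * ∑ q ∈ Icc 1 (2 * N ^ 2), M q ≤ X / ℓ ^ U * (1 / ℓ) := by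
    calc ℓ ^ W * ∑ q ∈ Icc 1 (2 * N ^ 2), M q ≤ ℓ ^ W * (X / ℓ ^ (U + W + 1)) :=
          mul_le_mul_of_nonneg_left hM3 (hp0 W).le
      _ = X / ℓ ^ U * (1 / ℓ) := by
          rw [pow_add, pow_add, pow_one]
          field_simp
  have hB : 2 * X * ℓ / ℓ ^ W * ((1 + Real.log N) ^ 4) ^ 2 ≤ X / ℓ ^ U * (512 / ℓ ^ 2) := by
    calc 2 * X * ℓ / ℓ ^ W * ((1 + Real.log N) ^ 4) ^ 2 ≤ 2 * X * ℓ / ℓ ^ W * ((2 * ℓ) ^ 4) ^ 2 := by gcongr
      _ = X / ℓ ^ U * (512 / ℓ ^ 2) := by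
          have e : ℓ ^ W = ℓ ^ U * ℓ ^ 11 := by rw [hW]; ring
          rw [e]
          field_simp
          ring
  have h1 : 1 / ℓ ≤ 1 / 2 := by
    rw [div_le_div_iff₀ hℓ0 (by norm_num)]; linarith
  have h2 : 512 / ℓ ^ 2 ≤ 1 / 2 := by
    rw [div_le_div_iff₀ (hp0 2) (by norm_num)]
    nlinarith
  have h3 : 0 ≤ X / ℓ ^ U := by positivity
  calc _ ≤ X / ℓ ^ U * (1 / ℓ) + X / ℓ ^ U * (512 / ℓ ^ 2) := add_le_add (hgood.trans hA) (hbad.trans hB)
    _ = X / ℓ ^ U * (1 / ℓ + 512 / ℓ ^ 2) := by ring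
    _ ≤ X / ℓ ^ U * 1 := mul_le_mul_of_nonneg_left (by linarith) h3
    _ = _ := mul_one _

end Pool.Agent.Y889.PN
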