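import Mathlib

/-!
The estimates of the error terms.
-/

set_option autoImplicit false

namespace Pool.Agent.Y889.PN

section
variable (A D N R W L ε E T X : ℝ) (K : ℕ) (hA : 0 < A) (hD : 0 < D) (hN : 1 ≤ N) (hR : 0 < R) (hW : 0 < W)
  (hL1 : 1 ≤ L) (hε : 0 < ε) (hE0 : 0 ≤ E) (hT0 : 0 ≤ T) (hER : E ≤ 40 * W ^ 2 * A / L ^ (K + 3) * R ^ 2)
  (hT : T ≤ 3 * D * L ^ (K + 1)) (s1 : 57344 * W ^ 2 ≤ ε * L) (s2 : 57344 * L ^ (3 * K + 3) ≤ ε * A)
  (s3 : 57344 * L ^ (3 * K + 3) ≤ ε ^ 2 * A) (hAN : A * N ≤ D * L ^ K) (hRN : R ≤ N)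
  (hX0 : 0 ≤ X) (hX : X ≤ 10 * A * N ^ 2 * L ^ K)

include hA hD hR hL1 hε hE0 hT0 hER hT s1 in
lemma term2 : 4 * (2 * (T * (4 * E))) / R ^ 2 ≤ ε / 8 * (A * D) := by
  have hL0 : 0 < L := by linarith
  rw [div_le_iff₀ (by positivity)]
  have h1 : T * (4 * E) ≤ (3 * D * L ^ (K + 1)) * (4 * (40 * W ^ 2 * A / L ^ (K + 3) * R ^ 2)) :=
    mul_le_mul hT (by linarith) (by linarith) (by positivity)
  have e : (3 * D * L ^ (K + 1)) * (4 * (40 * W ^ 2 * A / L ^ (K + 3) * R ^ 2)) =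
      480 * W ^ 2 * (A * D * R ^ 2) / L ^ 2 := by
    have : L ^ (K + 3) = L ^ (K + 1) * L ^ 2 := by ring
    rw [this]
    field_simp
    ring
  have h2 : 480 * W ^ 2 * (A * D * R ^ 2) / L ^ 2 ≤ ε / 64 * (A * D * R ^ 2) := by
    rw [div_le_iff₀ (by positivity)]
    have h3 : 480 * W ^ 2 ≤ ε / 64 * L ^ 2 := by
      have h4 : ε / 64 * L ≤ ε / 64 * L ^ 2 := by
        apply mul_le_mul_of_nonneg_left _ (by positivity)
        nlinarith
      nlinarith [sq_nonneg W]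
    have h5 : 0 ≤ A * D * R ^ 2 := by positivity
    have := mul_le_mul_of_nonneg_right h3 h5
    linarith
  rw [e] at h1
  linarith

include hD hR hL1 hT s2 in
lemma term3 : 4 * (2 * (T * (2 * R ^ 2 * L))) / R ^ 2 ≤ ε / 8 * (A * D) := by
  have hL0 : 0 < L := by linarith
  rw [div_le_iff₀ (by positivity)]
  have h1 : T * (2 * R ^ 2 * L) ≤ (3 * D * L ^ (K + 1)) * (2 * R ^ 2 * L) :=
    mul_le_mul_of_nonneg_right hT (by positivity)
  have e : (3 * D * L ^ (K + 1)) * (2 * R ^ 2 * L) = 6 * L ^ (K + 2) * (D * R ^ 2) := by ring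
  have h3 : L ^ (K + 2) ≤ L ^ (3 * K + 3) := pow_le_pow_right₀ hL1 (by omega)
  have h4 : 0 < L ^ (K + 2) := by positivity
  have h5 : 48 * L ^ (K + 2) ≤ ε / 8 * A := by linarith
  have h6 := mul_le_mul_of_nonneg_right h5 (show 0 ≤ D * R ^ 2 by positivity)
  rw [e] at h1
  linarith

include hA hD hR in
lemma term4 (h : 32 * L ≤ ε * R) : 4 * (L * (A * D * R)) / R ^ 2 ≤ ε / 8 * (A * D) := by
  rw [div_le_iff₀ (by positivity)]
  have h1 : 4 * L ≤ ε / 8 * R := by linarith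
  have h2 := mul_le_mul_of_nonneg_right h1 (show 0 ≤ A * D * R by positivity)
  linarith

include hA hD hN hR hL1 hε hER s1 hAN in
lemma term5 : 4 * (L * (2 * A * E)) / R ^ 2 ≤ ε / 8 * (A * D) := by
  have hL0 : 0 < L := by linarith
  rw [div_le_iff₀ (by positivity)]
  have h1 : L * (2 * A * E) ≤ L * (2 * A * (40 * W ^ 2 * A / L ^ (K + 3) * R ^ 2)) := by gcongr
  have e : L * (2 * A * (40 * W ^ 2 * A / L ^ (K + 3) * R ^ 2)) = 80 * W ^ 2 * (A * R ^ 2) / L ^ (K + 2) * A := by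
    have : L ^ (K + 3) = L ^ (K + 2) * L := by ring
    rw [this]
    field_simp
    ring
  have hA2 : A ≤ D * L ^ K := le_trans (by nlinarith) hAN
  have h2 : 80 * W ^ 2 * (A * R ^ 2) / L ^ (K + 2) * A ≤ 80 * W ^ 2 * (A * R ^ 2) / L ^ (K + 2) * (D * L ^ K) :=
    mul_le_mul_of_nonneg_left hA2 (by positivity)
  have e2 : 80 * W ^ 2 * (A * R ^ 2) / L ^ (K + 2) * (D * L ^ K) = 80 * W ^ 2 * (A * D * R ^ 2) / L ^ 2 := by
    have : L ^ (K + 2) = L ^ K * L ^ 2 := by ring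
    rw [this]
    field_simp
  have h3 : 80 * W ^ 2 * (A * D * R ^ 2) / L ^ 2 ≤ ε / 64 * (A * D * R ^ 2) := by
    rw [div_le_iff₀ (by positivity)]
    have h3 : 80 * W ^ 2 ≤ ε / 64 * L ^ 2 := by
      have h4 : ε / 64 * L ≤ ε / 64 * L ^ 2 := by
        apply mul_le_mul_of_nonneg_left _ (by positivity)
        nlinarith
      nlinarith [sq_nonneg W]
    have h5 : 0 ≤ A * D * R ^ 2 := by positivity
    have := mul_le_mul_of_nonneg_right h3 h5
    linarith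
  rw [e] at h1
  rw [e2] at h2
  have h6 : 0 ≤ ε / 64 * (A * D * R ^ 2) := by positivity
  linarith

include hA hD hR hL1 hε hER s1 hAN hRN in
lemma term6 : 4 * (4 * A * R * E) / R ^ 2 ≤ ε / 8 * (A * D) := by
  have hL0 : 0 < L := by linarith
  rw [div_le_iff₀ (by positivity)]
  have h1 : 4 * A * R * E ≤ 4 * A * R * (40 * W ^ 2 * A / L ^ (K + 3) * R ^ 2) := by gcongr
  have e : 4 * A * R * (40 * W ^ 2 * A / L ^ (K + 3) * R ^ 2) = 160 * W ^ 2 * (A * R ^ 2) / L ^ (K + 3) * (A * R) := by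
    ring
  have hA2 : A * R ≤ D * L ^ K := le_trans (mul_le_mul_of_nonneg_left hRN hA.le) hAN
  have h2 : 160 * W ^ 2 * (A * R ^ 2) / L ^ (K + 3) * (A * R) ≤
      160 * W ^ 2 * (A * R ^ 2) / L ^ (K + 3) * (D * L ^ K) :=
    mul_le_mul_of_nonneg_left hA2 (by positivity)
  have e2 : 160 * W ^ 2 * (A * R ^ 2) / L ^ (K + 3) * (D * L ^ K) = 160 * W ^ 2 * (A * D * R ^ 2) / L ^ 3 := by
    have : L ^ (K + 3) = L ^ K * L ^ 3 := by ring
    rw [this]
    field_simp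
  have h3 : 160 * W ^ 2 * (A * D * R ^ 2) / L ^ 3 ≤ ε / 64 * (A * D * R ^ 2) := by
    rw [div_le_iff₀ (by positivity)]
    have h3 : 160 * W ^ 2 ≤ ε / 64 * L ^ 3 := by
      have h4 : ε / 64 * L ≤ ε / 64 * L ^ 3 := by
        apply mul_le_mul_of_nonneg_left _ (by positivity)
        exact le_self_pow₀ hL1 (by norm_num)
      nlinarith [sq_nonneg W]
    have h5 : 0 ≤ A * D * R ^ 2 := by positivity
    have := mul_le_mul_of_nonneg_right h3 h5
    linarith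
  rw [e] at h1
  rw [e2] at h2
  have h6 : 0 ≤ ε / 64 * (A * D * R ^ 2) := by positivity
  linarith

include hA hD hN hL1 hε s3 hAN hX in
lemma term7 : 8 * A * √X * L ≤ ε / 8 * (A * D) := by
  have hL0 : 0 < L := by linarith
  have h1 : √X ≤ ε * D / (64 * L) := by
    apply Real.sqrt_le_iff.2
    refine ⟨by positivity, ?_⟩
    rw [div_pow, le_div_iff₀ (by positivity)]
    have h2 : A ^ 2 * N ^ 2 ≤ D ^ 2 * L ^ (2 * K) := by
      calc A ^ 2 * N ^ 2 = (A * N) ^ 2 := by ring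
        _ ≤ (D * L ^ K) ^ 2 := pow_le_pow_left₀ (by positivity) hAN _
        _ = _ := by ring
    have h3 : X * (64 * L) ^ 2 * (A * L ^ (2 * K)) ≤ (ε * D) ^ 2 * (A * L ^ (2 * K)) := by
      calc X * (64 * L) ^ 2 * (A * L ^ (2 * K)) ≤ (10 * A * N ^ 2 * L ^ K) * (64 * L) ^ 2 * (A * L ^ (2 * K)) := by
            gcongr
        _ = 40960 * L ^ (3 * K + 2) * (A ^ 2 * N ^ 2) := by ring
        _ ≤ 40960 * L ^ (3 * K + 2) * (D ^ 2 * L ^ (2 * K)) := by gcongr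
        _ ≤ (ε ^ 2 * A) * (D ^ 2 * L ^ (2 * K)) := by
            apply mul_le_mul_of_nonneg_right _ (by positivity)
            have h4 : L ^ (3 * K + 2) ≤ L ^ (3 * K + 3) := pow_le_pow_right₀ hL1 (by omega)
            have h5 : 0 < L ^ (3 * K + 2) := by positivity
            linarith
        _ = _ := by ring
    exact le_of_mul_le_mul_right h3 (by positivity)
  calc 8 * A * √X * L ≤ 8 * A * (ε * D / (64 * L)) * L := by gcongr
    _ = ε / 8 * (A * D) := by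
        field_simp
        norm_num

end

end Pool.Agent.Y889.PN
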