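import Pool.Agent.Y889.PN.Main
import Pool.Agent.Y889.PN.Terms

/-!
The choice of the parameters.
-/

set_option autoImplicit false

namespace Pool.Agent.Y889.PN

open Finset

lemma exists_w (ε : ℝ) (hε : 0 < ε) : ∃ w : ℕ, 1 ≤ w ∧ 4 * (Real.exp (1 / w) - 1) ≤ ε := by
  have h1 : Filter.Tendsto (fun w : ℕ => 4 * (Real.exp (1 / (w : ℝ)) - 1)) Filter.atTop (nhds (4 * (Real.exp 0 - 1))) := by
    apply Filter.Tendsto.const_mul
    apply Filter.Tendsto.sub_const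
    exact (Real.continuous_exp.tendsto 0).comp tendsto_one_div_atTop_nhds_zero_nat
  rw [Real.exp_zero, sub_self, mul_zero] at h1
  obtain ⟨w, hw1, hw2⟩ := ((h1.eventually (gt_mem_nhds hε)).and (Filter.eventually_ge_atTop 1)).exists
  exact ⟨w, hw2, hw1.le⟩

/-- **The engine.** -/
theorem engine (K : ℕ) : ∃ B : ℕ, ∀ ε : ℝ, 0 < ε → ∃ C δ : ℝ, 0 < δ ∧ ∃ A₀ : ℕ, ∀ A : ℕ, A₀ ≤ A →
    ∀ N : ℕ, C * Real.log A ≤ N → (N : ℝ) ^ 2 * Real.log A ^ B ≤ A →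
    ∀ D : ℕ, (A : ℝ) * N ≤ D * Real.log A ^ K → (D : ℝ) ≤ A * N * Real.log A ^ K →
    ∀ k : ℕ → ℕ, (∀ n, 2 ≤ n → n ≤ N → (k n).Coprime (2 * n) ∧ (k n : ℝ) ≤ A * N ^ 2 * Real.log A ^ K) →
      (((Icc 1 A ×ˢ Icc 1 D).filter (fun p => (cntP k N p.1 p.2 : ℝ) < δ * (N / Real.log A))).card : ℝ) ≤
        ε * (A * D) := by
  obtain ⟨B1, X0, hsum⟩ := sum_M (2 * K + 3)
  refine ⟨B1 + 1, fun ε hε => ?_⟩
  obtain ⟨w, hw, hwε⟩ := exists_w (ε / 8) (by positivity)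
  obtain ⟨W, hW⟩ : ∃ W, W = (w + 2).factorial := ⟨_, rfl⟩
  have hW2 : 2 ≤ W := by
    rw [hW]
    exact le_trans (by omega) (Nat.self_le_factorial _)
  have hWp : ∀ p, p.Prime → p ≤ w → p ∣ W := by
    intro p hp hpw
    rw [hW]
    exact (Nat.Prime.dvd_factorial hp).2 (by omega)
  have hW0 : (0 : ℝ) < W := by exact_mod_cast (by omega : 0 < W)
  have hW1' : (1 : ℝ) ≤ W := by exact_mod_cast (by omega : 1 ≤ W)
  obtain ⟨c0, hc0⟩ : ∃ c0 : ℝ, c0 = 3 ^ (3 * K + 3) * (57344 * (1 + 1 / ε + 1 / ε ^ 2)) * W ^ 2 * 3 ^ B1 * 100 :=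
    ⟨_, rfl⟩
  have hc0pos : 0 < c0 := by rw [hc0]; positivity
  have hev : ∀ᶠ A : ℕ in Filter.atTop, c0 ≤ Real.log A ∧ (Real.log A) ^ (3 * K + 4) ≤ A ∧ 3 ≤ A ∧ X0 ≤ A := by
    have h1 := (Real.tendsto_log_atTop.comp (tendsto_natCast_atTop_atTop (R := ℝ))).eventually
      (Filter.eventually_ge_atTop c0)
    have h3 := (tendsto_natCast_atTop_atTop (R := ℝ)).eventually
      ((isLittleO_log_rpow_rpow_atTop (3 * K + 4 : ℝ) (show (0:ℝ) < 1 by norm_num)).bound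
        (show (0:ℝ) < 1 by norm_num))
    filter_upwards [h1, h3, Filter.eventually_ge_atTop 3, Filter.eventually_ge_atTop X0]
      with X g1 g3 g5 g6
    have hX3 : (3 : ℝ) ≤ X := by exact_mod_cast g5
    have hlog : 0 ≤ Real.log X := Real.log_nonneg (by linarith)
    refine ⟨g1, ?_, g5, g6⟩
    rw [Real.norm_of_nonneg (Real.rpow_nonneg hlog _), Real.norm_of_nonneg (Real.rpow_nonneg (by linarith) _),
      Real.rpow_one, one_mul] at g3
    have e : (3 * (K : ℝ) + 4) = ((3 * K + 4 : ℕ) : ℝ) := by push_cast; ring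
    rwa [e, Real.rpow_natCast] at g3
  obtain ⟨A₀, hA₀⟩ := Filter.eventually_atTop.1 hev
  refine ⟨192 * W / ε + W, 1 / (24 * W), by positivity, A₀, fun A hA N hN1 hN2 D hD1 hD2 k hk => ?_⟩
  obtain ⟨a1, a2, a3, a4⟩ := hA₀ A hA
  set ℓ := Real.log A with hℓ
  -- the constants
  have hone : ∀ n : ℕ, (1 : ℝ) ≤ 3 ^ n := fun n => one_le_pow₀ (by norm_num)
  have hεinv : 0 < 1 / ε := by positivity
  have hεinv2 : 0 < 1 / ε ^ 2 := by positivity
  have hW2sq : (1 : ℝ) ≤ (W : ℝ) ^ 2 := one_le_pow₀ hW1'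
  obtain ⟨P1, hP1⟩ : ∃ P1 : ℝ, P1 = 3 ^ (3 * K + 3) := ⟨_, rfl⟩
  obtain ⟨P2, hP2⟩ : ∃ P2 : ℝ, P2 = 57344 * (1 + 1 / ε + 1 / ε ^ 2) := ⟨_, rfl⟩
  obtain ⟨P3, hP3⟩ : ∃ P3 : ℝ, P3 = (W : ℝ) ^ 2 := ⟨_, rfl⟩
  obtain ⟨P4, hP4⟩ : ∃ P4 : ℝ, P4 = (3 : ℝ) ^ B1 := ⟨_, rfl⟩
  have q1 : 1 ≤ P1 := by rw [hP1]; exact hone _
  have q2 : 1 ≤ P2 := by rw [hP2]; linarith
  have q3 : 1 ≤ P3 := by rw [hP3]; exact hW2sq
  have q4 : 1 ≤ P4 := by rw [hP4]; exact hone _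
  have hc0' : c0 = P1 * P2 * P3 * P4 * 100 := by rw [hc0, hP1, hP2, hP3, hP4]
  have hprod : P1 * P2 * P3 * P4 * 100 ≤ ℓ := by rw [← hc0']; exact a1
  have r1 : P4 ≤ ℓ := by
    refine le_trans ?_ hprod
    have h1 : 1 ≤ P1 * P2 * P3 := one_le_mul_of_one_le_of_one_le (one_le_mul_of_one_le_of_one_le q1 q2) q3
    calc P4 = 1 * P4 * 1 := by ring
      _ ≤ (P1 * P2 * P3) * P4 * 100 := by gcongr; norm_num
  have r2 : P1 * P2 ≤ ℓ := by
    refine le_trans ?_ hprod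
    have h1 : 1 ≤ P3 * P4 := one_le_mul_of_one_le_of_one_le q3 q4
    have h2 : 1 ≤ P1 * P2 := one_le_mul_of_one_le_of_one_le q1 q2
    calc P1 * P2 = (P1 * P2) * 1 * 1 := by ring
      _ ≤ (P1 * P2) * (P3 * P4) * 100 := by gcongr; norm_num
      _ = _ := by ring
  have r3 : P2 * P3 ≤ ℓ := by
    refine le_trans ?_ hprod
    have h1 : 1 ≤ P1 * P4 := one_le_mul_of_one_le_of_one_le q1 q4
    have h2 : 1 ≤ P2 * P3 := one_le_mul_of_one_le_of_one_le q2 q3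
    calc P2 * P3 = (P2 * P3) * 1 * 1 := by ring
      _ ≤ (P2 * P3) * (P1 * P4) * 100 := by gcongr; norm_num
      _ = _ := by ring
  have r4 : 100 ≤ ℓ := by
    refine le_trans ?_ hprod
    have h2 : 1 ≤ P1 * P2 * P3 * P4 := one_le_mul_of_one_le_of_one_le
      (one_le_mul_of_one_le_of_one_le (one_le_mul_of_one_le_of_one_le q1 q2) q3) q4
    linarith
  have hℓ1 : 1 ≤ ℓ := by linarith
  have hℓ0 : 0 < ℓ := by linarith
  have hA0 : (0 : ℝ) < A := by exact_mod_cast (by omega : 0 < A)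
  have hA1 : (1 : ℝ) ≤ A := by exact_mod_cast (by omega : 1 ≤ A)
  -- the size of `N`
  have hNW : (W : ℝ) ≤ N := by
    refine le_trans ?_ hN1
    have h1 : 0 < 192 * (W : ℝ) / ε := by positivity
    have h2 : 192 * (W : ℝ) / ε + W ≤ (192 * (W : ℝ) / ε + W) * ℓ := le_mul_of_one_le_right (by positivity) hℓ1
    linarith
  have hNWn : W ≤ N := by exact_mod_cast hNW
  have hN0 : (0 : ℝ) < N := by linarith
  have hN1' : (1 : ℝ) ≤ N := by linarith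
  have hNn : 1 ≤ N := by omega
  have hNC : 192 * W * ℓ ≤ ε * N := by
    have h1 : 192 * (W : ℝ) / ε * ℓ ≤ N := by
      refine le_trans ?_ hN1
      apply mul_le_mul_of_nonneg_right _ hℓ0.le
      linarith
    have h2 : 192 * (W : ℝ) / ε * ℓ = 192 * W * ℓ / ε := by ring
    rw [h2, div_le_iff₀ hε] at h1
    linarith
  have hN2A : (N : ℝ) ^ 2 ≤ A := by
    refine le_trans ?_ hN2
    exact le_mul_of_one_le_right (sq_nonneg _) (one_le_pow₀ hℓ1)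
  obtain ⟨R, hR⟩ : ∃ R, R = N / W := ⟨_, rfl⟩
  have hWR : W * R ≤ N := by rw [hR]; exact Nat.mul_div_le N W
  have hR1 : 1 ≤ R := by
    rw [hR]
    exact (Nat.one_le_div_iff (by omega)).2 hNWn
  have hR0 : (0 : ℝ) < R := by exact_mod_cast hR1
  have hRN : (N : ℝ) ≤ 2 * W * R := by
    have h1 : N < W * (R + 1) := by
      rw [hR]
      exact Nat.lt_mul_div_succ N (by omega)
    have h2 : N ≤ 2 * W * R := by
      have h3 : W * (R + 1) ≤ W * (R + R) := Nat.mul_le_mul_left W (by omega)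
      have h4 : W * (R + R) = 2 * W * R := by ring
      omega
    exact_mod_cast h2
  have hRN' : (R : ℝ) ≤ N := by
    have : R ≤ N := le_trans (Nat.le_mul_of_pos_left R (by omega)) hWR
    exact_mod_cast this
  -- the height
  obtain ⟨P0, hP0⟩ : ∃ P0 : ℕ, P0 = ⌈ℓ ^ K⌉₊ := ⟨_, rfl⟩
  have hP0a : ℓ ^ K ≤ P0 := by rw [hP0]; exact Nat.le_ceil _
  have hℓK : 1 ≤ ℓ ^ K := one_le_pow₀ hℓ1
  have hP0b : (P0 : ℝ) ≤ 2 * ℓ ^ K := by
    rw [hP0]
    have := Nat.ceil_lt_add_one (show 0 ≤ ℓ ^ K by positivity)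
    linarith
  have hP01 : 1 ≤ P0 := by
    have : (1 : ℝ) ≤ P0 := by linarith
    exact_mod_cast this
  obtain ⟨X, hXdef⟩ : ∃ X : ℕ, X = 5 * (A * N ^ 2 * P0) := ⟨_, rfl⟩
  have hXr : (X : ℝ) = 5 * (A * N ^ 2 * P0) := by rw [hXdef]; push_cast; ring
  have hAX : (A : ℝ) ≤ X := by
    rw [hXr]
    have h1 : (1 : ℝ) ≤ (N : ℝ) ^ 2 := one_le_pow₀ hN1'
    have h2 : (1 : ℝ) ≤ P0 := by exact_mod_cast hP01
    have h3 : 1 ≤ 5 * ((N : ℝ) ^ 2 * P0) := by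
      have := one_le_mul_of_one_le_of_one_le h1 h2
      linarith
    calc (A : ℝ) ≤ A * (5 * ((N : ℝ) ^ 2 * P0)) := le_mul_of_one_le_right hA0.le h3
      _ = _ := by ring
  have hAX' : A ≤ X := by exact_mod_cast hAX
  have hX1 : 1 ≤ X := by omega
  have hX0 : (0 : ℝ) < X := by linarith
  have hXle : (X : ℝ) ≤ 10 * A * N ^ 2 * ℓ ^ K := by
    rw [hXr]
    calc 5 * ((A : ℝ) * N ^ 2 * P0) ≤ 5 * ((A : ℝ) * N ^ 2 * (2 * ℓ ^ K)) := by gcongr
      _ = _ := by ring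
  obtain ⟨L, hL⟩ : ∃ L, L = Real.log X := ⟨_, rfl⟩
  have hℓL : ℓ ≤ L := by rw [hL]; exact Real.log_le_log hA0 hAX
  have hL1 : 1 ≤ L := by linarith
  have hL0 : 0 < L := by linarith
  have hXA3 : (X : ℝ) ≤ (A : ℝ) ^ 3 := by
    have h1 : 10 * ℓ ^ K ≤ A := by
      calc 10 * ℓ ^ K ≤ ℓ * ℓ ^ K := by
            apply mul_le_mul_of_nonneg_right _ (by positivity)
            linarith
        _ = ℓ ^ (K + 1) := by ring
        _ ≤ ℓ ^ (3 * K + 4) := pow_le_pow_right₀ hℓ1 (by omega)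
        _ ≤ A := a2
    calc (X : ℝ) ≤ 10 * A * N ^ 2 * ℓ ^ K := hXle
      _ = A * N ^ 2 * (10 * ℓ ^ K) := by ring
      _ ≤ A * A * A := by gcongr
      _ = _ := by ring
  have hL3 : L ≤ 3 * ℓ := by
    have h1 := Real.log_le_log hX0 hXA3
    rw [Real.log_pow] at h1
    rw [hL]
    push_cast at h1
    exact h1
  -- the errors
  have hBV : (N : ℝ) ^ 4 * Real.log X ^ B1 ≤ X := by
    rw [← hL]
    calc (N : ℝ) ^ 4 * L ^ B1 ≤ (N : ℝ) ^ 4 * (3 * ℓ) ^ B1 := by gcongr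
      _ = (N : ℝ) ^ 4 * (3 ^ B1 * ℓ ^ B1) := by rw [mul_pow]
      _ ≤ (N : ℝ) ^ 4 * (ℓ * ℓ ^ B1) := by
          rw [← hP4]
          gcongr
      _ = (N : ℝ) ^ 2 * ((N : ℝ) ^ 2 * ℓ ^ (B1 + 1)) := by ring
      _ ≤ (N : ℝ) ^ 2 * A := mul_le_mul_of_nonneg_left hN2 (by positivity)
      _ ≤ X := by
          rw [hXr]
          have h2 : (1 : ℝ) ≤ P0 := by exact_mod_cast hP01
          calc (N : ℝ) ^ 2 * A = 1 * ((A : ℝ) * N ^ 2 * 1) := by ring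
            _ ≤ 5 * ((A : ℝ) * N ^ 2 * P0) := by gcongr; norm_num
  obtain ⟨M, hM0, hM1, hM2⟩ := hsum X (by omega) N hBV
  obtain ⟨E, hE⟩ : ∃ E, E = ∑ m ∈ Icc 1 N, ∑ l ∈ Icc 1 N, M (2 * m * l) := ⟨_, rfl⟩
  rw [← hE, ← hL] at hM2
  have hE0 : 0 ≤ E := by rw [hE]; exact sum_nonneg fun _ _ => sum_nonneg fun _ _ => hM0 _
  have hk' : ∀ n, 1 ≤ n → n ≤ R → (k (W * n)).Coprime (2 * (W * n)) := by
    intro n h1 h2
    exact (hk (W * n) (le_trans hW2 (Nat.le_mul_of_pos_right W (by omega)))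
      ((Nat.mul_le_mul_left W h2).trans hWR)).1
  have hD2n : D ≤ A * N * P0 := by
    have h1 : (D : ℝ) ≤ ((A * N * P0 : ℕ) : ℝ) := by
      push_cast
      exact hD2.trans (mul_le_mul_of_nonneg_left hP0a (by positivity))
    exact_mod_cast h1
  have hX' : ∀ n, 1 ≤ n → n ≤ R → k (W * n) + 2 * (W * n) * (A * (W * n) + D) ≤ X := by
    intro n h1 h2
    have h3 : W * n ≤ N := (Nat.mul_le_mul_left W h2).trans hWR
    have h4 := (hk (W * n) (le_trans hW2 (Nat.le_mul_of_pos_right W (by omega))) h3).2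
    have h5 : k (W * n) ≤ A * N ^ 2 * P0 := by
      have h6 : (k (W * n) : ℝ) ≤ ((A * N ^ 2 * P0 : ℕ) : ℝ) := by
        push_cast
        exact h4.trans (mul_le_mul_of_nonneg_left hP0a (by positivity))
      exact_mod_cast h6
    have h6 : 2 * (W * n) * (A * (W * n) + D) ≤ 2 * N * (A * N + A * N * P0) :=
      Nat.mul_le_mul (Nat.mul_le_mul_left 2 h3) (Nat.add_le_add (Nat.mul_le_mul_left A h3) hD2n)
    have h7 : A * N ≤ A * N * P0 := Nat.le_mul_of_pos_right _ hP01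
    have h8 : 2 * N * (A * N + A * N * P0) ≤ 2 * N * (A * N * P0 + A * N * P0) :=
      Nat.mul_le_mul_left _ (Nat.add_le_add_right h7 _)
    have h9 : 2 * N * (A * N * P0 + A * N * P0) = 4 * (A * N ^ 2 * P0) := by ring
    rw [hXdef]
    omega
  have hD0n : 1 ≤ D := by
    by_contra h
    have h1 : D = 0 := by omega
    rw [h1] at hD1
    simp only [Nat.cast_zero, zero_mul] at hD1
    have : 0 < (A : ℝ) * N := by positivity
    linarith
  have hD0 : (0 : ℝ) < D := by exact_mod_cast hD0n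
  have hvar := variance (X := X) (M := M) hM1 hM0 A D w W R N k hD0n hw hWp (by omega) hWR hk' hX'
  rw [← hE, ← hL] at hvar
  have hfew := few A D W R k (by omega) hX1 hX' hR1 _ hvar
  rw [← hL] at hfew
  -- from the primes to the count
  have hsub : ((Icc 1 A ×ˢ Icc 1 D).filter (fun p => (cntP k N p.1 p.2 : ℝ) < 1 / (24 * W) * (N / ℓ))) ⊆
      (Icc 1 A ×ˢ Icc 1 D).filter (fun p => L * Gc k W R p.1 p.2 < (R : ℝ) / 4) := by
    intro p hp
    rw [mem_filter] at hp ⊢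
    refine ⟨hp.1, ?_⟩
    have h1 : (Gc k W R p.1 p.2 : ℝ) ≤ cntP k N p.1 p.2 := by exact_mod_cast Gc_le k W R N p.1 p.2 (by omega) hWR
    have h2 : (Gc k W R p.1 p.2 : ℝ) < 1 / (24 * W) * (N / ℓ) := lt_of_le_of_lt h1 hp.2
    calc L * (Gc k W R p.1 p.2 : ℝ) ≤ 3 * ℓ * Gc k W R p.1 p.2 := mul_le_mul_of_nonneg_right hL3 (Nat.cast_nonneg _)
      _ < 3 * ℓ * (1 / (24 * W) * (N / ℓ)) := mul_lt_mul_of_pos_left h2 (by positivity)
      _ = N / (8 * W) := by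
          field_simp
          norm_num
      _ ≤ R / 4 := by
          rw [div_le_div_iff₀ (by positivity) (by norm_num)]
          linarith
  have hcard : (((Icc 1 A ×ˢ Icc 1 D).filter (fun p => (cntP k N p.1 p.2 : ℝ) < 1 / (24 * W) * (N / ℓ))).card : ℝ) ≤
      (((Icc 1 A ×ˢ Icc 1 D).filter (fun p => L * Gc k W R p.1 p.2 < (R : ℝ) / 4)).card : ℝ) := by
    exact_mod_cast card_le_card hsub
  refine hcard.trans (hfew.trans ?_)
  -- the bounds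
  have hLK : ℓ ^ K ≤ L ^ K := pow_le_pow_left₀ hℓ0.le hℓL _
  have hLp : ∀ n : ℕ, 0 < L ^ n := fun n => by positivity
  have hAN : (A : ℝ) * N ≤ D * L ^ K := hD1.trans (mul_le_mul_of_nonneg_left hLK hD0.le)
  have hER : E ≤ 40 * W ^ 2 * A / L ^ (K + 3) * (R : ℝ) ^ 2 := by
    refine hM2.trans ?_
    rw [div_mul_eq_mul_div, div_le_div_iff₀ (hLp _) (hLp _)]
    calc (X : ℝ) * L ^ (K + 3) ≤ (10 * A * N ^ 2 * ℓ ^ K) * L ^ (K + 3) := mul_le_mul_of_nonneg_right hXle (hLp _).le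
      _ ≤ (10 * A * (2 * W * R) ^ 2 * L ^ K) * L ^ (K + 3) := by gcongr
      _ = 40 * W ^ 2 * A * (R : ℝ) ^ 2 * L ^ (2 * K + 3) := by
          have : L ^ (2 * K + 3) = L ^ K * L ^ (K + 3) := by ring
          rw [this]
          ring
  have hT : (A : ℝ) * N + (N * A + D) * L ≤ 3 * D * L ^ (K + 1) := by
    have h1 : (A : ℝ) * N ≤ D * L ^ (K + 1) := hAN.trans (mul_le_mul_of_nonneg_left
      (pow_le_pow_right₀ hL1 (by omega)) hD0.le)
    have h2 : (N : ℝ) * A * L ≤ D * L ^ (K + 1) := by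
      calc (N : ℝ) * A * L = A * N * L := by ring
        _ ≤ D * L ^ K * L := mul_le_mul_of_nonneg_right hAN hL0.le
        _ = _ := by ring
    have h3 : (D : ℝ) * L ≤ D * L ^ (K + 1) := mul_le_mul_of_nonneg_left (le_self_pow₀ hL1 (by omega)) hD0.le
    linarith
  have hT0 : 0 ≤ (A : ℝ) * N + (N * A + D) * L := by positivity
  -- small quantities
  have s1 : 57344 * (W : ℝ) ^ 2 ≤ ε * L := by
    have h1 : 57344 * (1 / ε) * P3 ≤ L := by
      refine le_trans ?_ (r3.trans hℓL)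
      rw [hP2]
      apply mul_le_mul_of_nonneg_right _ (by linarith)
      linarith
    rw [hP3] at h1
    have h2 : 57344 * (1 / ε) * (W : ℝ) ^ 2 = 57344 * (W : ℝ) ^ 2 / ε := by ring
    rw [h2, div_le_iff₀ hε] at h1
    linarith
  have s2 : 57344 * L ^ (3 * K + 3) ≤ ε * A := by
    have h1 : 57344 * (1 / ε) * L ^ (3 * K + 3) ≤ A := by
      calc 57344 * (1 / ε) * L ^ (3 * K + 3) ≤ P2 * (3 * ℓ) ^ (3 * K + 3) := by
            apply mul_le_mul _ (pow_le_pow_left₀ hL0.le hL3 _) (by positivity) (by linarith)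
            rw [hP2]
            linarith
        _ = P1 * P2 * ℓ ^ (3 * K + 3) := by rw [mul_pow, hP1]; ring
        _ ≤ ℓ * ℓ ^ (3 * K + 3) := mul_le_mul_of_nonneg_right r2 (by positivity)
        _ = ℓ ^ (3 * K + 4) := by ring
        _ ≤ A := a2
    have h2 : 57344 * (1 / ε) * L ^ (3 * K + 3) = 57344 * L ^ (3 * K + 3) / ε := by ring
    rw [h2, div_le_iff₀ hε] at h1
    linarith
  have s3 : 57344 * L ^ (3 * K + 3) ≤ ε ^ 2 * A := by
    have h1 : 57344 * (1 / ε ^ 2) * L ^ (3 * K + 3) ≤ A := by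
      calc 57344 * (1 / ε ^ 2) * L ^ (3 * K + 3) ≤ P2 * (3 * ℓ) ^ (3 * K + 3) := by
            apply mul_le_mul _ (pow_le_pow_left₀ hL0.le hL3 _) (by positivity) (by linarith)
            rw [hP2]
            linarith
        _ = P1 * P2 * ℓ ^ (3 * K + 3) := by rw [mul_pow, hP1]; ring
        _ ≤ ℓ * ℓ ^ (3 * K + 3) := mul_le_mul_of_nonneg_right r2 (by positivity)
        _ = ℓ ^ (3 * K + 4) := by ring
        _ ≤ A := a2
    have h2 : 57344 * (1 / ε ^ 2) * L ^ (3 * K + 3) = 57344 * L ^ (3 * K + 3) / ε ^ 2 := by ring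
    rw [h2, div_le_iff₀ (by positivity)] at h1
    linarith
  have hAD : 0 < (A : ℝ) * D := by positivity
  -- the six terms
  have t1 : 4 * (A * D * (R : ℝ) ^ 2 * (Real.exp (1 / w) - 1)) / (R : ℝ) ^ 2 ≤ ε / 8 * (A * D) := by
    have e : 4 * (A * D * (R : ℝ) ^ 2 * (Real.exp (1 / w) - 1)) / (R : ℝ) ^ 2 =
        (4 * (Real.exp (1 / w) - 1)) * (A * D) := by
      field_simp
    rw [e]
    exact mul_le_mul_of_nonneg_right hwε hAD.le
  have h32 : 32 * L ≤ ε * R := by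
    have h3 : (2 * (W : ℝ)) * (96 * ℓ) ≤ (2 * W) * (ε * R) := by
      calc (2 * (W : ℝ)) * (96 * ℓ) = 192 * W * ℓ := by ring
        _ ≤ ε * N := hNC
        _ ≤ ε * (2 * W * R) := mul_le_mul_of_nonneg_left hRN hε.le
        _ = _ := by ring
    have h4 := le_of_mul_le_mul_left h3 (by positivity)
    linarith
  have t2 := term2 A D R W L ε E _ K hA0 hD0 hR0 hL1 hε hE0 hT0 hER hT s1
  have t3 := term3 A D R L ε _ K hD0 hR0 hL1 hT s2
  have t4 := term4 A D R L ε hA0 hD0 hR0 h32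
  have t5 := term5 A D N R W L ε E K hA0 hD0 hN1' hR0 hL1 hε hER s1 hAN
  have t6 := term6 A D N R W L ε E K hA0 hD0 hR0 hL1 hε hER s1 hAN hRN'
  have t7 := term7 A D N L ε X K hA0 hD0 hN1' hL1 hε s3 hAN
    (hXle.trans (mul_le_mul_of_nonneg_left hLK (by positivity)))
  have hfin : 4 * (A * D * (R : ℝ) ^ 2 * (Real.exp (1 / w) - 1) +
      2 * (((A : ℝ) * N + (N * A + D) * L) * (4 * E + 2 * (R : ℝ) ^ 2 * L)) +
      L * ((A : ℝ) * D * R + 2 * A * E) + 4 * A * R * E) / (R : ℝ) ^ 2 =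
      4 * (A * D * (R : ℝ) ^ 2 * (Real.exp (1 / w) - 1)) / (R : ℝ) ^ 2 +
      4 * (2 * (((A : ℝ) * N + (N * A + D) * L) * (4 * E))) / (R : ℝ) ^ 2 +
      4 * (2 * (((A : ℝ) * N + (N * A + D) * L) * (2 * (R : ℝ) ^ 2 * L))) / (R : ℝ) ^ 2 +
      4 * (L * ((A : ℝ) * D * R)) / (R : ℝ) ^ 2 + 4 * (L * (2 * A * E)) / (R : ℝ) ^ 2 +
      4 * (4 * A * R * E) / (R : ℝ) ^ 2 := by
    ring
  rw [hfin]
  have : ε * (A * D) = 8 * (ε / 8 * (A * D)) := by ring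
  have h0 : 0 ≤ ε / 8 * ((A : ℝ) * D) := by positivity
  linarith

end Pool.Agent.Y889.PN
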