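import Pool.Agent.Y889.PN.Mom
import Pool.Agent.Y889.PN.Div

/-!
Few exceptional pairs.
-/

set_option autoImplicit false

namespace Pool.Agent.Y889.PN

open Finset
open ArithmeticFunction (vonMangoldt vonMangoldt_nonneg vonMangoldt_le_log)

/-- the proper prime powers among the values -/
lemma powers (k n t D X : ℕ) (hn : 1 ≤ n) (hX1 : 1 ≤ X) (hX : k + 2 * n * (t + D) ≤ X) :
    ∑ c ∈ (Icc 1 D).filter (fun c => ¬ (k + 2 * n * (t + c)).Prime), vonMangoldt (k + 2 * n * (t + c)) ≤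
      2 * √(X : ℝ) * Real.log X := by
  have h1 := Chebyshev.psi_sub_theta_le (show (1 : ℝ) ≤ (X : ℝ) by exact_mod_cast hX1)
  rw [Chebyshev.psi_sub_theta_eq_sum_not_prime, Nat.floor_natCast] at h1
  refine le_trans ?_ h1
  have e : ∑ c ∈ (Icc 1 D).filter (fun c => ¬ (k + 2 * n * (t + c)).Prime), vonMangoldt (k + 2 * n * (t + c)) =
      ∑ x ∈ ((Icc 1 D).filter (fun c => ¬ (k + 2 * n * (t + c)).Prime)).image (fun c => k + 2 * n * (t + c)),
        vonMangoldt x := by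
    rw [sum_image]
    intro x _ y _ hxy
    have h2 : k + 2 * n * (t + x) = k + 2 * n * (t + y) := hxy
    have h3 : 2 * n * (t + x) = 2 * n * (t + y) := by omega
    have h4 := Nat.eq_of_mul_eq_mul_left (show 0 < 2 * n by omega) h3
    omega
  rw [e]
  apply sum_le_sum_of_subset_of_nonneg
  · intro x hx
    rw [mem_image] at hx
    obtain ⟨c, hc, rfl⟩ := hx
    rw [mem_filter, mem_Icc] at hc
    rw [mem_filter, mem_Ioc]
    refine ⟨⟨?_, ?_⟩, hc.2⟩
    · exact Nat.add_pos_right _ (Nat.mul_pos (by omega) (by omega))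
    · refine le_trans ?_ hX
      exact Nat.add_le_add_left (Nat.mul_le_mul_left _ (by omega)) _
  · intro _ _ _
    exact vonMangoldt_nonneg

/-- the number of the prime values -/
def Gc (k : ℕ → ℕ) (W R a c : ℕ) : ℕ := ((Icc 1 R).filter (fun n => (xv k a c (W * n)).Prime)).card

/-- the proper prime powers -/
noncomputable def Pc (k : ℕ → ℕ) (W R a c : ℕ) : ℝ :=
  ∑ n ∈ (Icc 1 R).filter (fun n => ¬ (xv k a c (W * n)).Prime), vonMangoldt (xv k a c (W * n))

lemma Zf_le {X : ℕ} (k : ℕ → ℕ) (W R a c : ℕ) (hX : ∀ n, 1 ≤ n → n ≤ R → xv k a c (W * n) ≤ X) :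
    Zf k W R a c ≤ Real.log X * Gc k W R a c + Pc k W R a c := by
  unfold Zf Gc Pc
  rw [← sum_filter_add_sum_filter_not (Icc 1 R) (fun n => (xv k a c (W * n)).Prime)]
  apply add_le_add
  · calc ∑ n ∈ (Icc 1 R).filter (fun n => (xv k a c (W * n)).Prime), wt (W * n) * vonMangoldt (xv k a c (W * n)) ≤
        ∑ n ∈ (Icc 1 R).filter (fun n => (xv k a c (W * n)).Prime), Real.log X := by
          apply sum_le_sum
          intro n hn
          rw [mem_filter, mem_Icc] at hn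
          have h1 := Lam_le _ _ (hX n hn.1.1 hn.1.2)
          have h2 := wt_le (W * n)
          have h3 : 0 ≤ vonMangoldt (xv k a c (W * n)) := vonMangoldt_nonneg
          calc wt (W * n) * vonMangoldt (xv k a c (W * n)) ≤ 1 * vonMangoldt (xv k a c (W * n)) :=
                mul_le_mul_of_nonneg_right h2 h3
            _ ≤ _ := by rw [one_mul]; exact h1
      _ = _ := by
          rw [sum_const, nsmul_eq_mul]
          ring
  · apply sum_le_sum
    intro n _
    have h2 := wt_le (W * n)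
    have h3 : 0 ≤ vonMangoldt (xv k a c (W * n)) := vonMangoldt_nonneg
    calc wt (W * n) * vonMangoldt (xv k a c (W * n)) ≤ 1 * vonMangoldt (xv k a c (W * n)) :=
          mul_le_mul_of_nonneg_right h2 h3
      _ = _ := one_mul _

section
variable {X : ℕ} (A D W R : ℕ) (k : ℕ → ℕ) (hW1 : 1 ≤ W) (hX1 : 1 ≤ X)
  (hX : ∀ n, 1 ≤ n → n ≤ R → k (W * n) + 2 * (W * n) * (A * (W * n) + D) ≤ X)

include hX in
lemma xv_le (a c : ℕ) (ha : a ≤ A) (hc : c ≤ D) : ∀ n, 1 ≤ n → n ≤ R → xv k a c (W * n) ≤ X := by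
  intro n h1 h2
  refine le_trans ?_ (hX n h1 h2)
  unfold xv
  exact Nat.add_le_add_left (Nat.mul_le_mul_left _ (Nat.add_le_add (Nat.mul_le_mul_right _ ha) hc)) _

include hW1 hX1 hX in
/-- the mean of the proper prime powers -/
lemma sum_Pc : ∑ a ∈ Icc 1 A, ∑ c ∈ Icc 1 D, Pc k W R a c ≤ R * A * (2 * √(X : ℝ) * Real.log X) := by
  have h1 : ∀ a ∈ Icc 1 A, ∑ c ∈ Icc 1 D, Pc k W R a c ≤ R * (2 * √(X : ℝ) * Real.log X) := by
    intro a ha
    rw [mem_Icc] at ha
    unfold Pc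
    have e : ∑ c ∈ Icc 1 D, ∑ n ∈ (Icc 1 R).filter (fun n => ¬ (xv k a c (W * n)).Prime),
        vonMangoldt (xv k a c (W * n)) =
        ∑ n ∈ Icc 1 R, ∑ c ∈ (Icc 1 D).filter (fun c => ¬ (xv k a c (W * n)).Prime),
        vonMangoldt (xv k a c (W * n)) := by
      simp only [sum_filter]
      rw [sum_comm]
    rw [e]
    calc ∑ n ∈ Icc 1 R, ∑ c ∈ (Icc 1 D).filter (fun c => ¬ (xv k a c (W * n)).Prime),
        vonMangoldt (xv k a c (W * n)) ≤ ∑ n ∈ Icc 1 R, 2 * √(X : ℝ) * Real.log X := by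
          apply sum_le_sum
          intro n hn
          rw [mem_Icc] at hn
          have hn1 : 1 ≤ W * n := Nat.mul_pos (by omega) (by omega)
          have h2 := powers (k (W * n)) (W * n) (a * (W * n)) D X hn1 hX1 (by
            refine le_trans ?_ (hX n hn.1 hn.2)
            exact Nat.add_le_add_left (Nat.mul_le_mul_left _ (Nat.add_le_add_right
              (Nat.mul_le_mul_right _ ha.2) _)) _)
          exact h2
      _ = _ := by rw [sum_const, Nat.card_Icc, nsmul_eq_mul, Nat.add_sub_cancel]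
  refine (sum_le_sum h1).trans (le_of_eq ?_)
  rw [sum_const, Nat.card_Icc, nsmul_eq_mul, Nat.add_sub_cancel]
  ring

include hW1 hX1 hX in
/-- **Few exceptional pairs.** -/
theorem few (hR : 1 ≤ R) (V : ℝ) (hV : ∑ a ∈ Icc 1 A, ∑ c ∈ Icc 1 D, (Zf k W R a c - R) ^ 2 ≤ V) :
    (((Icc 1 A ×ˢ Icc 1 D).filter (fun p => Real.log X * Gc k W R p.1 p.2 < (R : ℝ) / 4)).card : ℝ) ≤
      4 * V / (R : ℝ) ^ 2 + 8 * A * √(X : ℝ) * Real.log X := by
  classical
  have hR0 : (0 : ℝ) < R := by exact_mod_cast hR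
  have hlog := Real.log_natCast_nonneg X
  set S1 := (Icc 1 A ×ˢ Icc 1 D).filter (fun p => Zf k W R p.1 p.2 ≤ (R : ℝ) / 2) with hS1
  set S2 := (Icc 1 A ×ˢ Icc 1 D).filter (fun p => (R : ℝ) / 4 < Pc k W R p.1 p.2) with hS2
  have hPc : ∀ a c, 0 ≤ Pc k W R a c := fun a c => sum_nonneg fun _ _ => vonMangoldt_nonneg
  have hsub : (Icc 1 A ×ˢ Icc 1 D).filter (fun p => Real.log X * Gc k W R p.1 p.2 < (R : ℝ) / 4) ⊆ S1 ∪ S2 := by
    intro p hp
    rw [mem_filter, mem_product, mem_Icc, mem_Icc] at hp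
    rw [mem_union, hS1, hS2, mem_filter, mem_filter, mem_product, mem_Icc, mem_Icc]
    by_contra h
    push Not at h
    have h1 := h.1 hp.1
    have h2 := h.2 hp.1
    have h3 := Zf_le k W R p.1 p.2 (xv_le A D W R k hX p.1 p.2 hp.1.1.2 hp.1.2.2)
    linarith [hp.2]
  have hc1 : (S1.card : ℝ) * ((R : ℝ) ^ 2 / 4) ≤ V := by
    calc (S1.card : ℝ) * ((R : ℝ) ^ 2 / 4) = ∑ p ∈ S1, (R : ℝ) ^ 2 / 4 := by rw [sum_const, nsmul_eq_mul]
      _ ≤ ∑ p ∈ S1, (Zf k W R p.1 p.2 - R) ^ 2 := by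
          apply sum_le_sum
          intro p hp
          have h1 := (mem_filter.1 hp).2
          nlinarith
      _ ≤ ∑ p ∈ Icc 1 A ×ˢ Icc 1 D, (Zf k W R p.1 p.2 - R) ^ 2 :=
          sum_le_sum_of_subset_of_nonneg (filter_subset _ _) (fun _ _ _ => sq_nonneg _)
      _ ≤ V := by rw [sum_product]; exact hV
  have hc2 : (S2.card : ℝ) * ((R : ℝ) / 4) ≤ R * A * (2 * √(X : ℝ) * Real.log X) := by
    calc (S2.card : ℝ) * ((R : ℝ) / 4) = ∑ p ∈ S2, (R : ℝ) / 4 := by rw [sum_const, nsmul_eq_mul]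
      _ ≤ ∑ p ∈ S2, Pc k W R p.1 p.2 := by
          apply sum_le_sum
          intro p hp
          exact (mem_filter.1 hp).2.le
      _ ≤ ∑ p ∈ Icc 1 A ×ˢ Icc 1 D, Pc k W R p.1 p.2 :=
          sum_le_sum_of_subset_of_nonneg (filter_subset _ _) (fun _ _ _ => hPc _ _)
      _ ≤ _ := by rw [sum_product]; exact sum_Pc A D W R k hW1 hX1 hX
  have hd1 : (S1.card : ℝ) ≤ 4 * V / (R : ℝ) ^ 2 := by
    rw [le_div_iff₀ (by positivity)]
    linarith
  have hd2 : (S2.card : ℝ) ≤ 8 * A * √(X : ℝ) * Real.log X := by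
    have h1 : (S2.card : ℝ) * R ≤ (8 * A * √(X : ℝ) * Real.log X) * R := by linarith
    exact le_of_mul_le_mul_right h1 hR0
  have h1 : (((Icc 1 A ×ˢ Icc 1 D).filter (fun p => Real.log X * Gc k W R p.1 p.2 < (R : ℝ) / 4)).card : ℝ) ≤
      S1.card + S2.card := by
    exact_mod_cast (card_le_card hsub).trans (card_union_le _ _)
  linarith

end

/-- the number of `1 ≤ n ≤ N` with a prime value -/
def cntP (k : ℕ → ℕ) (N a c : ℕ) : ℕ :=
  ((Icc 1 N).filter (fun n => (k n + 2 * (a * n ^ 2 + c * n)).Prime)).card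

lemma Gc_le (k : ℕ → ℕ) (W R N a c : ℕ) (hW1 : 1 ≤ W) (hWR : W * R ≤ N) : Gc k W R a c ≤ cntP k N a c := by
  unfold Gc cntP
  apply card_le_card_of_injOn (fun n => W * n)
  · intro n hn
    have hn' := mem_filter.1 (mem_coe.1 hn)
    rw [mem_Icc] at hn'
    refine mem_coe.2 (mem_filter.2 ⟨mem_Icc.2 ⟨?_, ?_⟩, ?_⟩)
    · exact Nat.mul_pos (by omega) (by omega)
    · exact (Nat.mul_le_mul_left W hn'.1.2).trans hWR
    · have h1 := hn'.2
      have e : k (W * n) + 2 * (a * (W * n) ^ 2 + c * (W * n)) = xv k a c (W * n) := by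
        unfold xv
        ring
      rw [← e] at h1
      exact h1
  · intro a _ b _ h
    exact Nat.eq_of_mul_eq_mul_left (by omega) h

end Pool.Agent.Y889.PN
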