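import Mathlib

/-!
The correlation factors of two arguments and their mean.
-/

set_option autoImplicit false

namespace Pool.Agent.Y889.PN

open Finset

/-- the primes in `(w, R]` -/
def PR (w R : ℕ) : Finset ℕ := (Ioc w R).filter Nat.Prime

/-- the majorant of the correlation factor -/
noncomputable def gR (w R l : ℕ) : ℝ := ∏ p ∈ PR w R, (1 + if p ∣ l then 1 / ((p : ℝ) - 1) else 0)

lemma PR_mem {w R p : ℕ} (h : p ∈ PR w R) : w < p ∧ p ≤ R ∧ p.Prime := by
  unfold PR at h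
  rw [mem_filter, mem_Ioc] at h
  exact ⟨h.1.1, h.1.2, h.2⟩

lemma factor_ge {p : ℕ} (hp : p.Prime) (l : ℕ) : (1 : ℝ) ≤ 1 + if p ∣ l then 1 / ((p : ℝ) - 1) else 0 := by
  have h2 : (2 : ℝ) ≤ p := by exact_mod_cast hp.two_le
  split_ifs
  · have : 0 ≤ 1 / ((p : ℝ) - 1) := by
      apply div_nonneg (by norm_num)
      linarith
    linarith
  · linarith

lemma gR_pos (w R l : ℕ) : 0 < gR w R l := by
  unfold gR
  apply prod_pos
  intro p hp
  linarith [factor_ge (PR_mem hp).2.2 l]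

/-- the sum over the differences divisible by `q` -/
lemma sum_mult (q : ℕ) (hq : 1 ≤ q) (R : ℕ) :
    ∑ l ∈ (Icc 1 R).filter (fun l => q ∣ l), ((R : ℝ) - l) ≤ (R : ℝ) ^ 2 / (2 * q) := by
  have hq0 : (0 : ℝ) < q := by exact_mod_cast hq
  have e : (Icc 1 R).filter (fun l => q ∣ l) = (Icc 1 (R / q)).image (fun j => q * j) := by
    ext l
    simp only [mem_filter, mem_Icc, mem_image]
    constructor
    · rintro ⟨⟨h1, h2⟩, j, rfl⟩
      refine ⟨j, ⟨?_, ?_⟩, rfl⟩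
      · by_contra h
        have : j = 0 := by omega
        subst this
        simp at h1
      · rw [Nat.le_div_iff_mul_le (by omega), mul_comm]
        exact h2
    · rintro ⟨j, ⟨h1, h2⟩, rfl⟩
      rw [Nat.le_div_iff_mul_le (by omega), mul_comm] at h2
      refine ⟨⟨?_, h2⟩, dvd_mul_right _ _⟩
      have : 0 < q * j := by positivity
      omega
  rw [e, sum_image]
  swap
  · intro a _ b _ h
    exact Nat.eq_of_mul_eq_mul_left (by omega) h
  have h1 : ∑ j ∈ Icc 1 (R / q), ((R : ℝ) - ((q * j : ℕ) : ℝ)) = R * (R / q : ℕ) - q * ((R / q : ℕ) * ((R / q : ℕ) + 1) / 2) := by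
    have gen : ∀ J : ℕ, ∑ j ∈ Icc 1 J, ((R : ℝ) - ((q * j : ℕ) : ℝ)) = R * J - q * (J * (J + 1) / 2) := by
      intro J
      induction J with
      | zero => simp
      | succ J ih =>
        rw [Finset.sum_Icc_succ_top (by omega), ih]
        push_cast
        ring
    exact gen _
  rw [h1]
  obtain ⟨J, hJ⟩ : ∃ J : ℝ, J = ((R / q : ℕ) : ℝ) := ⟨_, rfl⟩
  have hJ0 : 0 ≤ J := by rw [hJ]; positivity
  rw [← hJ, le_div_iff₀ (by positivity)]
  have h2 : 0 ≤ ((R : ℝ) - q * J) ^ 2 := sq_nonneg _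
  have h3 : 0 ≤ (q : ℝ) ^ 2 * J := by positivity
  nlinarith

/-- `∑ 1/(p(p-1)) ≤ 1/w` over the primes above `w` -/
lemma sum_recip (w : ℕ) (hw : 1 ≤ w) (R : ℕ) : ∑ p ∈ PR w R, 1 / ((p : ℝ) * ((p : ℝ) - 1)) ≤ 1 / w := by
  have hw0 : (0 : ℝ) < w := by exact_mod_cast hw
  have h1 : ∑ p ∈ PR w R, 1 / ((p : ℝ) * ((p : ℝ) - 1)) ≤ ∑ p ∈ Ioc w R, 1 / ((p : ℝ) * ((p : ℝ) - 1)) := by
    unfold PR
    apply sum_le_sum_of_subset_of_nonneg (filter_subset _ _)
    intro i hi _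
    rw [mem_Ioc] at hi
    have : (1 : ℝ) < i := by exact_mod_cast (by omega : 1 < i)
    apply div_nonneg (by norm_num)
    apply mul_nonneg (by linarith) (by linarith)
  refine h1.trans ?_
  rcases Nat.lt_or_ge R w with h | h
  · rw [Ioc_eq_empty (by omega), sum_empty]
    positivity
  have h2 : ∀ n : ℕ, w ≤ n → ∑ p ∈ Ioc w n, 1 / ((p : ℝ) * ((p : ℝ) - 1)) = 1 / w - 1 / n := by
    intro n hn
    induction n, hn using Nat.le_induction with
    | base => simp
    | succ n hn ih =>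
      rw [← Finset.insert_Ioc_right_eq_Ioc_add_one (by omega), sum_insert (by simp), ih]
      have hn0 : (0 : ℝ) < n := by exact_mod_cast (by omega : 0 < n)
      have e1 : 1 / (((n + 1 : ℕ) : ℝ) * (((n + 1 : ℕ) : ℝ) - 1)) = 1 / n - 1 / ((n + 1 : ℕ) : ℝ) := by
        push_cast
        rw [add_sub_cancel_right]
        field_simp
        ring
      rw [e1]
      ring
  rw [h2 R h]
  have : (0 : ℝ) ≤ 1 / R := by positivity
  linarith

/-- **The mean of the correlation factors.** -/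
theorem sum_gR (w : ℕ) (hw : 1 ≤ w) (R : ℕ) :
    ∑ l ∈ Icc 1 R, ((R : ℝ) - l) * gR w R l ≤ (R : ℝ) ^ 2 / 2 * Real.exp (1 / w) := by
  classical
  have h1 : ∀ l, gR w R l = ∑ T ∈ (PR w R).powerset, if (∏ p ∈ T, p) ∣ l then ∏ p ∈ T, 1 / ((p : ℝ) - 1) else 0 := by
    intro l
    unfold gR
    rw [prod_one_add]
    apply sum_congr rfl
    intro T hT
    rw [mem_powerset] at hT
    by_cases h : ∀ p ∈ T, p ∣ l
    · have h2 : (∏ p ∈ T, p) ∣ l := by
        exact prod_primes_dvd _ (fun p hp => (PR_mem (hT hp)).2.2.prime) h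
      rw [if_pos h2]
      apply prod_congr rfl
      intro p hp
      rw [if_pos (h p hp)]
    · have h2 : ¬ (∏ p ∈ T, p) ∣ l := fun h2 => h fun p hp => (dvd_prod_of_mem _ hp).trans h2
      rw [if_neg h2]
      push Not at h
      obtain ⟨p, hp, hpl⟩ := h
      apply prod_eq_zero hp
      rw [if_neg hpl]
  simp only [h1, mul_sum]
  rw [sum_comm]
  have h2 : ∀ T ∈ (PR w R).powerset, ∑ l ∈ Icc 1 R, ((R : ℝ) - l) *
      (if (∏ p ∈ T, p) ∣ l then ∏ p ∈ T, 1 / ((p : ℝ) - 1) else 0) ≤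
      (R : ℝ) ^ 2 / 2 * ∏ p ∈ T, 1 / ((p : ℝ) * ((p : ℝ) - 1)) := by
    intro T hT
    rw [mem_powerset] at hT
    have hq : 1 ≤ ∏ p ∈ T, p := Nat.one_le_iff_ne_zero.2 (prod_ne_zero_iff.2 fun p hp => (PR_mem (hT hp)).2.2.ne_zero)
    have hc : 0 ≤ ∏ p ∈ T, 1 / ((p : ℝ) - 1) := by
      apply prod_nonneg
      intro p hp
      have : (2 : ℝ) ≤ p := by exact_mod_cast (PR_mem (hT hp)).2.2.two_le
      apply div_nonneg (by norm_num)
      linarith
    have e1 : ∑ l ∈ Icc 1 R, ((R : ℝ) - l) *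
        (if (∏ p ∈ T, p) ∣ l then ∏ p ∈ T, 1 / ((p : ℝ) - 1) else 0) =
        (∑ l ∈ (Icc 1 R).filter (fun l => (∏ p ∈ T, p) ∣ l), ((R : ℝ) - l)) * ∏ p ∈ T, 1 / ((p : ℝ) - 1) := by
      rw [sum_mul, sum_filter]
      apply sum_congr rfl
      intro l _
      split_ifs <;> simp
    rw [e1]
    refine (mul_le_mul_of_nonneg_right (sum_mult _ hq R) hc).trans (le_of_eq ?_)
    have e2 : ∏ p ∈ T, 1 / ((p : ℝ) * ((p : ℝ) - 1)) = (1 / ((∏ p ∈ T, p : ℕ) : ℝ)) * ∏ p ∈ T, 1 / ((p : ℝ) - 1) := by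
      push_cast
      rw [one_div, ← prod_inv_distrib, ← prod_mul_distrib]
      apply prod_congr rfl
      intro p _
      rw [one_div, one_div, mul_inv]
    rw [e2]
    have hq' : ((∏ p ∈ T, p : ℕ) : ℝ) ≠ 0 := by
      have : (0 : ℝ) < ((∏ p ∈ T, p : ℕ) : ℝ) := by exact_mod_cast hq
      exact this.ne'
    field_simp
  refine (sum_le_sum h2).trans ?_
  rw [← mul_sum, ← prod_one_add]
  apply mul_le_mul_of_nonneg_left _ (by positivity)
  calc ∏ p ∈ PR w R, (1 + 1 / ((p : ℝ) * ((p : ℝ) - 1))) ≤ ∏ p ∈ PR w R, Real.exp (1 / ((p : ℝ) * ((p : ℝ) - 1))) := by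
        apply prod_le_prod
        · intro p hp
          have : (2 : ℝ) ≤ p := by exact_mod_cast (PR_mem hp).2.2.two_le
          have : 0 ≤ 1 / ((p : ℝ) * ((p : ℝ) - 1)) := by
            apply div_nonneg (by norm_num)
            apply mul_nonneg <;> linarith
          linarith
        · intro p _
          linarith [Real.add_one_le_exp (1 / ((p : ℝ) * ((p : ℝ) - 1)))]
    _ = Real.exp (∑ p ∈ PR w R, 1 / ((p : ℝ) * ((p : ℝ) - 1))) := by rw [Real.exp_sum]
    _ ≤ _ := Real.exp_le_exp.2 (sum_recip w hw R)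

/-- the density of the reduced classes -/
lemma tot_eq (n : ℕ) : (Nat.totient n : ℝ) = n * ∏ p ∈ n.primeFactors, (1 - (p : ℝ)⁻¹) := by
  have := Nat.totient_eq_mul_prod_factors n
  have h2 := congrArg (fun x : ℚ => (x : ℝ)) this
  push_cast at h2
  exact h2

/-- **The correlation factor of two arguments.** -/
theorem rho_le (w W R n l : ℕ) (hW : ∀ p, p.Prime → p ≤ w → p ∣ W)
    (hn : 1 ≤ n) (hl : 1 ≤ l) (hlR : l ≤ R) (hW1 : 1 ≤ W) :
    (Nat.totient (2 * (W * n)) : ℝ) * (W * l : ℕ) / (Nat.totient (2 * (W * n) * (W * l)) : ℝ) ≤ gR w R l := by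
  classical
  obtain ⟨u, hu⟩ : ∃ u, u = 2 * (W * n) := ⟨_, rfl⟩
  obtain ⟨v, hv⟩ : ∃ v, v = W * l := ⟨_, rfl⟩
  rw [← hu, ← hv]
  have hu0 : u ≠ 0 := by rw [hu]; positivity
  have hv0 : v ≠ 0 := by rw [hv]; positivity
  have huv : (u * v).primeFactors = u.primeFactors ∪ (v.primeFactors \ u.primeFactors) := by
    rw [Nat.primeFactors_mul hu0 hv0, union_sdiff_self_eq_union]
  have hpos : ∀ p : ℕ, p.Prime → 0 < 1 - (p : ℝ)⁻¹ := by
    intro p hp
    have h2 : (2 : ℝ) ≤ p := by exact_mod_cast hp.two_le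
    have : (p : ℝ)⁻¹ ≤ 2⁻¹ := inv_anti₀ (by norm_num) h2
    norm_num at this
    linarith
  have hu' : (0 : ℝ) < u := by exact_mod_cast Nat.pos_of_ne_zero hu0
  have hv' : (0 : ℝ) < v := by exact_mod_cast Nat.pos_of_ne_zero hv0
  have e1 : (Nat.totient (u * v) : ℝ) =
      (Nat.totient u : ℝ) * v * ∏ p ∈ v.primeFactors \ u.primeFactors, (1 - (p : ℝ)⁻¹) := by
    rw [tot_eq (u * v), huv, prod_union (disjoint_sdiff), tot_eq u]
    push_cast
    ring
  have hprodpos : 0 < ∏ p ∈ v.primeFactors \ u.primeFactors, (1 - (p : ℝ)⁻¹) := by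
    apply prod_pos
    intro p hp
    exact hpos p (Nat.prime_of_mem_primeFactors (mem_sdiff.1 hp).1)
  have hφ : (0 : ℝ) < Nat.totient u := by exact_mod_cast Nat.totient_pos.2 (Nat.pos_of_ne_zero hu0)
  rw [e1, div_le_iff₀ (by positivity)]
  have h1 : 1 ≤ gR w R l * ∏ p ∈ v.primeFactors \ u.primeFactors, (1 - (p : ℝ)⁻¹) := by
    have hsub : v.primeFactors \ u.primeFactors ⊆ PR w R := by
      intro p hp
      rw [mem_sdiff, Nat.mem_primeFactors, Nat.mem_primeFactors] at hp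
      obtain ⟨⟨hp1, hp2, _⟩, hp3⟩ := hp
      have h2 : ¬ p ∣ u := fun h => hp3 ⟨hp1, h, hu0⟩
      have h3 : ¬ p ∣ W := fun h => h2 (by rw [hu]; exact (h.mul_right n).mul_left 2)
      have h4 : p ∣ l := by
        rw [hv] at hp2
        exact (hp1.dvd_mul.1 hp2).resolve_left h3
      unfold PR
      rw [mem_filter, mem_Ioc]
      refine ⟨⟨?_, (Nat.le_of_dvd hl h4).trans hlR⟩, hp1⟩
      by_contra h5
      exact h3 (hW p hp1 (by omega))
    have h2 : ∏ p ∈ v.primeFactors \ u.primeFactors, (1 + if p ∣ l then 1 / ((p : ℝ) - 1) else 0) ≤ gR w R l := by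
      unfold gR
      apply prod_le_prod_of_subset_of_one_le hsub
      · intro p hp
        linarith [factor_ge (PR_mem (hsub hp)).2.2 l]
      · intro p hp _
        exact factor_ge (PR_mem hp).2.2 l
    refine le_trans ?_ (mul_le_mul_of_nonneg_right h2 hprodpos.le)
    rw [← prod_mul_distrib]
    apply le_of_eq
    symm
    apply prod_eq_one
    intro p hp
    rw [mem_sdiff, Nat.mem_primeFactors, Nat.mem_primeFactors] at hp
    obtain ⟨⟨hp1, hp2, _⟩, hp3⟩ := hp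
    have h2 : ¬ p ∣ u := fun h => hp3 ⟨hp1, h, hu0⟩
    have h3 : ¬ p ∣ W := fun h => h2 (by rw [hu]; exact (h.mul_right n).mul_left 2)
    have h4 : p ∣ l := by
      rw [hv] at hp2
      exact (hp1.dvd_mul.1 hp2).resolve_left h3
    rw [if_pos h4]
    have h5 : (2 : ℝ) ≤ p := by exact_mod_cast hp1.two_le
    have h6 : (p : ℝ) - 1 ≠ 0 := by
      have : (0 : ℝ) < (p : ℝ) - 1 := by linarith
      exact this.ne'
    have h7 : (p : ℝ) ≠ 0 := by
      have : (0 : ℝ) < (p : ℝ) := by linarith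
      exact this.ne'
    field_simp
    ring
  nlinarith [mul_pos hφ hv']

end Pool.Agent.Y889.PN
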