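import Pool.Agent.Y889.PN.Pair2
import Pool.Agent.Y889.PN.Rho

/-!
The first two moments of the weighted count.
-/

set_option autoImplicit false

namespace Pool.Agent.Y889.PN

open Finset
open ArithmeticFunction (vonMangoldt vonMangoldt_nonneg vonMangoldt_le_log)

/-- the value at `n` -/
def xv (k : ℕ → ℕ) (a c n : ℕ) : ℕ := k n + 2 * n * (a * n + c)

/-- the weight of `n` -/
noncomputable def wt (n : ℕ) : ℝ := (Nat.totient (2 * n) : ℝ) / (2 * n : ℕ)

/-- the weighted count -/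
noncomputable def Zf (k : ℕ → ℕ) (W R a c : ℕ) : ℝ :=
  ∑ n ∈ Icc 1 R, wt (W * n) * vonMangoldt (xv k a c (W * n))

lemma wt_nonneg (n : ℕ) : 0 ≤ wt n := by
  unfold wt
  positivity

lemma wt_le (n : ℕ) : wt n ≤ 1 := by
  unfold wt
  rcases Nat.eq_zero_or_pos n with h | h
  · rw [h]; simp
  · rw [div_le_one (by positivity)]
    exact_mod_cast Nat.totient_le (2 * n)

lemma wt_mul (n : ℕ) (hn : 1 ≤ n) : wt n * ((2 * n : ℕ) / (Nat.totient (2 * n) : ℝ)) = 1 := by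
  unfold wt
  have h1 : (0 : ℝ) < Nat.totient (2 * n) := by exact_mod_cast Nat.totient_pos.2 (by positivity)
  have h2 : (0 : ℝ) < (2 * n : ℕ) := by positivity
  field_simp

lemma sq_expand (f : ℕ → ℝ) (R : ℕ) : (∑ n ∈ Icc 1 R, f n) ^ 2 =
    ∑ n ∈ Icc 1 R, f n ^ 2 + 2 * ∑ l ∈ Icc 1 R, ∑ n ∈ Icc 1 (R - l), f n * f (n + l) := by
  induction R with
  | zero => simp
  | succ R ih =>
    rw [sum_Icc_succ_top (by omega), add_sq, ih, sum_Icc_succ_top (by omega : 1 ≤ R + 1),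
      sum_Icc_succ_top (by omega : 1 ≤ R + 1)]
    have h1 : ∀ l ∈ Icc 1 R, ∑ n ∈ Icc 1 (R + 1 - l), f n * f (n + l) =
        ∑ n ∈ Icc 1 (R - l), f n * f (n + l) + f (R + 1 - l) * f (R + 1) := by
      intro l hl
      rw [mem_Icc] at hl
      have e : R + 1 - l = (R - l) + 1 := by omega
      rw [e, sum_Icc_succ_top (by omega)]
      congr 3
      omega
    rw [sum_congr rfl h1, sum_add_distrib]
    have h2 : ∑ l ∈ Icc 1 R, f (R + 1 - l) * f (R + 1) = (∑ n ∈ Icc 1 R, f n) * f (R + 1) := by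
      rw [sum_mul]
      apply sum_bij (fun l _ => R + 1 - l)
      · intro l hl
        rw [mem_Icc] at hl ⊢
        omega
      · intro l hl l' hl' h
        rw [mem_Icc] at hl hl'
        have h' : R + 1 - l = R + 1 - l' := h
        omega
      · intro l hl
        rw [mem_Icc] at hl
        exact ⟨R + 1 - l, by rw [mem_Icc]; omega, by omega⟩
      · intro l _
        rfl
    rw [h2]
    simp
    ring

/-- the first moment for one argument -/
lemma first {X : ℕ} {M : ℕ → ℝ} (hM : Ctl X M) (A D n k : ℕ) (hn : 1 ≤ n) (hD : 1 ≤ D)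
    (hk : k.Coprime (2 * n)) (hX : k + 2 * n * (A * n + D) ≤ X) :
    |∑ a ∈ Icc 1 A, ∑ c ∈ Icc 1 D, vonMangoldt (k + 2 * n * (a * n + c)) -
      A * D * ((2 * n : ℕ) / (Nat.totient (2 * n) : ℝ))| ≤ 2 * A * M (2 * n) := by
  have h1 : ∀ a ∈ Icc 1 A, |∑ c ∈ Icc 1 D, vonMangoldt (k + 2 * n * (a * n + c)) -
      D * ((2 * n : ℕ) / (Nat.totient (2 * n) : ℝ))| ≤ 2 * M (2 * n) := by
    intro a ha
    rw [mem_Icc] at ha
    have h2 := sum_ap_le hM (k + 2 * n * (a * n)) (2 * n) 1 D (by omega) le_rfl hD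
      ((Nat.coprime_add_mul_left_left _ _ _).2 hk) (by
        refine le_trans ?_ hX
        calc k + 2 * n * (a * n) + 2 * n * D = k + 2 * n * (a * n + D) := by ring
          _ ≤ _ := Nat.add_le_add_left (Nat.mul_le_mul_left _ (Nat.add_le_add_right
            (Nat.mul_le_mul_right _ ha.2) _)) _)
    rw [Nat.card_Icc, Nat.add_sub_cancel] at h2
    have e1 : ∑ c ∈ Icc 1 D, vonMangoldt (k + 2 * n * (a * n + c)) =
        ∑ c ∈ Icc 1 D, vonMangoldt (k + 2 * n * (a * n) + 2 * n * c) := by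
      apply sum_congr rfl
      intro c _
      congr 1
      ring
    rw [e1]
    have e2 : (D : ℝ) * ((2 * n : ℕ) / (Nat.totient (2 * n) : ℝ)) = (2 * n : ℕ) * (D : ℝ) / (Nat.totient (2 * n) : ℝ) := by
      ring
    rw [e2]
    exact h2
  have e : (A : ℝ) * D * ((2 * n : ℕ) / (Nat.totient (2 * n) : ℝ)) =
      ∑ a ∈ Icc 1 A, D * ((2 * n : ℕ) / (Nat.totient (2 * n) : ℝ)) := by
    rw [sum_const, Nat.card_Icc, nsmul_eq_mul, Nat.add_sub_cancel]
    ring
  rw [e, ← sum_sub_distrib]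
  refine (abs_sum_le_sum_abs _ _).trans ((sum_le_sum h1).trans (le_of_eq ?_))
  rw [sum_const, Nat.card_Icc, nsmul_eq_mul, Nat.add_sub_cancel]
  ring

section
variable {X : ℕ} {M : ℕ → ℝ} (hM : Ctl X M) (hM0 : ∀ q, 0 ≤ M q) (A D w W R N : ℕ) (k : ℕ → ℕ)
  (hD : 1 ≤ D) (hw : 1 ≤ w) (hWp : ∀ p, p.Prime → p ≤ w → p ∣ W) (hW1 : 1 ≤ W) (hWR : W * R ≤ N)
  (hk : ∀ n, 1 ≤ n → n ≤ R → (k (W * n)).Coprime (2 * (W * n)))
  (hX : ∀ n, 1 ≤ n → n ≤ R → k (W * n) + 2 * (W * n) * (A * (W * n) + D) ≤ X)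

include hM hM0 hD hW1 hWR hk hX in
/-- the first moment -/
theorem moment1 : (A : ℝ) * D * R - 2 * A * ∑ m ∈ Icc 1 N, ∑ l ∈ Icc 1 N, M (2 * m * l) ≤
    ∑ a ∈ Icc 1 A, ∑ c ∈ Icc 1 D, Zf k W R a c := by
  have hE : ∑ n ∈ Icc 1 R, M (2 * (W * n)) ≤ ∑ m ∈ Icc 1 N, ∑ l ∈ Icc 1 N, M (2 * m * l) := by
    calc ∑ n ∈ Icc 1 R, M (2 * (W * n)) = ∑ m ∈ (Icc 1 R).image (fun n => W * n), M (2 * m * 1) := by
          rw [sum_image]
          · apply sum_congr rfl
            intro n _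
            rw [mul_one]
          · intro a _ b _ h
            exact Nat.eq_of_mul_eq_mul_left (by omega) h
      _ ≤ ∑ m ∈ Icc 1 N, M (2 * m * 1) := by
          apply sum_le_sum_of_subset_of_nonneg
          · intro m hm
            rw [mem_image] at hm
            obtain ⟨n, hn, rfl⟩ := hm
            rw [mem_Icc] at hn ⊢
            have h1 : 0 < W * n := by
              have := hn.1
              positivity
            exact ⟨h1, (Nat.mul_le_mul_left W hn.2).trans hWR⟩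
          · intro _ _ _
            exact hM0 _
      _ ≤ _ := by
          apply sum_le_sum
          intro m hm
          rw [mem_Icc] at hm
          have h1 : 1 ∈ Icc 1 N := by rw [mem_Icc]; omega
          exact single_le_sum (f := fun l => M (2 * m * l)) (fun l _ => hM0 _) h1
  have e : ∑ a ∈ Icc 1 A, ∑ c ∈ Icc 1 D, Zf k W R a c =
      ∑ n ∈ Icc 1 R, wt (W * n) * ∑ a ∈ Icc 1 A, ∑ c ∈ Icc 1 D, vonMangoldt (xv k a c (W * n)) := by
    unfold Zf
    have e1 : ∀ a ∈ Icc 1 A, ∑ c ∈ Icc 1 D, ∑ n ∈ Icc 1 R, wt (W * n) * vonMangoldt (xv k a c (W * n)) =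
        ∑ n ∈ Icc 1 R, ∑ c ∈ Icc 1 D, wt (W * n) * vonMangoldt (xv k a c (W * n)) := fun _ _ => sum_comm
    rw [sum_congr rfl e1, sum_comm]
    apply sum_congr rfl
    intro n _
    rw [mul_sum]
    apply sum_congr rfl
    intro a _
    rw [mul_sum]
  rw [e]
  have h1 : ∀ n ∈ Icc 1 R, (A : ℝ) * D - 2 * A * M (2 * (W * n)) ≤
      wt (W * n) * ∑ a ∈ Icc 1 A, ∑ c ∈ Icc 1 D, vonMangoldt (xv k a c (W * n)) := by
    intro n hn
    rw [mem_Icc] at hn
    have hn1 : 1 ≤ W * n := Nat.mul_pos (by omega) (by omega)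
    have h2 := (abs_le.1 (first hM A D (W * n) (k (W * n)) hn1 hD (hk n hn.1 hn.2) (hX n hn.1 hn.2))).1
    have h3 : A * D * ((2 * (W * n) : ℕ) / (Nat.totient (2 * (W * n)) : ℝ)) - 2 * A * M (2 * (W * n)) ≤
        ∑ a ∈ Icc 1 A, ∑ c ∈ Icc 1 D, vonMangoldt (xv k a c (W * n)) := by
      unfold xv
      linarith
    have h4 := mul_le_mul_of_nonneg_left h3 (wt_nonneg (W * n))
    refine le_trans ?_ h4
    have h5 := wt_mul (W * n) hn1
    have h6 : wt (W * n) * (A * D * ((2 * (W * n) : ℕ) / (Nat.totient (2 * (W * n)) : ℝ)) - 2 * A * M (2 * (W * n))) =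
        A * D * (wt (W * n) * ((2 * (W * n) : ℕ) / (Nat.totient (2 * (W * n)) : ℝ))) -
          wt (W * n) * (2 * A * M (2 * (W * n))) := by ring
    rw [h6, h5]
    have h7 : 0 ≤ 2 * A * M (2 * (W * n)) := by
      have := hM0 (2 * (W * n))
      positivity
    have h8 := mul_le_mul_of_nonneg_right (wt_le (W * n)) h7
    linarith
  refine le_trans ?_ (sum_le_sum h1)
  rw [sum_sub_distrib, sum_const, Nat.card_Icc, nsmul_eq_mul, Nat.add_sub_cancel, ← mul_sum]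
  have h2 : 2 * (A : ℝ) * ∑ n ∈ Icc 1 R, M (2 * (W * n)) ≤ 2 * A * ∑ m ∈ Icc 1 N, ∑ l ∈ Icc 1 N, M (2 * m * l) :=
    mul_le_mul_of_nonneg_left hE (by positivity)
  linarith

include hM hM0 hD hW1 hWR hk hX in
/-- the diagonal -/
theorem diagonal : ∑ n ∈ Icc 1 R, ∑ a ∈ Icc 1 A, ∑ c ∈ Icc 1 D, (wt (W * n) * vonMangoldt (xv k a c (W * n))) ^ 2 ≤
    Real.log X * ((A : ℝ) * D * R + 2 * A * ∑ m ∈ Icc 1 N, ∑ l ∈ Icc 1 N, M (2 * m * l)) := by
  have hlog := Real.log_natCast_nonneg X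
  have hE : ∑ n ∈ Icc 1 R, M (2 * (W * n)) ≤ ∑ m ∈ Icc 1 N, ∑ l ∈ Icc 1 N, M (2 * m * l) := by
    calc ∑ n ∈ Icc 1 R, M (2 * (W * n)) = ∑ m ∈ (Icc 1 R).image (fun n => W * n), M (2 * m * 1) := by
          rw [sum_image]
          · apply sum_congr rfl
            intro n _
            rw [mul_one]
          · intro a _ b _ h
            exact Nat.eq_of_mul_eq_mul_left (by omega) h
      _ ≤ ∑ m ∈ Icc 1 N, M (2 * m * 1) := by
          apply sum_le_sum_of_subset_of_nonneg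
          · intro m hm
            rw [mem_image] at hm
            obtain ⟨n, hn, rfl⟩ := hm
            rw [mem_Icc] at hn ⊢
            have h1 : 0 < W * n := by
              have := hn.1
              positivity
            exact ⟨h1, (Nat.mul_le_mul_left W hn.2).trans hWR⟩
          · intro _ _ _
            exact hM0 _
      _ ≤ _ := by
          apply sum_le_sum
          intro m hm
          rw [mem_Icc] at hm
          have h1 : 1 ∈ Icc 1 N := by rw [mem_Icc]; omega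
          exact single_le_sum (f := fun l => M (2 * m * l)) (fun l _ => hM0 _) h1
  have h1 : ∀ n ∈ Icc 1 R, ∑ a ∈ Icc 1 A, ∑ c ∈ Icc 1 D, (wt (W * n) * vonMangoldt (xv k a c (W * n))) ^ 2 ≤
      Real.log X * ((A : ℝ) * D + 2 * A * M (2 * (W * n))) := by
    intro n hn
    rw [mem_Icc] at hn
    have hn1 : 1 ≤ W * n := Nat.mul_pos (by omega) (by omega)
    have hX' := hX n hn.1 hn.2
    have h2 := (abs_le.1 (first hM A D (W * n) (k (W * n)) hn1 hD (hk n hn.1 hn.2) hX')).2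
    have h3 : ∑ a ∈ Icc 1 A, ∑ c ∈ Icc 1 D, vonMangoldt (xv k a c (W * n)) ≤
        A * D * ((2 * (W * n) : ℕ) / (Nat.totient (2 * (W * n)) : ℝ)) + 2 * A * M (2 * (W * n)) := by
      unfold xv
      linarith
    have h4 : ∑ a ∈ Icc 1 A, ∑ c ∈ Icc 1 D, (wt (W * n) * vonMangoldt (xv k a c (W * n))) ^ 2 ≤
        ∑ a ∈ Icc 1 A, ∑ c ∈ Icc 1 D, (wt (W * n) * Real.log X) * vonMangoldt (xv k a c (W * n)) := by
      apply sum_le_sum
      intro a ha
      apply sum_le_sum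
      intro c hc
      rw [mem_Icc] at ha hc
      have g1 : vonMangoldt (xv k a c (W * n)) ≤ Real.log X := by
        apply Lam_le
        refine le_trans ?_ hX'
        unfold xv
        exact Nat.add_le_add_left (Nat.mul_le_mul_left _ (Nat.add_le_add (Nat.mul_le_mul_right _ ha.2) hc.2)) _
      have g0 : 0 ≤ vonMangoldt (xv k a c (W * n)) := vonMangoldt_nonneg
      have g2 := wt_nonneg (W * n)
      have g3 := wt_le (W * n)
      calc (wt (W * n) * vonMangoldt (xv k a c (W * n))) ^ 2 =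
            (wt (W * n) * vonMangoldt (xv k a c (W * n))) * (wt (W * n) * vonMangoldt (xv k a c (W * n))) := by ring
        _ ≤ (wt (W * n) * vonMangoldt (xv k a c (W * n))) * (1 * Real.log X) := by
            apply mul_le_mul_of_nonneg_left _ (by positivity)
            exact mul_le_mul g3 g1 g0 (by norm_num)
        _ = _ := by ring
    refine h4.trans ?_
    simp only [← mul_sum]
    have h5 := mul_le_mul_of_nonneg_left h3 (mul_nonneg (wt_nonneg (W * n)) hlog)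
    refine h5.trans ?_
    have h6 := wt_mul (W * n) hn1
    have h7 : wt (W * n) * Real.log X * (A * D * ((2 * (W * n) : ℕ) / (Nat.totient (2 * (W * n)) : ℝ)) +
        2 * A * M (2 * (W * n))) =
        Real.log X * (A * D * (wt (W * n) * ((2 * (W * n) : ℕ) / (Nat.totient (2 * (W * n)) : ℝ))) +
          wt (W * n) * (2 * A * M (2 * (W * n)))) := by ring
    rw [h7, h6]
    apply mul_le_mul_of_nonneg_left _ hlog
    have h8 : 0 ≤ 2 * A * M (2 * (W * n)) := by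
      have := hM0 (2 * (W * n))
      positivity
    have h9 := mul_le_mul_of_nonneg_right (wt_le (W * n)) h8
    linarith
  refine (sum_le_sum h1).trans ?_
  rw [← mul_sum, sum_add_distrib, sum_const, Nat.card_Icc, nsmul_eq_mul, Nat.add_sub_cancel, ← mul_sum]
  apply mul_le_mul_of_nonneg_left _ hlog
  have h2 : 2 * (A : ℝ) * ∑ n ∈ Icc 1 R, M (2 * (W * n)) ≤ 2 * A * ∑ m ∈ Icc 1 N, ∑ l ∈ Icc 1 N, M (2 * m * l) :=
    mul_le_mul_of_nonneg_left hE (by positivity)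
  linarith

include hM hM0 hWp hW1 hWR hX in
/-- one pair -/
lemma one_pair (n l : ℕ) (hn : 1 ≤ n) (hl : 1 ≤ l) (hnl : n + l ≤ R) :
    ∑ a ∈ Icc 1 A, ∑ c ∈ Icc 1 D, (wt (W * n) * vonMangoldt (xv k a c (W * n))) *
        (wt (W * (n + l)) * vonMangoldt (xv k a c (W * (n + l)))) ≤
      A * D * gR w R l + (A * N + (N * A + D) * Real.log X) *
        (2 * M (2 * (W * n) * (W * l)) + 2 * M (2 * (W * (n + l)) * (W * l)) + 2 * Real.log X) := by
  have hlog := Real.log_natCast_nonneg X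
  have e0 : ∑ a ∈ Icc 1 A, ∑ c ∈ Icc 1 D, (wt (W * n) * vonMangoldt (xv k a c (W * n))) *
        (wt (W * (n + l)) * vonMangoldt (xv k a c (W * (n + l)))) =
      (wt (W * n) * wt (W * (n + l))) * ∑ a ∈ Icc 1 A, ∑ c ∈ Icc 1 D, vonMangoldt (xv k a c (W * n)) *
        vonMangoldt (xv k a c (W * (n + l))) := by
    rw [mul_sum]
    apply sum_congr rfl
    intro a _
    rw [mul_sum]
    apply sum_congr rfl
    intro c _
    ring
  rw [e0]
  have hm : W * n + W * l = W * (n + l) := by ring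
  have hn1 : 1 ≤ W * n := Nat.mul_pos (by omega) (by omega)
  have hl1 : 1 ≤ W * l := Nat.mul_pos (by omega) (by omega)
  have hnN : W * n ≤ N := (Nat.mul_le_mul_left W (by omega)).trans hWR
  have hlN : W * l ≤ N := (Nat.mul_le_mul_left W (by omega)).trans hWR
  have hmm : 1 ≤ W * (n + l) := Nat.mul_pos (by omega) (by omega)
  have h1 := pair_bound hM hM0 A D (W * n) (W * l) (k (W * n)) (k (W * (n + l))) hn1 hl1
    (hX n hn (by omega)) (by rw [hm]; exact hX (n + l) (by omega) hnl)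
  rw [hm] at h1
  have h2 : ∑ a ∈ Icc 1 A, ∑ c ∈ Icc 1 D, vonMangoldt (xv k a c (W * n)) *
        vonMangoldt (xv k a c (W * (n + l))) ≤ _ := h1
  have hw1 := wt_nonneg (W * n)
  have hw2 := wt_nonneg (W * (n + l))
  have hw3 := wt_le (W * n)
  have hw4 := wt_le (W * (n + l))
  refine (mul_le_mul_of_nonneg_left h2 (mul_nonneg hw1 hw2)).trans ?_
  obtain ⟨m1, hm1⟩ : ∃ x, x = M (2 * (W * n) * (W * l)) := ⟨_, rfl⟩
  obtain ⟨m2, hm2⟩ : ∃ x, x = M (2 * (W * (n + l)) * (W * l)) := ⟨_, rfl⟩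
  have hm1' : 0 ≤ m1 := by rw [hm1]; exact hM0 _
  have hm2' : 0 ≤ m2 := by rw [hm2]; exact hM0 _
  rw [← hm1, ← hm2]
  obtain ⟨L, hL⟩ : ∃ x, x = Real.log X := ⟨_, rfl⟩
  rw [← hL] at hlog ⊢
  -- the weights cancel
  have hφn : (0 : ℝ) < Nat.totient (2 * (W * n)) := by exact_mod_cast Nat.totient_pos.2 (by positivity)
  have hφm : (0 : ℝ) < Nat.totient (2 * (W * (n + l))) := by exact_mod_cast Nat.totient_pos.2 (by positivity)
  have hφnl : (0 : ℝ) < Nat.totient (2 * (W * n) * (W * l)) := by exact_mod_cast Nat.totient_pos.2 (by positivity)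
  have c1 : wt (W * (n + l)) * ((2 * (W * (n + l)) * (W * l) : ℕ) / (Nat.totient (2 * (W * (n + l))) : ℝ)) =
      (W * l : ℕ) := by
    have := wt_mul (W * (n + l)) hmm
    calc wt (W * (n + l)) * ((2 * (W * (n + l)) * (W * l) : ℕ) / (Nat.totient (2 * (W * (n + l))) : ℝ)) =
        (wt (W * (n + l)) * ((2 * (W * (n + l)) : ℕ) / (Nat.totient (2 * (W * (n + l))) : ℝ))) * (W * l : ℕ) := by
          push_cast
          ring
      _ = _ := by rw [this, one_mul]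
  have c2 : wt (W * n) * ((W * l : ℕ) * ((2 * (W * n) * D : ℕ) / (Nat.totient (2 * (W * n) * (W * l)) : ℝ))) ≤
      D * gR w R l := by
    have h3 := rho_le w W R n l hWp hn hl (by omega) hW1
    have h4 : wt (W * n) * ((W * l : ℕ) * ((2 * (W * n) * D : ℕ) / (Nat.totient (2 * (W * n) * (W * l)) : ℝ))) =
        D * ((Nat.totient (2 * (W * n)) : ℝ) * (W * l : ℕ) / (Nat.totient (2 * (W * n) * (W * l)) : ℝ)) := by
      unfold wt
      have h5 : (0 : ℝ) < (2 * (W * n) : ℕ) := by positivity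
      have h6 : ((2 * (W * n) * D : ℕ) : ℝ) = (2 * (W * n) : ℕ) * (D : ℝ) := by push_cast; ring
      rw [h6]
      field_simp
    rw [h4]
    exact mul_le_mul_of_nonneg_left h3 (by positivity)
  have e1 : wt (W * n) * wt (W * (n + l)) *
      (A * ((2 * (W * (n + l)) * (W * l) : ℕ) / (Nat.totient (2 * (W * (n + l))) : ℝ)) *
        ((2 * (W * n) * D : ℕ) / (Nat.totient (2 * (W * n) * (W * l)) : ℝ) + (2 * m1 + L)) +
      (2 * m2 + L) * L * ((W * n : ℕ) * A + D)) =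
      A * (wt (W * n) * ((wt (W * (n + l)) * ((2 * (W * (n + l)) * (W * l) : ℕ) / (Nat.totient (2 * (W * (n + l))) : ℝ))) *
        ((2 * (W * n) * D : ℕ) / (Nat.totient (2 * (W * n) * (W * l)) : ℝ)))) +
      A * wt (W * n) * (wt (W * (n + l)) * ((2 * (W * (n + l)) * (W * l) : ℕ) / (Nat.totient (2 * (W * (n + l))) : ℝ))) *
        (2 * m1 + L) +
      wt (W * n) * wt (W * (n + l)) * ((2 * m2 + L) * L * ((W * n : ℕ) * A + D)) := by ring
  rw [e1, c1]
  have d1 : (A : ℝ) * (wt (W * n) * ((W * l : ℕ) * ((2 * (W * n) * D : ℕ) / (Nat.totient (2 * (W * n) * (W * l)) : ℝ)))) ≤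
      A * (D * gR w R l) := mul_le_mul_of_nonneg_left c2 (by positivity)
  have hlN' : ((W * l : ℕ) : ℝ) ≤ N := by exact_mod_cast hlN
  have hnN' : ((W * n : ℕ) : ℝ) ≤ N := by exact_mod_cast hnN
  have d2 : (A : ℝ) * wt (W * n) * (W * l : ℕ) * (2 * m1 + L) ≤ A * 1 * N * (2 * m1 + L) := by gcongr
  have d3 : wt (W * n) * wt (W * (n + l)) * ((2 * m2 + L) * L * ((W * n : ℕ) * A + D)) ≤
      1 * 1 * ((2 * m2 + L) * L * (N * A + D)) := by gcongr
  have d4 : (A : ℝ) * 1 * N * (2 * m1 + L) + 1 * 1 * ((2 * m2 + L) * L * (N * A + D)) ≤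
      (A * N + (N * A + D) * L) * (2 * m1 + 2 * m2 + 2 * L) := by
    have g1 : 0 ≤ (A : ℝ) * N * (2 * m2 + L) := by positivity
    have g2 : 0 ≤ (N * A + D : ℝ) * L * (2 * m1 + L) := by positivity
    nlinarith
  linarith

include hM hM0 hD hw hWp hW1 hWR hk hX in
/-- **The second moment.** -/
theorem moment2 : ∑ a ∈ Icc 1 A, ∑ c ∈ Icc 1 D, (Zf k W R a c) ^ 2 ≤
    A * D * (R : ℝ) ^ 2 * Real.exp (1 / w) +
    2 * ((A * N + (N * A + D) * Real.log X) *
      (4 * ∑ m ∈ Icc 1 N, ∑ l ∈ Icc 1 N, M (2 * m * l) + 2 * (R : ℝ) ^ 2 * Real.log X)) +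
    Real.log X * ((A : ℝ) * D * R + 2 * A * ∑ m ∈ Icc 1 N, ∑ l ∈ Icc 1 N, M (2 * m * l)) := by
  have hlog := Real.log_natCast_nonneg X
  obtain ⟨E, hE⟩ : ∃ E, E = ∑ m ∈ Icc 1 N, ∑ l ∈ Icc 1 N, M (2 * m * l) := ⟨_, rfl⟩
  have hE' : E = ∑ q ∈ Icc 1 N ×ˢ Icc 1 N, M (2 * q.1 * q.2) := by rw [hE, sum_product]
  have hdiag := diagonal hM hM0 A D W R N k hD hW1 hWR hk hX
  rw [← hE] at hdiag ⊢
  have h1 : ∑ a ∈ Icc 1 A, ∑ c ∈ Icc 1 D, (Zf k W R a c) ^ 2 =
      ∑ n ∈ Icc 1 R, ∑ a ∈ Icc 1 A, ∑ c ∈ Icc 1 D, (wt (W * n) * vonMangoldt (xv k a c (W * n))) ^ 2 +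
      2 * ∑ l ∈ Icc 1 R, ∑ n ∈ Icc 1 (R - l), ∑ a ∈ Icc 1 A, ∑ c ∈ Icc 1 D,
        (wt (W * n) * vonMangoldt (xv k a c (W * n))) *
          (wt (W * (n + l)) * vonMangoldt (xv k a c (W * (n + l)))) := by
    have g1 : ∀ a c, (Zf k W R a c) ^ 2 =
        ∑ n ∈ Icc 1 R, (wt (W * n) * vonMangoldt (xv k a c (W * n))) ^ 2 +
        2 * ∑ l ∈ Icc 1 R, ∑ n ∈ Icc 1 (R - l),
        (wt (W * n) * vonMangoldt (xv k a c (W * n))) *
          (wt (W * (n + l)) * vonMangoldt (xv k a c (W * (n + l)))) := fun a c =>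
      sq_expand (fun n => wt (W * n) * vonMangoldt (xv k a c (W * n))) R
    simp only [g1, sum_add_distrib]
    congr 1
    · have g2 : ∀ a ∈ Icc 1 A, ∑ c ∈ Icc 1 D, ∑ n ∈ Icc 1 R, (wt (W * n) * vonMangoldt (xv k a c (W * n))) ^ 2 =
          ∑ n ∈ Icc 1 R, ∑ c ∈ Icc 1 D, (wt (W * n) * vonMangoldt (xv k a c (W * n))) ^ 2 := fun _ _ => sum_comm
      rw [sum_congr rfl g2, sum_comm]
    · simp only [← mul_sum]
      congr 1
      have g3 : ∀ F : ℕ → ℕ → ℕ → ℕ → ℝ, ∑ a ∈ Icc 1 A, ∑ c ∈ Icc 1 D, ∑ l ∈ Icc 1 R, ∑ n ∈ Icc 1 (R - l), F a c l n =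
          ∑ l ∈ Icc 1 R, ∑ n ∈ Icc 1 (R - l), ∑ a ∈ Icc 1 A, ∑ c ∈ Icc 1 D, F a c l n := by
        intro F
        have s1 : ∀ a ∈ Icc 1 A, ∑ c ∈ Icc 1 D, ∑ l ∈ Icc 1 R, ∑ n ∈ Icc 1 (R - l), F a c l n =
            ∑ l ∈ Icc 1 R, ∑ n ∈ Icc 1 (R - l), ∑ c ∈ Icc 1 D, F a c l n := by
          intro a _
          rw [sum_comm]
          apply sum_congr rfl
          intro l _
          rw [sum_comm]
        rw [sum_congr rfl s1, sum_comm]
        apply sum_congr rfl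
        intro l _
        rw [sum_comm]
      exact g3 (fun a c l n => (wt (W * n) * vonMangoldt (xv k a c (W * n))) *
          (wt (W * (n + l)) * vonMangoldt (xv k a c (W * (n + l)))))
  rw [h1]
  obtain ⟨T, hT⟩ : ∃ T : ℝ, T = A * N + (N * A + D) * Real.log X := ⟨_, rfl⟩
  have hT0 : 0 ≤ T := by rw [hT]; positivity
  have h2 : ∑ l ∈ Icc 1 R, ∑ n ∈ Icc 1 (R - l), ∑ a ∈ Icc 1 A, ∑ c ∈ Icc 1 D,
        (wt (W * n) * vonMangoldt (xv k a c (W * n))) *
          (wt (W * (n + l)) * vonMangoldt (xv k a c (W * (n + l)))) ≤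
      ∑ l ∈ Icc 1 R, ∑ n ∈ Icc 1 (R - l), (A * D * gR w R l + T *
        (2 * M (2 * (W * n) * (W * l)) + 2 * M (2 * (W * (n + l)) * (W * l)) + 2 * Real.log X)) := by
    apply sum_le_sum
    intro l hl
    apply sum_le_sum
    intro n hn
    rw [mem_Icc] at hl hn
    have := one_pair hM hM0 A D w W R N k hWp hW1 hWR hX n l hn.1 hl.1 (by omega)
    rw [hT]
    exact this
  have h3 : ∑ l ∈ Icc 1 R, ∑ n ∈ Icc 1 (R - l), (A * D * gR w R l + T *
        (2 * M (2 * (W * n) * (W * l)) + 2 * M (2 * (W * (n + l)) * (W * l)) + 2 * Real.log X)) =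
      A * D * ∑ l ∈ Icc 1 R, ((R : ℝ) - l) * gR w R l +
      T * (2 * ∑ l ∈ Icc 1 R, ∑ n ∈ Icc 1 (R - l), M (2 * (W * n) * (W * l)) +
        2 * ∑ l ∈ Icc 1 R, ∑ n ∈ Icc 1 (R - l), M (2 * (W * (n + l)) * (W * l)) +
        2 * Real.log X * ∑ l ∈ Icc 1 R, ((R : ℝ) - l)) := by
    simp only [sum_add_distrib, ← mul_sum]
    have g1 : ∀ F : ℕ → ℝ, ∑ l ∈ Icc 1 R, ∑ n ∈ Icc 1 (R - l), F l = ∑ l ∈ Icc 1 R, ((R : ℝ) - l) * F l := by
      intro F
      apply sum_congr rfl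
      intro l hl
      rw [mem_Icc] at hl
      rw [sum_const, Nat.card_Icc, nsmul_eq_mul, Nat.add_sub_cancel, Nat.cast_sub hl.2]
    rw [g1 (fun l => gR w R l), g1 (fun _ => Real.log X), ← sum_mul]
    ring
  have hsig : ∀ F : ℕ → ℕ → ℝ, ∑ l ∈ Icc 1 R, ∑ n ∈ Icc 1 (R - l), F l n =
      ∑ q ∈ (Icc 1 R).sigma (fun l => Icc 1 (R - l)), F q.1 q.2 := by
    intro F
    rw [sum_sigma]
  have h4 : ∑ l ∈ Icc 1 R, ∑ n ∈ Icc 1 (R - l), M (2 * (W * n) * (W * l)) ≤ E := by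
    rw [hsig (fun l n => M (2 * (W * n) * (W * l))), hE']
    have g1 : ∑ q ∈ (Icc 1 R).sigma (fun l => Icc 1 (R - l)), M (2 * (W * q.2) * (W * q.1)) =
        ∑ r ∈ ((Icc 1 R).sigma (fun l => Icc 1 (R - l))).image (fun q => (W * q.2, W * q.1)), M (2 * r.1 * r.2) := by
      rw [sum_image]
      intro q _ q' _ h
      have h5 := congrArg Prod.fst h
      have h6 := congrArg Prod.snd h
      have h5' : W * q.2 = W * q'.2 := h5
      have h6' : W * q.1 = W * q'.1 := h6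
      have h7 := Nat.eq_of_mul_eq_mul_left (show 0 < W by omega) h5'
      have h8 := Nat.eq_of_mul_eq_mul_left (show 0 < W by omega) h6'
      obtain ⟨q1, q2⟩ := q
      obtain ⟨r1, r2⟩ := q'
      simp only at h7 h8
      subst h7
      subst h8
      rfl
    rw [g1]
    apply sum_le_sum_of_subset_of_nonneg
    · intro r hr
      rw [mem_image] at hr
      obtain ⟨q, hq, rfl⟩ := hr
      rw [mem_sigma, mem_Icc, mem_Icc] at hq
      rw [mem_product, mem_Icc, mem_Icc]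
      obtain ⟨⟨a1, a2⟩, a3, a4⟩ := hq
      refine ⟨⟨?_, ?_⟩, ?_, ?_⟩
      · exact Nat.mul_pos (by omega) (by omega)
      · exact (Nat.mul_le_mul_left W (by omega)).trans hWR
      · exact Nat.mul_pos (by omega) (by omega)
      · exact (Nat.mul_le_mul_left W (by omega)).trans hWR
    · intro _ _ _
      exact hM0 _
  have h5 : ∑ l ∈ Icc 1 R, ∑ n ∈ Icc 1 (R - l), M (2 * (W * (n + l)) * (W * l)) ≤ E := by
    rw [hsig (fun l n => M (2 * (W * (n + l)) * (W * l))), hE']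
    have g1 : ∑ q ∈ (Icc 1 R).sigma (fun l => Icc 1 (R - l)), M (2 * (W * (q.2 + q.1)) * (W * q.1)) =
        ∑ r ∈ ((Icc 1 R).sigma (fun l => Icc 1 (R - l))).image (fun q => (W * (q.2 + q.1), W * q.1)),
          M (2 * r.1 * r.2) := by
      rw [sum_image]
      intro q _ q' _ h
      have h5 := congrArg Prod.fst h
      have h6 := congrArg Prod.snd h
      have h5' : W * (q.2 + q.1) = W * (q'.2 + q'.1) := h5
      have h6' : W * q.1 = W * q'.1 := h6
      have h7 := Nat.eq_of_mul_eq_mul_left (show 0 < W by omega) h5'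
      have h8 := Nat.eq_of_mul_eq_mul_left (show 0 < W by omega) h6'
      have h9 : q.2 = q'.2 := by omega
      obtain ⟨q1, q2⟩ := q
      obtain ⟨r1, r2⟩ := q'
      simp only at h8 h9
      subst h8
      subst h9
      rfl
    rw [g1]
    apply sum_le_sum_of_subset_of_nonneg
    · intro r hr
      rw [mem_image] at hr
      obtain ⟨q, hq, rfl⟩ := hr
      rw [mem_sigma, mem_Icc, mem_Icc] at hq
      rw [mem_product, mem_Icc, mem_Icc]
      obtain ⟨⟨a1, a2⟩, a3, a4⟩ := hq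
      refine ⟨⟨?_, ?_⟩, ?_, ?_⟩
      · exact Nat.mul_pos (by omega) (by omega)
      · exact (Nat.mul_le_mul_left W (by omega)).trans hWR
      · exact Nat.mul_pos (by omega) (by omega)
      · exact (Nat.mul_le_mul_left W (by omega)).trans hWR
    · intro _ _ _
      exact hM0 _
  have h6 : ∑ l ∈ Icc 1 R, ((R : ℝ) - l) ≤ (R : ℝ) ^ 2 := by
    calc ∑ l ∈ Icc 1 R, ((R : ℝ) - l) ≤ ∑ l ∈ Icc 1 R, (R : ℝ) := by
          apply sum_le_sum
          intro l _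
          have : (0 : ℝ) ≤ l := Nat.cast_nonneg l
          linarith
      _ = _ := by
          rw [sum_const, Nat.card_Icc, nsmul_eq_mul, Nat.add_sub_cancel]
          ring
  have h7 := sum_gR w hw R
  rw [h3] at h2
  have h8 : (A : ℝ) * D * ∑ l ∈ Icc 1 R, ((R : ℝ) - l) * gR w R l ≤ A * D * ((R : ℝ) ^ 2 / 2 * Real.exp (1 / w)) :=
    mul_le_mul_of_nonneg_left h7 (by positivity)
  have h9 : T * (2 * ∑ l ∈ Icc 1 R, ∑ n ∈ Icc 1 (R - l), M (2 * (W * n) * (W * l)) +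
        2 * ∑ l ∈ Icc 1 R, ∑ n ∈ Icc 1 (R - l), M (2 * (W * (n + l)) * (W * l)) +
        2 * Real.log X * ∑ l ∈ Icc 1 R, ((R : ℝ) - l)) ≤
      T * (4 * E + 2 * (R : ℝ) ^ 2 * Real.log X) := by
    apply mul_le_mul_of_nonneg_left _ hT0
    have g1 : 2 * Real.log X * ∑ l ∈ Icc 1 R, ((R : ℝ) - l) ≤ 2 * Real.log X * (R : ℝ) ^ 2 :=
      mul_le_mul_of_nonneg_left h6 (by positivity)
    linarith
  rw [← hT]
  linarith

include hM hM0 hD hw hWp hW1 hWR hk hX in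
/-- **The variance.** -/
theorem variance : ∑ a ∈ Icc 1 A, ∑ c ∈ Icc 1 D, (Zf k W R a c - R) ^ 2 ≤
    A * D * (R : ℝ) ^ 2 * (Real.exp (1 / w) - 1) +
    2 * ((A * N + (N * A + D) * Real.log X) *
      (4 * ∑ m ∈ Icc 1 N, ∑ l ∈ Icc 1 N, M (2 * m * l) + 2 * (R : ℝ) ^ 2 * Real.log X)) +
    Real.log X * ((A : ℝ) * D * R + 2 * A * ∑ m ∈ Icc 1 N, ∑ l ∈ Icc 1 N, M (2 * m * l)) +
    4 * A * R * ∑ m ∈ Icc 1 N, ∑ l ∈ Icc 1 N, M (2 * m * l) := by
  have h1 := moment1 hM hM0 A D W R N k hD hW1 hWR hk hX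
  have h2 := moment2 hM hM0 A D w W R N k hD hw hWp hW1 hWR hk hX
  have e : ∑ a ∈ Icc 1 A, ∑ c ∈ Icc 1 D, (Zf k W R a c - R) ^ 2 =
      ∑ a ∈ Icc 1 A, ∑ c ∈ Icc 1 D, (Zf k W R a c) ^ 2 -
        2 * R * ∑ a ∈ Icc 1 A, ∑ c ∈ Icc 1 D, Zf k W R a c + A * D * (R : ℝ) ^ 2 := by
    have e1 : ∀ a c, (Zf k W R a c - R) ^ 2 = (Zf k W R a c) ^ 2 - 2 * R * Zf k W R a c + (R : ℝ) ^ 2 := by
      intro a c
      ring
    simp only [e1, sum_add_distrib, sum_sub_distrib, ← mul_sum, sum_const, Nat.card_Icc, nsmul_eq_mul,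
      Nat.add_sub_cancel]
    ring
  rw [e]
  have h3 : 2 * (R : ℝ) * (A * D * R - 2 * A * ∑ m ∈ Icc 1 N, ∑ l ∈ Icc 1 N, M (2 * m * l)) ≤
      2 * R * ∑ a ∈ Icc 1 A, ∑ c ∈ Icc 1 D, Zf k W R a c := mul_le_mul_of_nonneg_left h1 (by positivity)
  linarith

end

end Pool.Agent.Y889.PN
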