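import Pool.Agent.Y889.PN.BVMax

/-!
The second moment for one pair of arguments.
-/

set_option autoImplicit false

namespace Pool.Agent.Y889.PN

open Finset
open ArithmeticFunction (vonMangoldt vonMangoldt_nonneg vonMangoldt_le_log)

/-- the control of the primes in progressions by `M` -/
def Ctl (X : ℕ) (M : ℕ → ℝ) : Prop :=
  ∀ q, 1 ≤ q → ∀ a : ℕ, a.Coprime q → ∀ y : ℕ, y ≤ X → |PS y q a - y / (Nat.totient q : ℝ)| ≤ M q

lemma Lam_le (n X : ℕ) (h : n ≤ X) : vonMangoldt n ≤ Real.log X := by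
  rcases Nat.eq_zero_or_pos n with h0 | h0
  · rw [h0]
    simp only [ArithmeticFunction.map_zero]
    exact Real.log_natCast_nonneg X
  · exact vonMangoldt_le_log.trans (Real.log_le_log (by exact_mod_cast h0) (by exact_mod_cast h))

/-- differences of `PS` -/
lemma PS_sub (Y Z k a : ℕ) (h : Y ≤ Z) :
    PS Z k a - PS Y k a = ∑ n ∈ (Ioc Y Z).filter (fun n => n ≡ a [MOD k]), vonMangoldt n := by
  unfold PS
  have e : (Icc 1 Z).filter (fun n => n ≡ a [MOD k]) =
      (Icc 1 Y).filter (fun n => n ≡ a [MOD k]) ∪ (Ioc Y Z).filter (fun n => n ≡ a [MOD k]) := by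
    ext n
    simp only [mem_union, mem_filter, mem_Icc, mem_Ioc]
    constructor
    · rintro ⟨⟨h1, h2⟩, h3⟩
      rcases le_or_gt n Y with h4 | h4
      · exact Or.inl ⟨⟨h1, h4⟩, h3⟩
      · exact Or.inr ⟨⟨h4, h2⟩, h3⟩
    · rintro (⟨⟨h1, h2⟩, h3⟩ | ⟨⟨h1, h2⟩, h3⟩)
      · exact ⟨⟨h1, by omega⟩, h3⟩
      · exact ⟨⟨by omega, h2⟩, h3⟩
  rw [e, sum_union]
  · ring
  · rw [disjoint_left]
    intro n h1 h2
    simp only [mem_filter, mem_Icc, mem_Ioc] at h1 h2
    omega

/-- a sum along a progression -/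
lemma sum_ap (v q a1 a2 : ℕ) (hq : 1 ≤ q) (h1 : 1 ≤ a1) (h2 : a1 ≤ a2) :
    ∑ a ∈ Icc a1 a2, vonMangoldt (v + q * a) = PS (v + q * a2) q v - PS (v + q * (a1 - 1)) q v := by
  rw [PS_sub _ _ _ _ (Nat.add_le_add_left (Nat.mul_le_mul_left q (by omega)) v)]
  have e : (Ioc (v + q * (a1 - 1)) (v + q * a2)).filter (fun n => n ≡ v [MOD q]) =
      (Icc a1 a2).image (fun a => v + q * a) := by
    ext n
    simp only [mem_filter, mem_Ioc, mem_image, mem_Icc]
    constructor
    · rintro ⟨⟨h3, h4⟩, h5⟩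
      have h6 : v ≤ n := by nlinarith [Nat.zero_le (q * (a1 - 1))]
      obtain ⟨t, ht⟩ := (Nat.modEq_iff_dvd' h6).1 h5.symm
      have h7 : n = v + q * t := by omega
      refine ⟨t, ⟨?_, ?_⟩, h7.symm⟩
      · by_contra h8
        have h9 : t ≤ a1 - 1 := by omega
        have := Nat.mul_le_mul_left q h9
        omega
      · by_contra h8
        have h9 : a2 + 1 ≤ t := by omega
        have := Nat.mul_le_mul_left q h9
        have h10 : q * (a2 + 1) = q * a2 + q := by ring
        omega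
    · rintro ⟨t, ⟨h3, h4⟩, rfl⟩
      refine ⟨⟨?_, ?_⟩, ?_⟩
      · have h9 : a1 - 1 + 1 ≤ t := by omega
        have := Nat.mul_le_mul_left q h9
        have h10 : q * (a1 - 1 + 1) = q * (a1 - 1) + q := by ring
        omega
      · exact Nat.add_le_add_left (Nat.mul_le_mul_left q h4) v
      · unfold Nat.ModEq
        simp
  rw [e, sum_image]
  intro x _ y _ hxy
  have : q * x = q * y := by
    have h' : v + q * x = v + q * y := hxy
    omega
  exact Nat.eq_of_mul_eq_mul_left (by omega) this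

lemma sum_ap_le {X : ℕ} {M : ℕ → ℝ} (hM : Ctl X M) (v q a1 a2 : ℕ) (hq : 1 ≤ q) (h1 : 1 ≤ a1)
    (h2 : a1 ≤ a2) (hv : v.Coprime q) (hX : v + q * a2 ≤ X) :
    |∑ a ∈ Icc a1 a2, vonMangoldt (v + q * a) - q * ((Icc a1 a2).card : ℝ) / (Nat.totient q : ℝ)| ≤ 2 * M q := by
  rw [sum_ap v q a1 a2 hq h1 h2]
  have g1 := hM q hq v hv (v + q * a2) hX
  have g2 := hM q hq v hv (v + q * (a1 - 1))
    (le_trans (Nat.add_le_add_left (Nat.mul_le_mul_left q (by omega)) v) hX)
  have e : PS (v + q * a2) q v - PS (v + q * (a1 - 1)) q v - q * ((Icc a1 a2).card : ℝ) / (Nat.totient q : ℝ) =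
      (PS (v + q * a2) q v - ((v + q * a2 : ℕ) : ℝ) / (Nat.totient q : ℝ)) -
      (PS (v + q * (a1 - 1)) q v - ((v + q * (a1 - 1) : ℕ) : ℝ) / (Nat.totient q : ℝ)) := by
    rw [Nat.card_Icc]
    have e1 : ((a2 + 1 - a1 : ℕ) : ℝ) = (a2 : ℝ) - ((a1 - 1 : ℕ) : ℝ) := by
      rw [Nat.cast_sub (by omega), Nat.cast_sub h1]
      push_cast
      ring
    rw [e1]
    push_cast
    ring
  rw [e]
  refine (abs_sub _ _).trans ?_
  linarith

/-- classes which are not reduced contain few prime powers -/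
lemma PS_noncop (X q v p : ℕ) (hp : p.Prime) (hpq : p ∣ q) (hpv : p ∣ v) : PS X q v ≤ Real.log X := by
  classical
  unfold PS
  have h1 : ∑ n ∈ (Icc 1 X).filter (fun n => n ≡ v [MOD q]), vonMangoldt n ≤
      ∑ n ∈ (Icc 1 (Nat.log p X)).image (fun k => p ^ k), vonMangoldt n := by
    rw [← sum_filter_add_sum_filter_not _ (fun n => n ∈ (Icc 1 (Nat.log p X)).image (fun k => p ^ k))]
    have h2 : ∑ n ∈ ((Icc 1 X).filter (fun n => n ≡ v [MOD q])).filter
        (fun n => ¬ n ∈ (Icc 1 (Nat.log p X)).image (fun k => p ^ k)), vonMangoldt n = 0 := by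
      apply sum_eq_zero
      intro n hn
      rw [mem_filter, mem_filter, mem_Icc] at hn
      by_contra h3
      apply hn.2
      have h4 : IsPrimePow n := by
        by_contra h5
        exact h3 (ArithmeticFunction.vonMangoldt_eq_zero_iff.2 h5)
      have h5 : p ∣ n := by
        have h6 : n ≡ v [MOD p] := hn.1.2.of_dvd hpq
        exact (h6.dvd_iff dvd_rfl).2 hpv
      obtain ⟨r, k, hr, hk, rfl⟩ := h4
      have h7 : p ∣ r := hp.dvd_of_dvd_pow h5
      have h8 : p = r := (Nat.prime_dvd_prime_iff_eq hp hr.nat_prime).1 h7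
      rw [mem_image]
      refine ⟨k, mem_Icc.2 ⟨hk, ?_⟩, by rw [h8]⟩
      rw [h8]
      exact Nat.le_log_of_pow_le hr.nat_prime.one_lt hn.1.1.2
    rw [h2, add_zero]
    apply sum_le_sum_of_subset_of_nonneg
    · intro n hn
      exact (mem_filter.1 hn).2
    · intro n _ _
      exact vonMangoldt_nonneg
  refine h1.trans ?_
  rw [sum_image]
  · have h2 : ∀ k ∈ Icc 1 (Nat.log p X), vonMangoldt (p ^ k) = Real.log p := by
      intro k hk
      rw [ArithmeticFunction.vonMangoldt_apply_pow (by have := (mem_Icc.1 hk).1; omega)]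
      exact ArithmeticFunction.vonMangoldt_apply_prime hp
    rw [sum_congr rfl h2, sum_const, Nat.card_Icc, nsmul_eq_mul, Nat.add_sub_cancel]
    rcases Nat.eq_zero_or_pos X with h0 | h0
    · rw [h0]; simp
    · have h3 : p ^ Nat.log p X ≤ X := Nat.pow_log_le_self p (by omega)
      have h4 : Real.log ((p : ℝ) ^ Nat.log p X) ≤ Real.log X :=
        Real.log_le_log (by have := hp.pos; positivity) (by exact_mod_cast h3)
      rwa [Real.log_pow] at h4
  · intro x _ y _ hxy
    exact Nat.pow_right_injective hp.two_le hxy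

lemma sum_ap_noncop (X v q a1 a2 : ℕ) (hq : 1 ≤ q) (h1 : 1 ≤ a1)
    (h2 : a1 ≤ a2) (hv : ¬ v.Coprime q) (hX : v + q * a2 ≤ X) :
    ∑ a ∈ Icc a1 a2, vonMangoldt (v + q * a) ≤ Real.log X := by
  rw [sum_ap v q a1 a2 hq h1 h2]
  obtain ⟨p, hp, hpv, hpq⟩ := Nat.Prime.not_coprime_iff_dvd.1 hv
  have g1 := PS_noncop (v + q * a2) q v p hp hpq hpv
  have g2 := PS_nonneg (v + q * (a1 - 1)) q v
  have g3 : Real.log ((v + q * a2 : ℕ) : ℝ) ≤ Real.log X := by
    have h3 : 0 < v + q * a2 := Nat.add_pos_right _ (Nat.mul_pos (by omega) (by omega))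
    exact Real.log_le_log (by exact_mod_cast h3) (by exact_mod_cast hX)
  linarith

/-- the number of the reduced classes above a class -/
lemma fiber_card (m l k t : ℕ) (hm : 1 ≤ m) (hl : 1 ≤ l) :
    ((range l).filter (fun r => (k + m * (t + r)).Coprime (m * l))).card * Nat.totient m ≤
      Nat.totient (m * l) := by
  classical
  have : NeZero m := ⟨by omega⟩
  have : NeZero (m * l) := ⟨by positivity⟩
  set f := ZMod.unitsMap (Nat.dvd_mul_right m l) with hf
  have hsurj : Function.Surjective f := ZMod.unitsMap_surjective _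
  -- all fibres have the same size
  have hfib : ∀ x y : (ZMod m)ˣ, (univ.filter (fun g => f g = x)).card = (univ.filter (fun g => f g = y)).card := by
    intro x y
    exact MonoidHom.card_fiber_eq_of_mem_range f (hsurj x) (hsurj y)
  rcases ((range l).filter (fun r => (k + m * (t + r)).Coprime (m * l))).eq_empty_or_nonempty with he | ⟨r0, hr0⟩
  · rw [he]; simp
  have hk : ∀ r, (k + m * (t + r)).Coprime (m * l) → (k : ℕ).Coprime m := by
    intro r hr
    have h1 : (k + m * (t + r)).Coprime m := Nat.Coprime.coprime_dvd_right (Nat.dvd_mul_right m l) hr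
    rwa [Nat.coprime_add_mul_left_left] at h1
  have hk0 := hk r0 (mem_filter.1 hr0).2
  set y0 : (ZMod m)ˣ := ZMod.unitOfCoprime k hk0 with hy0
  have h1 : ((range l).filter (fun r => (k + m * (t + r)).Coprime (m * l))).card ≤
      (univ.filter (fun g => f g = y0)).card := by
    obtain ⟨gg, hgg⟩ : ∃ gg : ℕ → (ZMod (m * l))ˣ, ∀ r (h : (k + m * (t + r)).Coprime (m * l)),
        gg r = ZMod.unitOfCoprime (k + m * (t + r)) h :=
      ⟨fun r => if h : (k + m * (t + r)).Coprime (m * l) then ZMod.unitOfCoprime (k + m * (t + r)) h else 1,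
        fun r h => dif_pos h⟩
    apply card_le_card_of_injOn gg
    · intro r hr
      have hr' := (mem_filter.1 (mem_coe.1 hr)).2
      refine mem_coe.2 (mem_filter.2 ⟨mem_univ _, ?_⟩)
      rw [hgg r hr']
      apply Units.ext
      rw [hf, ZMod.unitsMap_def]
      simp [hy0, ZMod.coe_unitOfCoprime]
    · intro r hr r' hr' h
      have h2 := (mem_filter.1 (mem_coe.1 hr)).2
      have h3 := (mem_filter.1 (mem_coe.1 hr')).2
      have h4 := mem_range.1 (mem_filter.1 (mem_coe.1 hr)).1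
      have h5 := mem_range.1 (mem_filter.1 (mem_coe.1 hr')).1
      rw [hgg r h2, hgg r' h3] at h
      have h6 := congrArg Units.val h
      rw [ZMod.coe_unitOfCoprime, ZMod.coe_unitOfCoprime, ZMod.natCast_eq_natCast_iff] at h6
      have h7 : m * (t + r) ≡ m * (t + r') [MOD m * l] := Nat.ModEq.add_left_cancel' k h6
      have h8 : t + r ≡ t + r' [MOD l] := Nat.ModEq.mul_left_cancel' (by omega) h7
      have h9 : r ≡ r' [MOD l] := Nat.ModEq.add_left_cancel' t h8
      exact Nat.ModEq.eq_of_lt_of_lt h9 h4 h5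
  have h2 : ∑ y : (ZMod m)ˣ, (univ.filter (fun g => f g = y)).card = Fintype.card (ZMod (m * l))ˣ := by
    rw [← card_eq_sum_card_fiberwise (fun _ _ => mem_univ _)]
    rfl
  have h3 : ∑ y : (ZMod m)ˣ, (univ.filter (fun g => f g = y)).card =
      Fintype.card (ZMod m)ˣ * (univ.filter (fun g => f g = y0)).card := by
    rw [sum_congr rfl (fun y _ => hfib y y0), sum_const, smul_eq_mul]
    rfl
  rw [h3, ZMod.card_units_eq_totient, ZMod.card_units_eq_totient] at h2
  calc _ ≤ (univ.filter (fun g => f g = y0)).card * Nat.totient m := Nat.mul_le_mul_right _ h1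
    _ = _ := by rw [mul_comm, h2]

end Pool.Agent.Y889.PN
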