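import Pool.Agent.Y889.PN.Pair

/-!
The second moment for one pair of arguments: the bound.
-/

set_option autoImplicit false

namespace Pool.Agent.Y889.PN

open Finset
open ArithmeticFunction (vonMangoldt vonMangoldt_nonneg vonMangoldt_le_log)

/-- the arguments `a` belonging to `s` -/
def Is (A D n s : ℕ) : Finset ℕ := (Icc 1 A).filter (fun a => a * n + 1 ≤ s ∧ s ≤ a * n + D)

lemma reindex (A D n : ℕ) (F : ℕ → ℕ → ℝ) :
    ∑ a ∈ Icc 1 A, ∑ c ∈ Icc 1 D, F a (a * n + c) =
      ∑ s ∈ Icc 1 (n * A + D), ∑ a ∈ Is A D n s, F a s := by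
  classical
  have h1 : ∀ a ∈ Icc 1 A, ∑ c ∈ Icc 1 D, F a (a * n + c) =
      ∑ s ∈ Icc 1 (n * A + D), if (a * n + 1 ≤ s ∧ s ≤ a * n + D) then F a s else 0 := by
    intro a ha
    rw [mem_Icc] at ha
    rw [← sum_filter]
    apply sum_bij (fun c _ => a * n + c)
    · intro c hc
      rw [mem_Icc] at hc
      rw [mem_filter, mem_Icc]
      have h2 : a * n ≤ n * A := by rw [mul_comm]; exact Nat.mul_le_mul_left n ha.2
      omega
    · intro c _ c' _ h
      have h' : a * n + c = a * n + c' := h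
      omega
    · intro s hs
      rw [mem_filter, mem_Icc] at hs
      exact ⟨s - a * n, by rw [mem_Icc]; omega, by omega⟩
    · intro c _
      rfl
  rw [sum_congr rfl h1, sum_comm]
  apply sum_congr rfl
  intro s _
  unfold Is
  rw [sum_filter]

lemma Is_eq (A D n s : ℕ) (hn : 1 ≤ n) (hs : 1 ≤ s) :
    Is A D n s = Icc (max 1 ((s - D + n - 1) / n)) (min A ((s - 1) / n)) := by
  ext a
  unfold Is
  rw [mem_filter, mem_Icc, mem_Icc, max_le_iff, le_min_iff, Nat.le_div_iff_mul_le (by omega)]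
  have h1 : (s - D + n - 1) / n ≤ a ↔ s ≤ a * n + D := by
    rw [Nat.div_le_iff_le_mul_add_pred (by omega)]
    rw [mul_comm n a]
    omega
  rw [h1]
  constructor
  · rintro ⟨⟨h2, h3⟩, h4, h5⟩
    exact ⟨⟨h2, h5⟩, h3, by omega⟩
  · rintro ⟨⟨h2, h5⟩, h3, h4⟩
    exact ⟨⟨h2, h3⟩, by omega, h5⟩

lemma inner {X : ℕ} {M : ℕ → ℝ} (hM : Ctl X M) (hM0 : ∀ q, 0 ≤ M q) (A D n l k s : ℕ) (hn : 1 ≤ n)
    (hl : 1 ≤ l) (hs : 1 ≤ s) (hX : k + 2 * (n + l) * (A * (n + l) + D) ≤ X) :
    ∑ a ∈ Is A D n s, vonMangoldt (k + 2 * (n + l) * (s + a * l)) ≤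
      (if (k + 2 * (n + l) * s).Coprime (2 * (n + l) * l) then
        (2 * (n + l) * l : ℕ) * ((Is A D n s).card : ℝ) / (Nat.totient (2 * (n + l) * l) : ℝ) else 0) +
      (2 * M (2 * (n + l) * l) + Real.log X) := by
  have hlog := Real.log_natCast_nonneg X
  have hMq := hM0 (2 * (n + l) * l)
  have hq : 1 ≤ 2 * (n + l) * l := by
    have : 0 < 2 * (n + l) * l := by positivity
    omega
  rcases (Is A D n s).eq_empty_or_nonempty with he | hne
  · rw [he, sum_empty]
    split_ifs <;> simp <;> positivity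
  rw [Is_eq A D n s hn hs] at hne ⊢
  set a1 := max 1 ((s - D + n - 1) / n) with ha1
  set a2 := min A ((s - 1) / n) with ha2
  have h12 : a1 ≤ a2 := nonempty_Icc.1 hne
  have h1 : 1 ≤ a1 := le_max_left _ _
  have hmem : a2 ∈ Is A D n s := by
    rw [Is_eq A D n s hn hs]
    exact mem_Icc.2 ⟨h12, le_rfl⟩
  unfold Is at hmem
  rw [mem_filter, mem_Icc] at hmem
  have e : ∀ a ∈ Icc a1 a2, vonMangoldt (k + 2 * (n + l) * (s + a * l)) =
      vonMangoldt ((k + 2 * (n + l) * s) + 2 * (n + l) * l * a) := by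
    intro a _
    congr 1
    ring
  rw [sum_congr rfl e]
  have hX' : (k + 2 * (n + l) * s) + 2 * (n + l) * l * a2 ≤ X := by
    refine le_trans ?_ hX
    have h3 : s + a2 * l ≤ A * (n + l) + D := by
      calc s + a2 * l ≤ (a2 * n + D) + a2 * l := Nat.add_le_add_right hmem.2.2 _
        _ = a2 * (n + l) + D := by ring
        _ ≤ A * (n + l) + D := Nat.add_le_add_right (Nat.mul_le_mul_right _ hmem.1.2) _
    calc (k + 2 * (n + l) * s) + 2 * (n + l) * l * a2 = k + 2 * (n + l) * (s + a2 * l) := by ring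
      _ ≤ _ := Nat.add_le_add_left (Nat.mul_le_mul_left _ h3) _
  split_ifs with hc
  · have h4 := abs_le.1 (sum_ap_le hM (k + 2 * (n + l) * s) (2 * (n + l) * l) a1 a2 hq h1 h12 hc hX')
    have h5 : ((2 * (n + l) * l : ℕ) : ℝ) * ((Icc a1 a2).card : ℝ) / (Nat.totient (2 * (n + l) * l) : ℝ) =
      ((2 * (n + l) * l : ℕ) : ℝ) * (((Icc a1 a2).card : ℕ) : ℝ) / (Nat.totient (2 * (n + l) * l) : ℝ) := rfl
    linarith [h4.2]
  · have h4 := sum_ap_noncop X (k + 2 * (n + l) * s) (2 * (n + l) * l) a1 a2 hq h1 h12 hc hX'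
    linarith

/-- one class of `c` modulo `l` -/
lemma class_le {X : ℕ} {M : ℕ → ℝ} (hM : Ctl X M) (hM0 : ∀ q, 0 ≤ M q) (D n l k t r : ℕ) (hn : 1 ≤ n)
    (hl : 1 ≤ l) (hX : k + 2 * n * (t + D) ≤ X) :
    ∑ c ∈ (Icc 1 D).filter (fun c => c % l = r % l), vonMangoldt (k + 2 * n * (t + c)) ≤
      (2 * n * D : ℕ) / (Nat.totient (2 * n * l) : ℝ) + (2 * M (2 * n * l) + Real.log X) := by
  classical
  have hlog := Real.log_natCast_nonneg X
  have hMq := hM0 (2 * n * l)
  have hq : 1 ≤ 2 * n * l := by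
    have : 0 < 2 * n * l := by positivity
    omega
  obtain ⟨Y1, hY1⟩ : ∃ Y1, Y1 = k + 2 * n * t := ⟨_, rfl⟩
  obtain ⟨Y2, hY2⟩ : ∃ Y2, Y2 = k + 2 * n * (t + D) := ⟨_, rfl⟩
  have hY12 : Y2 = Y1 + 2 * n * D := by rw [hY1, hY2]; ring
  have h1 : ∑ c ∈ (Icc 1 D).filter (fun c => c % l = r % l), vonMangoldt (k + 2 * n * (t + c)) ≤
      PS Y2 (2 * n * l) (k + 2 * n * (t + r)) - PS Y1 (2 * n * l) (k + 2 * n * (t + r)) := by
    rw [PS_sub Y1 Y2 _ _ (by omega)]
    have e : ∑ c ∈ (Icc 1 D).filter (fun c => c % l = r % l), vonMangoldt (k + 2 * n * (t + c)) =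
        ∑ x ∈ ((Icc 1 D).filter (fun c => c % l = r % l)).image (fun c => k + 2 * n * (t + c)), vonMangoldt x := by
      rw [sum_image]
      intro x _ y _ hxy
      have h2 : k + 2 * n * (t + x) = k + 2 * n * (t + y) := hxy
      have h3 : 2 * n * (t + x) = 2 * n * (t + y) := by omega
      have h4 := Nat.eq_of_mul_eq_mul_left (show 0 < 2 * n by omega) h3
      omega
    rw [e]
    apply sum_le_sum_of_subset_of_nonneg
    · intro x hx
      rw [mem_image] at hx
      obtain ⟨c, hc, rfl⟩ := hx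
      rw [mem_filter, mem_Icc] at hc
      rw [mem_filter, mem_Ioc]
      refine ⟨⟨?_, ?_⟩, ?_⟩
      · rw [hY1]
        have : 2 * n * t < 2 * n * (t + c) := Nat.mul_lt_mul_of_pos_left (by omega) (by omega)
        omega
      · rw [hY2]
        exact Nat.add_le_add_left (Nat.mul_le_mul_left _ (by omega)) _
      · apply Nat.ModEq.add_left
        apply Nat.ModEq.mul_left'
        exact Nat.ModEq.add_left t hc.2
    · intro x _ _
      exact vonMangoldt_nonneg
  refine h1.trans ?_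
  by_cases hc : (k + 2 * n * (t + r)).Coprime (2 * n * l)
  · have g1 := abs_le.1 (hM _ hq _ hc Y2 (by omega))
    have g2 := abs_le.1 (hM _ hq _ hc Y1 (by omega))
    have g3 : (Y2 : ℝ) / (Nat.totient (2 * n * l) : ℝ) - (Y1 : ℝ) / (Nat.totient (2 * n * l) : ℝ) =
        ((2 * n * D : ℕ) : ℝ) / (Nat.totient (2 * n * l) : ℝ) := by
      rw [hY12]
      push_cast
      ring
    linarith [g1.2, g2.1]
  · obtain ⟨p, hp, hpv, hpq⟩ := Nat.Prime.not_coprime_iff_dvd.1 hc
    have g1 := PS_noncop Y2 _ _ p hp hpq hpv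
    have g2 := PS_nonneg Y1 (2 * n * l) (k + 2 * n * (t + r))
    have g3 : Real.log (Y2 : ℝ) ≤ Real.log X := by
      rcases Nat.eq_zero_or_pos Y2 with h | h
      · rw [h]; simpa using hlog
      · exact Real.log_le_log (by exact_mod_cast h) (by exact_mod_cast (by omega : Y2 ≤ X))
    have g4 : 0 ≤ ((2 * n * D : ℕ) : ℝ) / (Nat.totient (2 * n * l) : ℝ) := by positivity
    linarith

/-- **The second moment for one pair of arguments.** -/
theorem pair_bound {X : ℕ} {M : ℕ → ℝ} (hM : Ctl X M) (hM0 : ∀ q, 0 ≤ M q) (A D n l k1 k2 : ℕ) (hn : 1 ≤ n)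
    (hl : 1 ≤ l) (hX1 : k1 + 2 * n * (A * n + D) ≤ X)
    (hX2 : k2 + 2 * (n + l) * (A * (n + l) + D) ≤ X) :
    ∑ a ∈ Icc 1 A, ∑ c ∈ Icc 1 D, vonMangoldt (k1 + 2 * n * (a * n + c)) *
        vonMangoldt (k2 + 2 * (n + l) * (a * (n + l) + c)) ≤
      A * ((2 * (n + l) * l : ℕ) / (Nat.totient (2 * (n + l)) : ℝ)) *
        ((2 * n * D : ℕ) / (Nat.totient (2 * n * l) : ℝ) + (2 * M (2 * n * l) + Real.log X)) +
      (2 * M (2 * (n + l) * l) + Real.log X) * Real.log X * (n * A + D) := by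
  classical
  have hlog := Real.log_natCast_nonneg X
  obtain ⟨m, hm⟩ : ∃ m, m = n + l := ⟨_, rfl⟩
  rw [← hm] at hX2 ⊢
  have hm1 : 1 ≤ m := by omega
  have hMq := hM0 (2 * m * l)
  have hMq' := hM0 (2 * n * l)
  obtain ⟨φq, hφq⟩ : ∃ x : ℝ, x = (Nat.totient (2 * m * l) : ℝ) := ⟨_, rfl⟩
  obtain ⟨φm, hφm⟩ : ∃ x : ℝ, x = (Nat.totient (2 * m) : ℝ) := ⟨_, rfl⟩
  have hφq0 : 0 < φq := by
    rw [hφq]
    exact_mod_cast Nat.totient_pos.2 (by positivity)
  have hφm0 : 0 < φm := by
    rw [hφm]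
    exact_mod_cast Nat.totient_pos.2 (by positivity)
  obtain ⟨R, hR⟩ : ∃ R : ℝ, R = (2 * n * D : ℕ) / (Nat.totient (2 * n * l) : ℝ) + (2 * M (2 * n * l) + Real.log X) :=
    ⟨_, rfl⟩
  have hR0 : 0 ≤ R := by rw [hR]; positivity
  -- the indicator
  obtain ⟨ind, hind⟩ : ∃ ind : ℕ → ℝ, ∀ s, ind s = if (k2 + 2 * m * s).Coprime (2 * m * l) then 1 else 0 :=
    ⟨fun s => if (k2 + 2 * m * s).Coprime (2 * m * l) then 1 else 0, fun _ => rfl⟩
  have h1 : ∑ a ∈ Icc 1 A, ∑ c ∈ Icc 1 D, vonMangoldt (k1 + 2 * n * (a * n + c)) *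
        vonMangoldt (k2 + 2 * m * (a * m + c)) =
      ∑ s ∈ Icc 1 (n * A + D), vonMangoldt (k1 + 2 * n * s) *
        ∑ a ∈ Is A D n s, vonMangoldt (k2 + 2 * m * (s + a * l)) := by
    have h2 := reindex A D n (fun a s => vonMangoldt (k1 + 2 * n * s) * vonMangoldt (k2 + 2 * m * (s + a * l)))
    simp only [← mul_sum] at h2
    rw [← h2]
    apply sum_congr rfl
    intro a _
    apply sum_congr rfl
    intro c _
    congr 2
    rw [hm]
    ring
  rw [h1]
  have h2 : ∀ s ∈ Icc 1 (n * A + D), vonMangoldt (k1 + 2 * n * s) *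
        ∑ a ∈ Is A D n s, vonMangoldt (k2 + 2 * m * (s + a * l)) ≤
      ((2 * m * l : ℕ) / φq) * (∑ a ∈ Is A D n s, vonMangoldt (k1 + 2 * n * s) * ind s) +
        (2 * M (2 * m * l) + Real.log X) * Real.log X := by
    intro s hs
    rw [mem_Icc] at hs
    have g1 := inner hM hM0 A D n l k2 s hn hl hs.1 (by rw [← hm]; exact hX2)
    rw [← hm, ← hφq] at g1
    have g2 : vonMangoldt (k1 + 2 * n * s) ≤ Real.log X := by
      apply Lam_le
      refine le_trans ?_ hX1
      apply Nat.add_le_add_left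
      apply Nat.mul_le_mul_left
      rw [mul_comm A n]
      exact hs.2
    have g0 : 0 ≤ vonMangoldt (k1 + 2 * n * s) := vonMangoldt_nonneg
    refine (mul_le_mul_of_nonneg_left g1 g0).trans ?_
    rw [mul_add]
    apply add_le_add
    · rw [sum_const, nsmul_eq_mul, hind s]
      split_ifs
      · apply le_of_eq
        ring
      · simp
    · rw [mul_comm]
      exact mul_le_mul_of_nonneg_left g2 (by positivity)
  refine (sum_le_sum h2).trans ?_
  rw [sum_add_distrib, sum_const, Nat.card_Icc, nsmul_eq_mul, Nat.add_sub_cancel, ← mul_sum]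
  rw [← reindex A D n (fun a s => vonMangoldt (k1 + 2 * n * s) * ind s)]
  apply add_le_add
  · -- the main part
    have h3 : ∀ a ∈ Icc 1 A, ∑ c ∈ Icc 1 D, vonMangoldt (k1 + 2 * n * (a * n + c)) * ind (a * n + c) ≤
        φq / φm * R := by
      intro a ha
      rw [mem_Icc] at ha
      have hmaps : ∀ c ∈ Icc 1 D, c % l ∈ range l := fun c _ => mem_range.2 (Nat.mod_lt _ (by omega))
      rw [← sum_fiberwise_of_maps_to hmaps]
      have h4 : ∀ r ∈ range l, ∑ c ∈ (Icc 1 D).filter (fun c => c % l = r),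
          vonMangoldt (k1 + 2 * n * (a * n + c)) * ind (a * n + c) ≤ ind (a * n + r) * R := by
        intro r hr
        have hr' : r % l = r := Nat.mod_eq_of_lt (mem_range.1 hr)
        have e1 : ∑ c ∈ (Icc 1 D).filter (fun c => c % l = r),
            vonMangoldt (k1 + 2 * n * (a * n + c)) * ind (a * n + c) =
            ind (a * n + r) * ∑ c ∈ (Icc 1 D).filter (fun c => c % l = r),
              vonMangoldt (k1 + 2 * n * (a * n + c)) := by
          rw [mul_sum]
          apply sum_congr rfl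
          intro c hc
          have hc' := (mem_filter.1 hc).2
          have e2 : ind (a * n + c) = ind (a * n + r) := by
            rw [hind, hind]
            have e3 : k2 + 2 * m * (a * n + c) ≡ k2 + 2 * m * (a * n + r) [MOD 2 * m * l] := by
              apply Nat.ModEq.add_left
              apply Nat.ModEq.mul_left'
              apply Nat.ModEq.add_left
              unfold Nat.ModEq
              rw [hc', hr']
            have e4 : (k2 + 2 * m * (a * n + c)).Coprime (2 * m * l) ↔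
                (k2 + 2 * m * (a * n + r)).Coprime (2 * m * l) := by
              unfold Nat.Coprime
              rw [e3.gcd_eq]
            simp only [e4]
          rw [e2]
          ring
        rw [e1]
        have hi0 : 0 ≤ ind (a * n + r) := by
          rw [hind]
          split_ifs <;> norm_num
        apply mul_le_mul_of_nonneg_left _ hi0
        have g1 := class_le hM hM0 D n l k1 (a * n) r hn hl (by
          refine le_trans ?_ hX1
          apply Nat.add_le_add_left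
          apply Nat.mul_le_mul_left
          exact Nat.add_le_add_right (Nat.mul_le_mul_right n ha.2) D)
        rw [hr', ← hR] at g1
        exact g1
      refine (sum_le_sum h4).trans ?_
      rw [← sum_mul]
      apply mul_le_mul_of_nonneg_right _ hR0
      have h5 : ∑ r ∈ range l, ind (a * n + r) =
          (((range l).filter (fun r => (k2 + 2 * m * (a * n + r)).Coprime (2 * m * l))).card : ℝ) := by
        rw [card_filter]
        push_cast
        apply sum_congr rfl
        intro r _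
        rw [hind]
      rw [h5, le_div_iff₀ hφm0, hφm, hφq]
      exact_mod_cast fiber_card (2 * m) l k2 (a * n) (by omega) hl
    have h6 : ∑ a ∈ Icc 1 A, ∑ c ∈ Icc 1 D, vonMangoldt (k1 + 2 * n * (a * n + c)) * ind (a * n + c) ≤
        A * (φq / φm * R) := by
      refine (sum_le_sum h3).trans ?_
      rw [sum_const, Nat.card_Icc, nsmul_eq_mul, Nat.add_sub_cancel]
    refine (mul_le_mul_of_nonneg_left h6 (by positivity)).trans (le_of_eq ?_)
    rw [hR, ← hφm]
    field_simp
  · apply le_of_eq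
    push_cast
    ring

end Pool.Agent.Y889.PN
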